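import Pool.Agent.Run7.h545.MG.PER

/-! # The shifts `h` with `p_{J(k)} + h` prime for some `k` -/

set_option autoImplicit false

namespace Pool.Agent.Run7.h545.MG

open Finset

open Classical in
/-- the shifts for the indices `J k` -/
noncomputable def UJ (J : ℕ → ℕ) (K H : ℕ) : Finset ℕ :=
  (Icc 1 H).filter (fun h => ∃ k ∈ Icc 1 K, (p (J k) + h).Prime)

theorem perJ (J : ℕ → ℕ) (K H r : ℕ) (G : Finset ℕ) (hG : G ⊆ Icc 1 K) (hk1 : ∀ k ∈ G, 1 ≤ J k)
    (hG2 : ∀ k ∈ G, p (J k + r) ≤ p (J k) + H) (P : ℝ) (hP : 0 ≤ P)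
    (hP2 : ∀ k ∈ G, ∀ k' ∈ G, k < k' →
      (((Icc 1 H).filter (fun h => (p (J k) + h).Prime ∧ (p (J k') + h).Prime)).card : ℝ) ≤ P) :
    ((G.card : ℝ) * r) ^ 2 ≤ (UJ J K H).card * (G.card * r + G.card ^ 2 * P) := by
  classical
  have hSU : ∀ k ∈ G, S (J k) r ⊆ UJ J K H := by
    intro k hk h hh
    obtain ⟨a1, a2, a3⟩ := mem_S (hk1 k hk) hh
    unfold UJ
    rw [mem_filter, mem_Icc]
    have := hG2 k hk
    exact ⟨⟨a1, by omega⟩, k, hG hk, a3⟩
  set t : ℕ → ℝ := fun h => ∑ k ∈ G, (if h ∈ S (J k) r then (1 : ℝ) else 0) with ht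
  have h1 : ∑ h ∈ UJ J K H, t h = (G.card : ℝ) * r := by
    rw [ht]
    simp only
    rw [sum_comm]
    calc ∑ k ∈ G, ∑ h ∈ UJ J K H, (if h ∈ S (J k) r then (1 : ℝ) else 0)
        = ∑ _k ∈ G, (r : ℝ) := by
          apply sum_congr rfl
          intro k hk
          rw [sum_boole]
          have : (UJ J K H).filter (fun h => h ∈ S (J k) r) = S (J k) r := by
            ext h
            rw [mem_filter]
            exact ⟨fun h => h.2, fun h' => ⟨hSU k hk h', h'⟩⟩
          rw [this, S_card (hk1 k hk)]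
      _ = _ := by rw [sum_const, nsmul_eq_mul]
  have h2 : ∑ h ∈ UJ J K H, t h ^ 2 ≤ G.card * r + (G.card : ℝ) ^ 2 * P := by
    have e1 : ∀ h, t h ^ 2 = ∑ k ∈ G, ∑ k' ∈ G,
        (if h ∈ S (J k) r ∧ h ∈ S (J k') r then (1 : ℝ) else 0) := by
      intro h
      rw [ht]
      simp only
      rw [sq, sum_mul_sum]
      apply sum_congr rfl
      intro k _
      apply sum_congr rfl
      intro k' _
      by_cases h1 : h ∈ S (J k) r <;> by_cases h2 : h ∈ S (J k') r <;> simp [h1, h2]
    have e2 : ∑ h ∈ UJ J K H, t h ^ 2 = ∑ k ∈ G, ∑ k' ∈ G, ∑ h ∈ UJ J K H,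
        (if h ∈ S (J k) r ∧ h ∈ S (J k') r then (1 : ℝ) else 0) := by
      rw [sum_congr rfl fun h _ => e1 h, sum_comm]
      apply sum_congr rfl
      intro k _
      rw [sum_comm]
    rw [e2]
    calc ∑ k ∈ G, ∑ k' ∈ G, ∑ h ∈ UJ J K H,
          (if h ∈ S (J k) r ∧ h ∈ S (J k') r then (1 : ℝ) else 0)
        ≤ ∑ k ∈ G, ∑ k' ∈ G, ((if k = k' then (r : ℝ) else 0) + P) := by
          apply sum_le_sum
          intro k hk
          apply sum_le_sum
          intro k' hk'
          rw [sum_boole]
          by_cases hkk : k = k'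
          · rw [if_pos hkk, ← hkk]
            have : ((UJ J K H).filter (fun h => h ∈ S (J k) r ∧ h ∈ S (J k) r)).card ≤ r := by
              calc ((UJ J K H).filter (fun h => h ∈ S (J k) r ∧ h ∈ S (J k) r)).card
                  ≤ (S (J k) r).card := by
                    apply card_le_card
                    intro h hh
                    exact (mem_filter.1 hh).2.1
                _ = r := S_card (hk1 k hk) r
            have h3 : ((((UJ J K H).filter (fun h => h ∈ S (J k) r ∧ h ∈ S (J k) r)).card : ℕ) : ℝ) ≤ r := by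
              exact_mod_cast this
            linarith
          · rw [if_neg hkk, zero_add]
            rcases Nat.lt_or_gt_of_ne hkk with hlt | hlt
            · refine le_trans ?_ (hP2 k hk k' hk' hlt)
              have : ((UJ J K H).filter (fun h => h ∈ S (J k) r ∧ h ∈ S (J k') r)).card ≤
                  ((Icc 1 H).filter (fun h => (p (J k) + h).Prime ∧ (p (J k') + h).Prime)).card := by
                apply card_le_card
                intro h hh
                rw [mem_filter] at hh ⊢
                exact ⟨(mem_filter.1 hh.1).1, (mem_S (hk1 k hk) hh.2.1).2.2,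
                  (mem_S (hk1 k' hk') hh.2.2).2.2⟩
              exact_mod_cast this
            · refine le_trans ?_ (hP2 k' hk' k hk hlt)
              have : ((UJ J K H).filter (fun h => h ∈ S (J k) r ∧ h ∈ S (J k') r)).card ≤
                  ((Icc 1 H).filter (fun h => (p (J k') + h).Prime ∧ (p (J k) + h).Prime)).card := by
                apply card_le_card
                intro h hh
                rw [mem_filter] at hh ⊢
                exact ⟨(mem_filter.1 hh.1).1, (mem_S (hk1 k' hk') hh.2.2).2.2,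
                  (mem_S (hk1 k hk) hh.2.1).2.2⟩
              exact_mod_cast this
      _ = _ := by
          rw [sum_congr rfl fun k (hk : k ∈ G) => (by
            rw [sum_add_distrib, sum_ite_eq, if_pos hk, sum_const, nsmul_eq_mul] :
            ∑ k' ∈ G, ((if k = k' then (r : ℝ) else 0) + P) = r + G.card * P)]
          rw [sum_const, nsmul_eq_mul]
          ring
  calc ((G.card : ℝ) * r) ^ 2 = (∑ h ∈ UJ J K H, t h) ^ 2 := by rw [h1]
    _ ≤ (UJ J K H).card * ∑ h ∈ UJ J K H, t h ^ 2 := sq_sum_le_card_mul_sum_sq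
    _ ≤ _ := mul_le_mul_of_nonneg_left h2 (Nat.cast_nonneg _)

end Pool.Agent.Run7.h545.MG
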