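import Pool.Agent.Run7.h545.MG.TOP
import Pool.Agent.Run7.h545.MG.PERJ
import Pool.Agent.H295R3.Hoheisel

/-! # All large `n`, for `θ` near `1` -/

set_option autoImplicit false

namespace Pool.Agent.Run7.h545.MG

open Finset Filter Topology

lemma le_p (j : ℕ) : j ≤ p j := by
  unfold p
  have := Nat.add_two_le_nth_prime (j - 1)
  omega

/-- many primes after `p j` -/
lemma p_step {j r H : ℕ} (hj : 1 ≤ j) (hr : 1 ≤ r)
    (h : r ≤ ((Ioc (p j) (p j + H)).filter Nat.Prime).card) : p (j + r) ≤ p j + H := by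
  have hc : Nat.count Nat.Prime (p j + 1) = j := by
    unfold p
    rw [Nat.count_succ, if_pos (Nat.prime_nth_prime _),
      Nat.count_nth_of_infinite Nat.infinite_setOfPred_prime]
    omega
  have h1 : j + r ≤ Nat.count Nat.Prime (p j + H + 1) := by
    have h2 : (range (p j + 1)).filter Nat.Prime ∪ (Ioc (p j) (p j + H)).filter Nat.Prime ⊆
        (range (p j + H + 1)).filter Nat.Prime := by
      intro q hq
      rw [mem_union, mem_filter, mem_filter, mem_range, mem_Ioc] at hq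
      rw [mem_filter, mem_range]
      rcases hq with hq | hq
      · exact ⟨by omega, hq.2⟩
      · exact ⟨by omega, hq.2⟩
    have h3 := card_le_card h2
    rw [card_union_of_disjoint (by
      rw [Finset.disjoint_left]
      intro q hq hq'
      rw [mem_filter, mem_range] at hq
      rw [mem_filter, mem_Ioc] at hq'
      omega), ← Nat.count_eq_card_filter_range, ← Nat.count_eq_card_filter_range, hc] at h3
    omega
  have h4 : Nat.nth Nat.Prime (j + r - 1) < p j + H + 1 := Nat.nth_lt_of_lt_count (by omega)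
  have h5 : p (j + r) = Nat.nth Nat.Prime (j + r - 1) := rfl
  omega

/-- the final computation -/
lemma alg {g r P u c H L s C θ : ℝ} (hC : 0 < C) (hθ : 0 < θ) (hL0 : 0 < L) (hs1 : 1 ≤ s) (hc0 : 0 < c) (hc1 : c ≤ 1)
    (hH : 0 < H) (hu0 : 0 ≤ u) (hg : L / 4 ≤ g) (hgL : g ≤ L) (hr2 : c * H / (2 * L) ≤ r) (hr0 : 0 < r)
    (hP : P = C * (2 * s) * (H / (θ / 2 * L) ^ 2)) (hper : (g * r) ^ 2 ≤ u * (g * r + g ^ 2 * P)) :
    c ^ 2 * H ≤ 8 * (1 + 16 * C / θ ^ 2) * s * u := by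
  have hg0 : 0 < g := by linarith
  have hP0 : 0 ≤ P := by rw [hP]; positivity
  have h1 : g * r ≤ u * (1 + g * P / r) := by
    have h2 : (g * r) * (g * r) ≤ (u * (1 + g * P / r)) * (g * r) := by
      have e1 : (u * (1 + g * P / r)) * (g * r) = u * (g * r + g ^ 2 * P) := by
        field_simp
      rw [e1]
      calc (g * r) * (g * r) = (g * r) ^ 2 := by ring
        _ ≤ _ := hper
    exact le_of_mul_le_mul_right h2 (by positivity)
  have h2 : g * P / r ≤ 16 * C / θ ^ 2 * s / c := by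
    rw [div_le_div_iff₀ hr0 hc0]
    have e1 : c * (H / L) ≤ 2 * r := by
      have : c * H / (2 * L) = c * (H / L) / 2 := by field_simp
      rw [this] at hr2
      linarith
    have e2 : g * P ≤ 8 * C / θ ^ 2 * s * (H / L) := by
      calc g * P ≤ L * P := mul_le_mul_of_nonneg_right hgL hP0
        _ = 8 * C / θ ^ 2 * s * (H / L) := by
            rw [hP]
            field_simp
            ring
    calc g * P * c ≤ 8 * C / θ ^ 2 * s * (H / L) * c := mul_le_mul_of_nonneg_right e2 hc0.le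
      _ = 8 * C / θ ^ 2 * s * (c * (H / L)) := by ring
      _ ≤ 8 * C / θ ^ 2 * s * (2 * r) := mul_le_mul_of_nonneg_left e1 (by positivity)
      _ = _ := by ring
  have h3 : c * H / 8 ≤ g * r := by
    calc c * H / 8 = (L / 4) * (c * H / (2 * L)) := by field_simp; ring
      _ ≤ g * r := mul_le_mul hg hr2 (by positivity) (by linarith)
  have h4 : c * H / 8 ≤ u * (1 + 16 * C / θ ^ 2 * s / c) :=
    h3.trans (h1.trans (mul_le_mul_of_nonneg_left (by linarith) hu0))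
  have h5 : c * (c * H / 8) ≤ u * (c + 16 * C / θ ^ 2 * s) := by
    calc c * (c * H / 8) ≤ c * (u * (1 + 16 * C / θ ^ 2 * s / c)) :=
          mul_le_mul_of_nonneg_left h4 hc0.le
      _ = _ := by field_simp
  have h6 : c + 16 * C / θ ^ 2 * s ≤ (1 + 16 * C / θ ^ 2) * s := by
    have e : (1 + 16 * C / θ ^ 2) * s = s + 16 * C / θ ^ 2 * s := by ring
    rw [e]
    linarith
  have h7 := h5.trans (mul_le_mul_of_nonneg_left h6 hu0)
  linarith

/-- the size of the `n K²`-th prime -/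
lemma p_size {n K : ℕ} {L : ℝ} (hn18 : 18 ≤ n) (hL : L = Real.log n) (hL9 : 9 ≤ L) (hK1 : 1 ≤ K) (hKL : (K : ℝ) ≤ L) :
    (p (n * K ^ 2) : ℝ) ≤ 27 * (n : ℝ) * L ^ 3 := by
  have hnr : (18 : ℝ) ≤ n := by exact_mod_cast hn18
  have hn0 : (0 : ℝ) < n := by linarith
  have hL0 : 0 < L := by linarith
  have hLn : L ≤ n := by
    rw [hL]
    have := Real.log_le_sub_one_of_pos hn0
    linarith
  have hK2 : 1 ≤ K ^ 2 := Nat.one_le_pow _ _ hK1
  have h6 : 6 ≤ n * K ^ 2 := by nlinarith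
  have h1 : (p (n * K ^ 2) : ℝ) ≤ Nat.nth Nat.Prime (n * K ^ 2) := by
    have : p (n * K ^ 2) ≤ Nat.nth Nat.Prime (n * K ^ 2) :=
      (Nat.nth_strictMono Nat.infinite_setOfPred_prime).monotone (Nat.sub_le _ _)
    exact_mod_cast this
  have h2 := nth_le h6
  have hKr : (0 : ℝ) ≤ K := Nat.cast_nonneg K
  have hKsq : (K : ℝ) ^ 2 ≤ L ^ 2 := pow_le_pow_left₀ hKr hKL 2
  have h3 : ((n * K ^ 2 : ℕ) : ℝ) ≤ n * L ^ 2 := by
    push_cast
    exact mul_le_mul_of_nonneg_left hKsq hn0.le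
  have h30 : (0 : ℝ) < ((n * K ^ 2 : ℕ) : ℝ) := by
    have : 0 < n * K ^ 2 := by omega
    exact_mod_cast this
  have h4 : Real.log ((n * K ^ 2 : ℕ) : ℝ) ≤ 3 * L := by
    have h5 : ((n * K ^ 2 : ℕ) : ℝ) ≤ (n : ℝ) ^ 3 := by
      refine h3.trans ?_
      have : L ^ 2 ≤ (n : ℝ) ^ 2 := pow_le_pow_left₀ hL0.le hLn 2
      calc (n : ℝ) * L ^ 2 ≤ n * (n : ℝ) ^ 2 := mul_le_mul_of_nonneg_left this hn0.le
        _ = (n : ℝ) ^ 3 := by ring
    have h7 := Real.log_le_log h30 h5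
    rw [Real.log_pow, ← hL] at h7
    have e2 : ((3 : ℕ) : ℝ) = 3 := by norm_num
    rw [e2] at h7
    exact h7
  have hlog0 : 0 ≤ Real.log ((n * K ^ 2 : ℕ) : ℝ) := Real.log_natCast_nonneg _
  calc (p (n * K ^ 2) : ℝ) ≤ 9 * ((n * K ^ 2 : ℕ) : ℝ) * Real.log ((n * K ^ 2 : ℕ) : ℝ) := h1.trans h2
    _ ≤ 9 * (n * L ^ 2) * (3 * L) := by
        apply mul_le_mul _ h4 hlog0 (by positivity)
        linarith
    _ = 27 * (n : ℝ) * L ^ 3 := by ring

/-- the lower bound for one `n` -/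
lemma one_n {J : ℕ → ℕ} {C : ℝ} (hC : 0 < C) {u0 : ℕ}
    (hpair : ∀ a b H w : ℕ, a < b → u0 ≤ H → 3 ≤ w → b < 2 ^ w →
    (((Icc 1 H).filter (fun h => (a + h).Prime ∧ (b + h).Prime)).card : ℝ) ≤
      C * Real.log w * (H / Real.log H ^ 2))
    {δ η : ℝ} {X₀ : ℕ} (hδ1 : δ < 1) (hη : 0 < η)
    (hHo : ∀ X Y : ℕ, X₀ ≤ X → (X : ℝ) ^ (1 - δ) ≤ Y → Y ≤ X →
      η * Y / Real.log X ≤ (((Ioc X (X + Y)).filter Nat.Prime).card : ℝ))
    {θ γ c : ℝ} (hθ : 0 < θ) (hθ1 : θ ≤ 1) (hγ : 1 ≤ γ)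
    (hc0 : 0 < c) (hc1 : c ≤ 1) (hcη : c ≤ η / γ)
    {n : ℕ} {L s : ℝ} (hL : L = Real.log n) (hs : s = Real.log L) (hL9 : 9 ≤ L) (hs3 : 3 ≤ s)
    (hn18 : 18 ≤ n) (hnX : X₀ ≤ n)
    (f4 : 2 ≤ (n : ℝ) ^ θ) (f4' : (n : ℝ) ^ (θ / 2) ≤ (n : ℝ) ^ θ / 2) (f4'' : (u0 : ℝ) ≤ (n : ℝ) ^ (θ / 2))
    (f5 : 4 * L ≤ c * (n : ℝ) ^ θ)
    (hJ1 : ∀ k, 1 ≤ k → n ≤ J k) (hJ2 : ∀ k, 1 ≤ k → k ≤ ⌊L⌋₊ → J k ≤ n * ⌊L⌋₊ ^ 2)
    (hJ3 : ∀ k k', 1 ≤ k → k < k' → J k < J k')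
    (f6 : 27 * (n : ℝ) * L ^ 3 ≤ (n : ℝ) ^ γ) (f8 : 27 * (n : ℝ) * L ^ 3 ≤ (n : ℝ) ^ 5)
    (f7 : ((n : ℝ) ^ γ) ^ (1 - δ) ≤ (n : ℝ) ^ θ / 2) :
    c ^ 2 / (16 * (1 + 16 * C / θ ^ 2)) * ((n : ℝ) ^ θ / s) ≤ ((UJ J ⌊L⌋₊ ⌊(n : ℝ) ^ θ⌋₊).card : ℝ) := by
  classical
  have hnr : (18 : ℝ) ≤ n := by exact_mod_cast hn18
  have hn0 : (0 : ℝ) < n := by linarith
  have hL0 : 0 < L := by linarith
  have hs0 : 0 < s := by linarith
  have hLn : L ≤ n := by
    rw [hL]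
    have := Real.log_le_sub_one_of_pos hn0
    linarith
  set K := ⌊L⌋₊ with hK
  set H := ⌊(n : ℝ) ^ θ⌋₊ with hH
  set r := ⌊c * H / L⌋₊ with hr
  set w := ⌊8 * L⌋₊ + 1 with hw
  have hKL : (K : ℝ) ≤ L := Nat.floor_le hL0.le
  have hKge : L / 2 ≤ K := by
    have := Nat.lt_floor_add_one L
    rw [← hK] at this
    linarith
  have hK1 : 1 ≤ K := by
    have : (1 : ℝ) ≤ K := by linarith
    exact_mod_cast this
  have hKn : K ≤ n := by
    have : (K : ℝ) ≤ n := by linarith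
    exact_mod_cast this
  have hHle : (H : ℝ) ≤ (n : ℝ) ^ θ := Nat.floor_le (by positivity)
  have hHge : (n : ℝ) ^ θ / 2 ≤ H := by
    have := Nat.lt_floor_add_one ((n : ℝ) ^ θ)
    rw [← hH] at this
    linarith
  have hHge' : (n : ℝ) ^ (θ / 2) ≤ H := f4'.trans hHge
  have hH1 : 1 ≤ H := by
    have : (1 : ℝ) ≤ H := by linarith
    exact_mod_cast this
  have hHr : (1 : ℝ) ≤ H := by exact_mod_cast hH1
  have hHn : H ≤ n := by
    have h1 : (n : ℝ) ^ θ ≤ n := by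
      calc (n : ℝ) ^ θ ≤ (n : ℝ) ^ (1 : ℝ) := Real.rpow_le_rpow_of_exponent_le (by linarith) hθ1
        _ = n := Real.rpow_one _
    have : (H : ℝ) ≤ n := hHle.trans h1
    exact_mod_cast this
  have hu0 : u0 ≤ H := by
    have : (u0 : ℝ) ≤ H := f4''.trans hHge'
    exact_mod_cast this
  have hlH : θ / 2 * L ≤ Real.log H := by
    have := Real.log_le_log (by positivity) hHge'
    rw [Real.log_rpow hn0, ← hL] at this
    exact this
  have hcHL : 2 ≤ c * H / L := by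
    rw [le_div_iff₀ hL0]
    have := mul_le_mul_of_nonneg_left hHge hc0.le
    linarith
  have hrle : (r : ℝ) ≤ c * H / L := Nat.floor_le (by positivity)
  have hrge : c * H / (2 * L) ≤ r := by
    have h1 := Nat.lt_floor_add_one (c * H / L)
    rw [← hr] at h1
    have h2 : c * H / (2 * L) = (c * H / L) / 2 := by field_simp
    rw [h2]
    linarith
  have hr1 : 1 ≤ r := by
    have h2 : c * H / (2 * L) = (c * H / L) / 2 := by field_simp
    have : (1 : ℝ) ≤ r := by rw [h2] at hrge; linarith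
    exact_mod_cast this
  have hwle : (w : ℝ) ≤ 9 * L := by
    have h1 : ((⌊8 * L⌋₊ : ℕ) : ℝ) ≤ 8 * L := Nat.floor_le (by positivity)
    rw [hw]
    push_cast
    linarith
  have hw3 : 3 ≤ w := by
    have h1 : 2 ≤ ⌊8 * L⌋₊ := Nat.le_floor (by push_cast; linarith)
    omega
  have hlw : Real.log w ≤ 2 * s := by
    have hw0 : (0 : ℝ) < w := by
      have : (3 : ℝ) ≤ w := by exact_mod_cast hw3
      linarith
    have h1 : (w : ℝ) ≤ L ^ 2 := by nlinarith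
    have h2 := Real.log_le_log hw0 h1
    rw [Real.log_pow, ← hs] at h2
    have e2 : ((2 : ℕ) : ℝ) = 2 := by norm_num
    rw [e2] at h2
    exact h2
  have hsize : (p (n * K ^ 2) : ℝ) ≤ 27 * (n : ℝ) * L ^ 3 := p_size hn18 hL hL9 hK1 hKL
  have hpw : p (n * K ^ 2) < 2 ^ w := by
    have h4 : (n : ℝ) ^ 5 < (2 : ℝ) ^ (8 * L) := by
      have e1 : (n : ℝ) ^ 5 = Real.exp (5 * L) := by
        rw [← Real.exp_log (pow_pos hn0 5), Real.log_pow, ← hL]
        norm_num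
      rw [e1, Real.rpow_def_of_pos (by norm_num)]
      apply Real.exp_lt_exp.2
      have := Real.log_two_gt_d9
      nlinarith
    have h5 : (2 : ℝ) ^ (8 * L) ≤ (2 : ℝ) ^ w := by
      rw [← Real.rpow_natCast (2 : ℝ) w]
      apply Real.rpow_le_rpow_of_exponent_le (by norm_num)
      rw [hw]
      push_cast
      exact (Nat.lt_floor_add_one _).le
    have h6 : (p (n * K ^ 2) : ℝ) < ((2 ^ w : ℕ) : ℝ) := by
      push_cast
      linarith
    exact_mod_cast h6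
  have hX : (p (n * K ^ 2) : ℝ) ≤ (n : ℝ) ^ γ := hsize.trans f6
  have hgap : ∀ k ∈ Icc 1 K, p (J k + r) ≤ p (J k) + H := by
    intro k hk
    rw [mem_Icc] at hk
    have hnk : 1 ≤ J k := (by omega : 1 ≤ n).trans (hJ1 k hk.1)
    apply p_step hnk hr1
    have hpn : n ≤ p (J k) := (hJ1 k hk.1).trans (le_p _)
    have hpX : (p (J k) : ℝ) ≤ (n : ℝ) ^ γ := by
      have : p (J k) ≤ p (n * K ^ 2) := p_mono (hJ2 k hk.1 hk.2)
      exact (by exact_mod_cast this : (p (J k) : ℝ) ≤ p (n * K ^ 2)).trans hX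
    have hpn0 : (1 : ℝ) < p (J k) := by
      have : (18 : ℝ) ≤ p (J k) := hnr.trans (by exact_mod_cast hpn)
      linarith
    have h1 := hHo (p (J k)) H (hnX.trans hpn) (by
      calc (p (J k) : ℝ) ^ (1 - δ) ≤ ((n : ℝ) ^ γ) ^ (1 - δ) :=
            Real.rpow_le_rpow (by linarith) hpX (by linarith)
        _ ≤ (n : ℝ) ^ θ / 2 := f7
        _ ≤ H := hHge) (hHn.trans hpn)
    have hlogX0 : 0 < Real.log (p (J k)) := Real.log_pos hpn0
    have hlogX : Real.log (p (J k)) ≤ γ * L := by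
      have := Real.log_le_log (by linarith) hpX
      rw [Real.log_rpow hn0, ← hL] at this
      exact this
    have h2 : (r : ℝ) ≤ (((Ioc (p (J k)) (p (J k) + H)).filter Nat.Prime).card : ℝ) := by
      refine hrle.trans (le_trans ?_ h1)
      calc c * H / L ≤ η / γ * H / L := by gcongr
        _ = η * H / (γ * L) := by field_simp
        _ ≤ η * H / Real.log (p (J k)) :=
            div_le_div_of_nonneg_left (by positivity) hlogX0 hlogX
    exact_mod_cast h2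
  have hcardI : (Icc 1 K).card = K := by rw [Nat.card_Icc, Nat.add_sub_cancel]
  set P : ℝ := C * (2 * s) * (H / (θ / 2 * L) ^ 2) with hP
  have hP0 : 0 ≤ P := by positivity
  have hper := perJ J K H r (Icc 1 K) (Subset.refl _)
    (fun k hk => (by omega : 1 ≤ n).trans (hJ1 k (mem_Icc.1 hk).1)) hgap P hP0 (by
    intro k hk k' hk' hkk
    rw [mem_Icc] at hk hk'
    have hlt : p (J k) < p (J k') :=
      p_lt ((by omega : 1 ≤ n).trans (hJ1 k hk.1)) (hJ3 k k' hk.1 hkk)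
    have hpw' : p (J k') < 2 ^ w := lt_of_le_of_lt (p_mono (hJ2 k' hk'.1 hk'.2)) hpw
    refine (hpair _ _ H w hlt hu0 hw3 hpw').trans ?_
    have hlw0 : 0 ≤ Real.log w := Real.log_natCast_nonneg _
    rw [hP]
    gcongr)
  rw [hcardI] at hper
  have hr0 : (0 : ℝ) < r := by exact_mod_cast hr1
  have hg := alg hC hθ hL0 (by linarith : 1 ≤ s) hc0 hc1 (by linarith : (0 : ℝ) < H)
    (Nat.cast_nonneg _) (by linarith : L / 4 ≤ (K : ℝ)) hKL hrge hr0 hP hper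
  set D : ℝ := 1 + 16 * C / θ ^ 2 with hD
  have hD0 : 0 < D := by positivity
  set u : ℝ := ((UJ J K H).card : ℝ) with hu
  have h1 : c ^ 2 * ((n : ℝ) ^ θ / 2) ≤ 8 * D * s * u :=
    (mul_le_mul_of_nonneg_left hHge (by positivity)).trans hg
  have e1 : c ^ 2 / (16 * D) * ((n : ℝ) ^ θ / s) = (c ^ 2 * ((n : ℝ) ^ θ / 2)) / (8 * D * s) := by
    field_simp
    ring
  rw [e1, div_le_iff₀ (by positivity)]
  linarith

open Classical in
/-- the shifts `h ≤ n ^ θ` for which `p_{k²n} + h` is prime for some `k ≤ log n` -/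
noncomputable def V2 (n : ℕ) (θ : ℝ) : Finset ℕ :=
  (Icc 1 ⌊(n : ℝ) ^ θ⌋₊).filter (fun h => ∃ k : ℕ, 1 ≤ k ∧ (k : ℝ) ≤ Real.log n ∧ (p (k ^ 2 * n) + h).Prime)

lemma UJ_sub1 (n : ℕ) (θ : ℝ) (hn : 1 ≤ n) : UJ (fun k => k * n) ⌊Real.log n⌋₊ ⌊(n : ℝ) ^ θ⌋₊ ⊆ V n θ := by
  classical
  intro h hh
  unfold UJ at hh
  rw [mem_filter] at hh
  obtain ⟨hh1, k, hk, hk2⟩ := hh
  rw [mem_Icc] at hk
  unfold V
  rw [mem_filter]
  exact ⟨hh1, k, hk.1, (Nat.le_floor_iff (Real.log_natCast_nonneg n)).1 hk.2, hk2⟩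

lemma UJ_sub2 (n : ℕ) (θ : ℝ) (hn : 1 ≤ n) : UJ (fun k => k ^ 2 * n) ⌊Real.log n⌋₊ ⌊(n : ℝ) ^ θ⌋₊ ⊆ V2 n θ := by
  classical
  intro h hh
  unfold UJ at hh
  rw [mem_filter] at hh
  obtain ⟨hh1, k, hk, hk2⟩ := hh
  rw [mem_Icc] at hk
  unfold V2
  rw [mem_filter]
  exact ⟨hh1, k, hk.1, (Nat.le_floor_iff (Real.log_natCast_nonneg n)).1 hk.2, hk2⟩

/-- **All large `n`, for `θ` near `1`.** -/
theorem mainAll : ∃ θ₀ : ℝ, θ₀ < 1 ∧ ∀ θ : ℝ, θ₀ < θ → θ ≤ 1 → ∃ c : ℝ, 0 < c ∧ ∃ n₀ : ℕ, ∀ n : ℕ, n₀ ≤ n →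
    c * ((n : ℝ) ^ θ / Real.log (Real.log n)) ≤ ((V n θ).card : ℝ) ∧
    c * ((n : ℝ) ^ θ / Real.log (Real.log n)) ≤ ((V2 n θ).card : ℝ) := by
  obtain ⟨δ, η, hδ, hδ1, hη, X₀, _, hHo⟩ := Pool.Agent.H295R3.D.hoheisel
  obtain ⟨C, hC, u0, hpair⟩ := pair2
  refine ⟨1 - δ, by linarith, fun θ hθ0 hθ1 => ?_⟩
  have hβ : 0 < 1 - δ := by linarith
  have hθ : 0 < θ := by linarith
  set β : ℝ := 1 - δ with hβd
  set γ : ℝ := (θ / β + 1) / 2 with hγd
  have hθβ : 1 < θ / β := by rw [lt_div_iff₀ hβ]; linarith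
  have hγ : 1 < γ := by rw [hγd]; linarith
  have hγβ : γ * β = (θ + β) / 2 := by
    rw [hγd]
    field_simp
  set c : ℝ := min (η / γ) 1 with hcd
  have hc0 : 0 < c := lt_min (by positivity) one_pos
  have hc1 : c ≤ 1 := min_le_right _ _
  have hcη : c ≤ η / γ := min_le_left _ _
  refine ⟨c ^ 2 / (16 * (1 + 16 * C / θ ^ 2)), by positivity, ?_⟩
  have tN : Tendsto (fun N : ℕ => (N : ℝ)) atTop atTop := tendsto_natCast_atTop_atTop
  have tL : Tendsto (fun N : ℕ => Real.log N) atTop atTop := Real.tendsto_log_atTop.comp tN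
  have ts : Tendsto (fun N : ℕ => Real.log (Real.log N)) atTop atTop := Real.tendsto_log_atTop.comp tL
  have g1 : ∀ᶠ n : ℕ in atTop, 9 ≤ Real.log n := tL.eventually_ge_atTop 9
  have g2 : ∀ᶠ n : ℕ in atTop, 3 ≤ Real.log (Real.log n) := ts.eventually_ge_atTop 3
  have g3 : ∀ᶠ n : ℕ in atTop, 2 ≤ (n : ℝ) ^ (θ / 2) :=
    ((tendsto_rpow_atTop (by linarith : 0 < θ / 2)).comp tN).eventually_ge_atTop _
  have g4 : ∀ᶠ n : ℕ in atTop, (u0 : ℝ) ≤ (n : ℝ) ^ (θ / 2) :=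
    ((tendsto_rpow_atTop (by linarith : 0 < θ / 2)).comp tN).eventually_ge_atTop _
  have g5 : ∀ᶠ n : ℕ in atTop, 4 * Real.log n ≤ c * (n : ℝ) ^ θ := by
    have h := (isLittleO_log_rpow_atTop hθ).bound (by positivity : (0 : ℝ) < c / 4)
    have h' := tN.eventually h
    filter_upwards [h', g1] with n hn hn9
    rw [Real.norm_of_nonneg (by linarith), Real.norm_of_nonneg (by positivity)] at hn
    linarith
  have g6 : ∀ γ' : ℝ, 1 < γ' → ∀ᶠ n : ℕ in atTop, 27 * (n : ℝ) * Real.log n ^ 3 ≤ (n : ℝ) ^ γ' := by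
    intro γ' hγ'
    have h := (isLittleO_log_rpow_rpow_atTop 3 (by linarith : 0 < γ' - 1)).bound
      (by norm_num : (0 : ℝ) < 1 / 27)
    have h' := tN.eventually h
    filter_upwards [h', g1, eventually_ge_atTop 1] with n hn hn9 hn1
    have hn0 : (0 : ℝ) < n := by exact_mod_cast hn1
    rw [Real.norm_of_nonneg (by positivity), Real.norm_of_nonneg (by positivity)] at hn
    have e1 : (n : ℝ) ^ γ' = n * (n : ℝ) ^ (γ' - 1) := by
      rw [Real.rpow_sub hn0, Real.rpow_one]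
      field_simp
    have e2 : Real.log n ^ (3 : ℝ) = Real.log n ^ 3 := by
      rw [← Real.rpow_natCast]
      norm_num
    rw [e2] at hn
    rw [e1]
    calc 27 * (n : ℝ) * Real.log n ^ 3 = n * (27 * Real.log n ^ 3) := by ring
      _ ≤ n * (n : ℝ) ^ (γ' - 1) := mul_le_mul_of_nonneg_left (by linarith) hn0.le
  have g7 : ∀ᶠ n : ℕ in atTop, 2 ≤ (n : ℝ) ^ (θ - γ * β) :=
    ((tendsto_rpow_atTop (by rw [hγβ]; linarith : 0 < θ - γ * β)).comp tN).eventually_ge_atTop _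
  rw [← eventually_atTop]
  filter_upwards [g1, g2, g3, g4, g5, g6 γ hγ, g6 5 (by norm_num), g7, eventually_ge_atTop 18,
    eventually_ge_atTop X₀] with n a1 a2 a3 a4 a5 a6 a6' a7 a8 a9
  have hnr : (18 : ℝ) ≤ n := by exact_mod_cast a8
  have hn0 : (0 : ℝ) < n := by linarith
  have hsq : (n : ℝ) ^ θ = (n : ℝ) ^ (θ / 2) * (n : ℝ) ^ (θ / 2) := by
    rw [← Real.rpow_add hn0, add_halves]
  have hp : 0 < (n : ℝ) ^ (θ / 2) := by positivity
  have b1 : 2 ≤ (n : ℝ) ^ θ := by rw [hsq]; nlinarith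
  have b2 : (n : ℝ) ^ (θ / 2) ≤ (n : ℝ) ^ θ / 2 := by rw [hsq]; nlinarith
  have b3 : 27 * (n : ℝ) * Real.log n ^ 3 ≤ (n : ℝ) ^ 5 := by
    have e2 : (n : ℝ) ^ (5 : ℝ) = (n : ℝ) ^ 5 := by
      rw [← Real.rpow_natCast]
      norm_num
    rw [e2] at a6'
    exact a6'
  have b4 : ((n : ℝ) ^ γ) ^ (1 - δ) ≤ (n : ℝ) ^ θ / 2 := by
    rw [← Real.rpow_mul hn0.le]
    have e1 : (n : ℝ) ^ θ = (n : ℝ) ^ (γ * β) * (n : ℝ) ^ (θ - γ * β) := by
      rw [← Real.rpow_add hn0]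
      congr 1
      ring
    have hq : 0 < (n : ℝ) ^ (γ * β) := by positivity
    rw [e1]
    nlinarith
  have hn1 : 1 ≤ n := by omega
  constructor
  · have h := one_n (J := fun k => k * n) hC hpair hδ1 hη hHo hθ hθ1 hγ.le hc0 hc1 hcη rfl rfl a1 a2 a8 a9
      b1 b2 a4 a5 (fun k hk => Nat.le_mul_of_pos_left n hk)
      (fun k hk hkL => by
        rw [mul_comm k n]
        apply Nat.mul_le_mul_left
        calc k ≤ ⌊Real.log n⌋₊ := hkL
          _ ≤ ⌊Real.log n⌋₊ ^ 2 := Nat.le_self_pow (by norm_num) _)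
      (fun k k' _ hkk => Nat.mul_lt_mul_of_pos_right hkk hn1) a6 b3 b4
    refine h.trans ?_
    exact_mod_cast card_le_card (UJ_sub1 n θ hn1)
  · have h := one_n (J := fun k => k ^ 2 * n) hC hpair hδ1 hη hHo hθ hθ1 hγ.le hc0 hc1 hcη rfl rfl a1 a2 a8 a9
      b1 b2 a4 a5 (fun k hk => Nat.le_mul_of_pos_left n (Nat.pow_pos hk))
      (fun k hk hkL => by
        rw [mul_comm (k ^ 2) n]
        exact Nat.mul_le_mul_left n (Nat.pow_le_pow_left hkL 2))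
      (fun k k' _ hkk => Nat.mul_lt_mul_of_pos_right (Nat.pow_lt_pow_left hkk (by norm_num)) hn1) a6 b3 b4
    refine h.trans ?_
    exact_mod_cast card_le_card (UJ_sub2 n θ hn1)

end Pool.Agent.Run7.h545.MG
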