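import Pool.Agent.Run7.h545.MG.FEWK

/-! # Many fixed shifts, by double counting -/

set_option autoImplicit false

namespace Pool.Agent.Run7.h545.MG

open Finset Filter Topology

open Classical in
/-- double counting for one `N` -/
lemma dc {N : ℕ} {θ b ε s : ℝ} (hθ : 0 < θ) (hθ1 : θ ≤ 1) (hb : 0 < b) (hε : 0 < ε) (hN : 4 ≤ N)
    (hs : s = Real.log (Real.log N)) (hs1 : 1 ≤ s) (hs16 : 16 ≤ s ^ (ε / 2))
    (hll : ∀ n : ℕ, N < 2 * n → 0 < Real.log (Real.log n))
    (h : (((Icc 1 N).filter (fun n : ℕ => ((V n θ).card : ℝ) <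
        (n : ℝ) ^ θ / Real.log (Real.log n) ^ (b + ε / 2))).card : ℝ) ≤ 1 / 4 * N) :
    (N : ℝ) ^ θ / s ^ (b + ε) ≤ (((Icc 1 ⌊(N : ℝ) ^ θ⌋₊).filter (fun h : ℕ =>
      N / s ^ (b + ε) ≤ (((Icc 1 N).filter (fun n : ℕ => h ∈ V n θ)).card : ℝ))).card : ℝ) := by
  set B := (Icc 1 N).filter (fun n : ℕ => ((V n θ).card : ℝ) <
        (n : ℝ) ^ θ / Real.log (Real.log n) ^ (b + ε / 2)) with hB
  set M := ⌊(N : ℝ) ^ θ⌋₊ with hM
  set A : ℕ → ℝ := fun h => (((Icc 1 N).filter (fun n : ℕ => h ∈ V n θ)).card : ℝ) with hA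
  set HH := (Icc 1 M).filter (fun h : ℕ => N / s ^ (b + ε) ≤ A h) with hHH
  have hNr : (4 : ℝ) ≤ N := by exact_mod_cast hN
  have hN0 : (0 : ℝ) < N := by linarith
  have hs0 : 0 < s := by linarith
  have hNθ : 0 < (N : ℝ) ^ θ := by positivity
  have hsb : 0 < s ^ (b + ε) := by positivity
  have hsb2 : 0 < s ^ (b + ε / 2) := by positivity
  set I := (Ioc (N / 2) N) \ B with hI
  have hIc : (N : ℝ) / 4 ≤ I.card := by
    have h1 : (Ioc (N / 2) N).card ≤ I.card + B.card := by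
      rw [hI]
      have := le_card_sdiff B (Ioc (N / 2) N)
      omega
    rw [Nat.card_Ioc] at h1
    have h2 : N ≤ 2 * (I.card + B.card) := by omega
    have h3 : (N : ℝ) ≤ 2 * (I.card + B.card) := by exact_mod_cast h2
    linarith
  have hIV : ∀ n ∈ I, (N : ℝ) ^ θ / 2 / s ^ (b + ε / 2) ≤ ((V n θ).card : ℝ) := by
    intro n hn
    rw [hI, Finset.mem_sdiff, mem_Ioc] at hn
    obtain ⟨⟨h1, h2⟩, h3⟩ := hn
    have hn2 : N < 2 * n := by omega
    have hn2r : (N : ℝ) ≤ 2 * n := by exact_mod_cast hn2.le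
    have hnNr : (n : ℝ) ≤ N := by exact_mod_cast h2
    have hn0 : (0 : ℝ) < n := by linarith
    have h4 : (n : ℝ) ^ θ / Real.log (Real.log n) ^ (b + ε / 2) ≤ ((V n θ).card : ℝ) := by
      by_contra hcon
      push Not at hcon
      apply h3
      rw [hB, mem_filter, mem_Icc]
      exact ⟨⟨by omega, h2⟩, hcon⟩
    refine le_trans ?_ h4
    have hlln := hll n hn2
    have hln : 0 < Real.log n := Real.log_pos (by linarith)
    apply div_le_div₀ (by positivity) _ (by positivity)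
    · apply Real.rpow_le_rpow hlln.le _ (by positivity)
      rw [hs]
      exact Real.log_le_log hln (Real.log_le_log hn0 hnNr)
    · have e1 : (N : ℝ) ^ θ ≤ (2 * n : ℝ) ^ θ := Real.rpow_le_rpow hN0.le hn2r hθ.le
      rw [Real.mul_rpow (by norm_num) hn0.le] at e1
      have e2 : (2 : ℝ) ^ θ ≤ 2 := by
        calc (2 : ℝ) ^ θ ≤ (2 : ℝ) ^ (1 : ℝ) := Real.rpow_le_rpow_of_exponent_le (by norm_num) hθ1
          _ = 2 := Real.rpow_one _
      have e3 : (2 : ℝ) ^ θ * (n : ℝ) ^ θ ≤ 2 * (n : ℝ) ^ θ :=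
        mul_le_mul_of_nonneg_right e2 (by positivity)
      linarith
  have hVsub : ∀ n ∈ Icc 1 N, V n θ = (Icc 1 M).filter (fun h => h ∈ V n θ) := by
    intro n hn
    rw [mem_Icc] at hn
    have hnNr : (n : ℝ) ≤ N := by exact_mod_cast hn.2
    ext x
    rw [mem_filter]
    constructor
    · intro hx
      refine ⟨?_, hx⟩
      unfold V at hx
      rw [mem_filter, mem_Icc] at hx
      rw [mem_Icc]
      refine ⟨hx.1.1, hx.1.2.trans ?_⟩
      apply Nat.floor_le_floor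
      exact Real.rpow_le_rpow (Nat.cast_nonneg n) hnNr hθ.le
    · exact fun hx => hx.2
  have hsum : ∑ n ∈ Icc 1 N, ((V n θ).card : ℝ) = ∑ x ∈ Icc 1 M, A x := by
    have h1 : ∑ n ∈ Icc 1 N, ((V n θ).card : ℝ) =
        ∑ n ∈ Icc 1 N, ∑ x ∈ Icc 1 M, (if x ∈ V n θ then (1 : ℝ) else 0) := by
      apply sum_congr rfl
      intro n hn
      rw [sum_boole, ← hVsub n hn]
    rw [h1, sum_comm]
    apply sum_congr rfl
    intro x _
    rw [hA, sum_boole]
  have hlow : (N : ℝ) / 4 * ((N : ℝ) ^ θ / 2 / s ^ (b + ε / 2)) ≤ ∑ x ∈ Icc 1 M, A x := by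
    rw [← hsum]
    calc (N : ℝ) / 4 * ((N : ℝ) ^ θ / 2 / s ^ (b + ε / 2))
        ≤ I.card * ((N : ℝ) ^ θ / 2 / s ^ (b + ε / 2)) :=
          mul_le_mul_of_nonneg_right hIc (by positivity)
      _ = ∑ _n ∈ I, (N : ℝ) ^ θ / 2 / s ^ (b + ε / 2) := by rw [sum_const, nsmul_eq_mul]
      _ ≤ ∑ n ∈ I, ((V n θ).card : ℝ) := sum_le_sum hIV
      _ ≤ _ := by
          apply sum_le_sum_of_subset_of_nonneg
          · intro n hn
            rw [hI, Finset.mem_sdiff, mem_Ioc] at hn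
            rw [mem_Icc]
            omega
          · intro _ _ _
            exact Nat.cast_nonneg _
  have hA_le : ∀ x, A x ≤ N := by
    intro x
    have h1 := card_filter_le (Icc 1 N) (fun n : ℕ => x ∈ V n θ)
    rw [Nat.card_Icc, Nat.add_sub_cancel] at h1
    have h2 : A x = (((Icc 1 N).filter (fun n : ℕ => x ∈ V n θ)).card : ℝ) := rfl
    rw [h2]
    exact_mod_cast h1
  have hup : ∑ x ∈ Icc 1 M, A x ≤ HH.card * N + (N : ℝ) ^ θ * (N / s ^ (b + ε)) := by
    calc ∑ x ∈ Icc 1 M, A x ≤ ∑ x ∈ Icc 1 M, ((if N / s ^ (b + ε) ≤ A x then (N : ℝ) else 0) +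
          N / s ^ (b + ε)) := by
          apply sum_le_sum
          intro x _
          have h0 : 0 ≤ (N : ℝ) / s ^ (b + ε) := by positivity
          by_cases hx : N / s ^ (b + ε) ≤ A x
          · rw [if_pos hx]
            have := hA_le x
            linarith
          · rw [if_neg hx]
            push Not at hx
            linarith
      _ = HH.card * N + M * (N / s ^ (b + ε)) := by
          rw [sum_add_distrib, ← sum_filter, sum_const, sum_const, nsmul_eq_mul, nsmul_eq_mul,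
            Nat.card_Icc, Nat.add_sub_cancel]
      _ ≤ _ := by
          have : (M : ℝ) ≤ (N : ℝ) ^ θ := Nat.floor_le hNθ.le
          have h0 : 0 ≤ (N : ℝ) / s ^ (b + ε) := by positivity
          have := mul_le_mul_of_nonneg_right this h0
          linarith
  have hmain := hlow.trans hup
  have e1 : s ^ (b + ε) = s ^ (b + ε / 2) * s ^ (ε / 2) := by
    rw [← Real.rpow_add hs0]
    congr 1
    ring
  have hse : 0 < s ^ (ε / 2) := by positivity
  -- multiply out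
  have h5 : (N : ℝ) / 4 * ((N : ℝ) ^ θ / 2 / s ^ (b + ε / 2)) =
      N * ((N : ℝ) ^ θ / s ^ (b + ε) * (s ^ (ε / 2) / 8)) := by
    rw [e1]
    field_simp
    ring
  have h6 : (N : ℝ) ^ θ / s ^ (b + ε) * 2 ≤ (N : ℝ) ^ θ / s ^ (b + ε) * (s ^ (ε / 2) / 8) := by
    apply mul_le_mul_of_nonneg_left _ (by positivity)
    linarith
  rw [h5] at hmain
  have h7 : N * ((N : ℝ) ^ θ / s ^ (b + ε) * 2) ≤ N * (HH.card + (N : ℝ) ^ θ / s ^ (b + ε)) := by
    refine (mul_le_mul_of_nonneg_left h6 hN0.le).trans (hmain.trans (le_of_eq ?_))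
    field_simp
  have h8 := le_of_mul_le_mul_left h7 hN0
  linarith

open Classical in
theorem mainH {a : ℝ} (ha0 : 0 < a) (ha1 : a ≤ 1) (hfew : Few a)
    (θ ε : ℝ) (hθ : 0 < θ) (hθ1 : θ ≤ 1) (hε : 0 < ε) :
    ∃ N₀ : ℕ, ∀ N : ℕ, N₀ ≤ N →
      (N : ℝ) ^ θ / Real.log (Real.log N) ^ (1 + 2 * a + ε) ≤
        (((Icc 1 ⌊(N : ℝ) ^ θ⌋₊).filter (fun h : ℕ => N / Real.log (Real.log N) ^ (1 + 2 * a + ε) ≤
          (((Icc 1 N).filter (fun n : ℕ => h ∈ V n θ)).card : ℝ))).card : ℝ) := by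
  obtain ⟨N₁, hN₁⟩ := mainB ha0 ha1 hfew θ (ε / 2) (1 / 4) hθ hθ1 (by positivity) (by norm_num)
  have tN : Tendsto (fun N : ℕ => (N : ℝ)) atTop atTop := tendsto_natCast_atTop_atTop
  have tL : Tendsto (fun N : ℕ => Real.log N) atTop atTop := Real.tendsto_log_atTop.comp tN
  have ts : Tendsto (fun N : ℕ => Real.log (Real.log N)) atTop atTop := Real.tendsto_log_atTop.comp tL
  have g2 : ∀ᶠ N : ℕ in atTop, 1 ≤ Real.log (Real.log N) := ts.eventually_ge_atTop 1
  have g3 : ∀ᶠ N : ℕ in atTop, 16 ≤ (Real.log (Real.log N)) ^ (ε / 2) :=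
    ((tendsto_rpow_atTop (by positivity : 0 < ε / 2)).comp ts).eventually_ge_atTop _
  rw [← eventually_atTop]
  filter_upwards [g2, g3, eventually_ge_atTop N₁, eventually_ge_atTop 6] with N a2 a3 a4 a5
  apply dc hθ hθ1 (by positivity : 0 < 1 + 2 * a) hε (by omega) rfl a2 a3 _ (hN₁ N a4)
  intro n hn
  have hn3 : (4 : ℝ) ≤ n := by
    have : 4 ≤ n := by omega
    exact_mod_cast this
  apply Real.log_pos
  rw [← Real.log_exp 1]
  apply Real.log_lt_log (Real.exp_pos 1)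
  have := Real.exp_one_lt_d9
  linarith

end Pool.Agent.Run7.h545.MG
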