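import Pool.Agent.Run7.h545.MG.FIN

/-! # Many shifts `h` with `p_{kn} + h` prime for some `k ≤ log n`: the asymptotics -/

set_option autoImplicit false

namespace Pool.Agent.Run7.h545.MG

open Finset Filter Topology

/-- the set of the bad `n` for one `N` -/
lemma core {C : ℝ} (hC : 0 < C) {u0 : ℕ}
    (hpair : ∀ a b H w : ℕ, a < b → u0 ≤ H → 3 ≤ w → b < 2 ^ w →
    (((Icc 1 H).filter (fun h => (a + h).Prime ∧ (b + h).Prime)).card : ℝ) ≤
      C * Real.log w * (H / Real.log H ^ 2))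
    {θ ε η κ a : ℝ} (hθ : 0 < θ) (hθ1 : θ ≤ 1) (hε : 0 < ε) (hη : 0 < η) (hη1 : η ≤ 1)
    (ha0 : 0 < a) (ha1 : a ≤ 1)
    {N : ℕ} {L s c : ℝ} (hL : L = Real.log N) (hs : s = Real.log L) (hc : c = s ^ (-(a + ε / 4)))
    (hL9 : 9 ≤ L) (hs3 : 3 ≤ s)
    (f2 : ∀ E : Finset ℕ, (E.card : ℝ) ≤ 54 * c * (N * ⌊Real.log (η * N)⌋₊) →
      (((Icc 1 N ×ˢ Icc 1 ⌊Real.log (η * N)⌋₊).filter (fun x : ℕ × ℕ => x.1 * x.2 ∈ E)).card : ℝ) ≤
        κ * (N * ⌊Real.log (η * N)⌋₊))
    (f3 : 2 * (1 - Real.log η) ≤ L)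
    (f4 : 2 ≤ (η * N) ^ θ) (f4' : (N : ℝ) ^ (θ / 2) ≤ (η * N) ^ θ / 2) (f4'' : (u0 : ℝ) ≤ (N : ℝ) ^ (θ / 2))
    (f5 : 2 * L ^ (2 + ε / 4) ≤ (N : ℝ) ^ (θ / 2))
    (f6 : p (N * ⌊Real.log (η * N)⌋₊) < 2 ^ (⌊8 * L⌋₊ + 1))
    (f9 : 2 ^ (1 + 2 * a + ε) * 16 * (1 + 16 * C / θ ^ 2) / η ^ θ ≤ s ^ (ε / 2)) :
    (((Icc 1 N).filter (fun n : ℕ => ((V n θ).card : ℝ) <
      (n : ℝ) ^ θ / Real.log (Real.log n) ^ (1 + 2 * a + ε))).card : ℝ) ≤ (η + 2 * κ) * N := by
  classical
  have hN0 : N ≠ 0 := by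
    rintro rfl
    rw [Nat.cast_zero, Real.log_zero] at hL
    linarith
  have hNpos : (0 : ℝ) < N := by exact_mod_cast Nat.pos_of_ne_zero hN0
  have hLN : L ≤ N := by
    rw [hL]
    have := Real.log_le_sub_one_of_pos hNpos
    linarith
  have hN9 : (9 : ℝ) ≤ N := hL9.trans hLN
  have hN6 : 6 ≤ N := by
    have : (6 : ℝ) ≤ N := by linarith
    exact_mod_cast this
  have hL0 : 0 < L := by linarith
  have hs0 : 0 < s := by linarith
  have hsL : s ≤ L := by
    rw [hs]
    have := Real.log_le_sub_one_of_pos hL0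
    linarith
  have hηN : 0 < η * N := by positivity
  have hc0 : 0 < c := by rw [hc]; positivity
  have hc1 : c ≤ 1 := by
    rw [hc]
    exact Real.rpow_le_one_of_one_le_of_nonpos (by linarith) (by linarith)
  set K := ⌊Real.log (η * N)⌋₊ with hK
  set H := ⌊(η * N) ^ θ⌋₊ with hH
  set r := ⌊c * H / L⌋₊ with hr
  set w := ⌊8 * L⌋₊ + 1 with hw
  have hlog : Real.log (η * N) = Real.log η + L := by
    rw [Real.log_mul hη.ne' hNpos.ne', hL]
  have hlogη : Real.log η ≤ 0 := Real.log_nonpos hη.le hη1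
  have hlog0 : 0 ≤ Real.log (η * N) := by rw [hlog]; linarith
  have hKle : (K : ℝ) ≤ Real.log (η * N) := Nat.floor_le hlog0
  have hKL : (K : ℝ) ≤ L := by rw [hlog] at hKle; linarith
  have hKge : L / 2 ≤ K := by
    have := Nat.lt_floor_add_one (Real.log (η * N))
    rw [← hK, hlog] at this
    linarith
  have hK1 : 1 ≤ K := by
    have : (1 : ℝ) ≤ K := by linarith
    exact_mod_cast this
  have hKN : K ≤ N := by
    have : (K : ℝ) ≤ N := by linarith
    exact_mod_cast this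
  have hH0 : 0 ≤ (η * N) ^ θ := by positivity
  have hHle : (H : ℝ) ≤ (η * N) ^ θ := Nat.floor_le hH0
  have hHge : (η * N) ^ θ / 2 ≤ H := by
    have := Nat.lt_floor_add_one ((η * N) ^ θ)
    rw [← hH] at this
    linarith
  have hHge' : (N : ℝ) ^ (θ / 2) ≤ H := f4'.trans hHge
  have hH1 : 1 ≤ H := by
    have : (1 : ℝ) ≤ H := by linarith
    exact_mod_cast this
  have hHr : (1 : ℝ) ≤ H := by exact_mod_cast hH1
  have hHN : H ≤ N := by
    have h1 : (η * N) ^ θ ≤ (N : ℝ) := by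
      calc (η * N) ^ θ ≤ (N : ℝ) ^ θ := by
            apply Real.rpow_le_rpow hηN.le _ hθ.le
            nlinarith
        _ ≤ (N : ℝ) ^ (1 : ℝ) := Real.rpow_le_rpow_of_exponent_le (by linarith) hθ1
        _ = N := Real.rpow_one _
    have : (H : ℝ) ≤ N := hHle.trans h1
    exact_mod_cast this
  have hu0 : u0 ≤ H := by
    have : (u0 : ℝ) ≤ H := f4''.trans hHge'
    exact_mod_cast this
  have hlH : θ / 2 * L ≤ Real.log H := by
    have := Real.log_le_log (by positivity) hHge'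
    rw [Real.log_rpow hNpos, ← hL] at this
    exact this
  -- the size of `c H / L`
  have hcHL : 2 ≤ c * H / L := by
    rw [le_div_iff₀ hL0]
    have h1 : c * L ^ (1 + ε / 4) ≥ 1 := by
      rw [hc]
      calc (1 : ℝ) = s ^ (-(a + ε / 4)) * s ^ (a + ε / 4) := by
            rw [← Real.rpow_add hs0]; simp
        _ ≤ s ^ (-(a + ε / 4)) * L ^ (1 + ε / 4) := by
            apply mul_le_mul_of_nonneg_left _ (by positivity)
            exact (Real.rpow_le_rpow hs0.le hsL (by linarith)).trans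
              (Real.rpow_le_rpow_of_exponent_le (by linarith) (by linarith))
    have h2 : L ^ (2 + ε / 4) = L * L ^ (1 + ε / 4) := by
      rw [show (2 : ℝ) + ε / 4 = 1 + (1 + ε / 4) by ring, Real.rpow_add hL0, Real.rpow_one]
    have h3 : 2 * (L * L ^ (1 + ε / 4)) ≤ H := by
      rw [← h2]
      exact f5.trans hHge'
    calc 2 * L = 2 * L * 1 := by ring
      _ ≤ 2 * L * (c * L ^ (1 + ε / 4)) := mul_le_mul_of_nonneg_left h1 (by positivity)
      _ = c * (2 * (L * L ^ (1 + ε / 4))) := by ring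
      _ ≤ c * H := mul_le_mul_of_nonneg_left h3 hc0.le
  have hrle : (r : ℝ) ≤ c * H / L := Nat.floor_le (by positivity)
  have hrge : c * H / (2 * L) ≤ r := by
    have h1 := Nat.lt_floor_add_one (c * H / L)
    rw [← hr] at h1
    have h2 : c * H / (2 * L) = (c * H / L) / 2 := by field_simp
    rw [h2]
    linarith
  have hr1 : 1 ≤ r := by
    have h2 : c * H / (2 * L) = (c * H / L) / 2 := by field_simp
    have : (1 : ℝ) ≤ r := by rw [h2] at hrge; linarith
    exact_mod_cast this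
  -- the exponent `w`
  have hwle : (w : ℝ) ≤ 9 * L := by
    have h1 : ((⌊8 * L⌋₊ : ℕ) : ℝ) ≤ 8 * L := Nat.floor_le (by positivity)
    rw [hw]
    push_cast
    linarith
  have hw3 : 3 ≤ w := by
    have h1 : 2 ≤ ⌊8 * L⌋₊ := Nat.le_floor (by push_cast; linarith)
    omega
  have hlw : Real.log w ≤ 2 * s := by
    have hw0 : (0 : ℝ) < w := by
      have : (3 : ℝ) ≤ w := by exact_mod_cast hw3
      linarith
    have h1 : (w : ℝ) ≤ L ^ 2 := by nlinarith
    have h2 := Real.log_le_log hw0 h1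
    rw [Real.log_pow, ← hs] at h2
    have e2 : ((2 : ℕ) : ℝ) = 2 := by norm_num
    rw [e2] at h2
    exact h2
  -- the exceptional indices
  set E := (Icc 1 (N * K)).filter (fun j => (H : ℝ) < (p (j + r) : ℝ) - p j) with hE
  have hEc : (E.card : ℝ) ≤ 54 * c * (N * K) :=
    card_E hN6 hK1 hKN hL (by linarith) hH1 hHN hc0 hc1 hrle
  have hBc := card_B (N := N) (K := K) E hK1 (f2 E hEc)
  set B := (Icc 1 N).filter (fun n => K < 2 * ((Icc 1 K).filter (fun k => n * k ∈ E)).card) with hB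
  -- the small `n`
  set A := Icc 1 ⌊η * N⌋₊ with hA
  have hAc : (A.card : ℝ) ≤ η * N := by
    rw [hA, Nat.card_Icc, Nat.add_sub_cancel]
    exact Nat.floor_le hηN.le
  have hsub : (Icc 1 N).filter (fun n : ℕ => ((V n θ).card : ℝ) <
      (n : ℝ) ^ θ / Real.log (Real.log n) ^ (1 + 2 * a + ε)) ⊆ A ∪ B := by
    intro n hn
    rw [mem_filter, mem_Icc] at hn
    obtain ⟨⟨hn1, hnN⟩, hn2⟩ := hn
    by_contra hcon
    rw [mem_union, not_or] at hcon
    obtain ⟨hnA, hnB⟩ := hcon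
    have hnη : η * N < n := by
      by_contra h
      push Not at h
      apply hnA
      rw [hA, mem_Icc]
      exact ⟨hn1, Nat.le_floor h⟩
    have hnB' : ¬ K < 2 * ((Icc 1 K).filter (fun k => n * k ∈ E)).card := by
      intro h
      apply hnB
      rw [hB, mem_filter, mem_Icc]
      exact ⟨⟨hn1, hnN⟩, h⟩
    have hnpos : (0 : ℝ) < n := hηN.trans hnη
    have hnNr : (n : ℝ) ≤ N := by exact_mod_cast hnN
    have hg := good_n hC hpair hθ (by linarith : (1 : ℝ) ≤ L) (by linarith : (1 : ℝ) ≤ s) hc0 hc1 hKge hKL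
      hu0 hH1 hlH hrge hr1 hw3 f6 hlw hn1 hnN hnB'
    -- `U ⊆ V`
    have hUV : U n K H ⊆ V n θ := by
      intro h hh
      unfold U at hh
      rw [mem_filter, mem_Icc] at hh
      obtain ⟨⟨hh1, hh2⟩, k, hk, hk2⟩ := hh
      rw [mem_Icc] at hk
      unfold V
      rw [mem_filter, mem_Icc]
      refine ⟨⟨hh1, hh2.trans ?_⟩, k, hk.1, ?_, hk2⟩
      · rw [hH]
        apply Nat.floor_le_floor
        exact Real.rpow_le_rpow hηN.le hnη.le hθ.le
      · calc (k : ℝ) ≤ K := by exact_mod_cast hk.2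
          _ ≤ Real.log (η * N) := hKle
          _ ≤ Real.log n := Real.log_le_log hηN hnη.le
    have hUVc : ((U n K H).card : ℝ) ≤ (V n θ).card := by exact_mod_cast card_le_card hUV
    -- the size of `log log n`
    have hll : s / 2 ≤ Real.log (Real.log n) := by
      have h1 : L / 2 ≤ Real.log n := by
        have h2 : Real.log (η * N) ≤ Real.log n := Real.log_le_log hηN hnη.le
        rw [hlog] at h2
        linarith
      have h2 : Real.log (L / 2) ≤ Real.log (Real.log n) := Real.log_le_log (by linarith) h1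
      rw [Real.log_div hL0.ne' (by norm_num), ← hs] at h2
      have h3 := Real.log_two_lt_d9
      linarith
    have hlls : (s / 2) ^ (1 + 2 * a + ε) ≤ Real.log (Real.log n) ^ (1 + 2 * a + ε) :=
      Real.rpow_le_rpow (by linarith) hll (by linarith)
    have hC5 : 0 < 1 + 16 * C / θ ^ 2 := by positivity
    -- the upper bound for the target
    have t1 : (n : ℝ) ^ θ / Real.log (Real.log n) ^ (1 + 2 * a + ε) ≤ (N : ℝ) ^ θ / (s / 2) ^ (1 + 2 * a + ε) := by
      apply div_le_div₀ (by positivity) (Real.rpow_le_rpow hnpos.le hnNr hθ.le) (by positivity) hlls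
    -- the lower bound for `U`
    have t2 : c ^ 2 * H / (8 * (1 + 16 * C / θ ^ 2) * s) ≤ (U n K H).card := by
      rw [div_le_iff₀ (by positivity)]
      linarith
    have t3 : (N : ℝ) ^ θ / (s / 2) ^ (1 + 2 * a + ε) ≤ c ^ 2 * H / (8 * (1 + 16 * C / θ ^ 2) * s) := by
      have e1 : (s / 2) ^ (1 + 2 * a + ε) = s ^ (1 + 2 * a + ε) / 2 ^ (1 + 2 * a + ε) :=
        Real.div_rpow hs0.le (by norm_num) _
      have e2 : c ^ 2 / s = s ^ (-(1 + 2 * a + ε / 2)) := by
        have e0 : c ^ 2 = s ^ (-(2 * a + ε / 2)) := by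
          rw [hc, ← Real.rpow_natCast, ← Real.rpow_mul hs0.le]
          congr 1
          push_cast
          ring
        rw [e0]
        nth_rewrite 2 [← Real.rpow_one s]
        rw [← Real.rpow_sub hs0]
        congr 1
        ring
      have e3 : s ^ (1 + 2 * a + ε) * s ^ (-(1 + 2 * a + ε / 2)) = s ^ (ε / 2) := by
        rw [← Real.rpow_add hs0]
        congr 1
        ring
      have e4 : (η * (N : ℝ)) ^ θ = η ^ θ * (N : ℝ) ^ θ := Real.mul_rpow hη.le hNpos.le
      have hηθ : 0 < η ^ θ := by positivity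
      have hNθ : 0 < (N : ℝ) ^ θ := by positivity
      have hs4 : 0 < s ^ (1 + 2 * a + ε) := by positivity
      have hD : 0 < 8 * (1 + 16 * C / θ ^ 2) := by positivity
      have e5 : c ^ 2 * H / (8 * (1 + 16 * C / θ ^ 2) * s) =
          s ^ (-(1 + 2 * a + ε / 2)) * H / (8 * (1 + 16 * C / θ ^ 2)) := by
        rw [← e2]
        field_simp
      rw [e1, e5, div_div_eq_mul_div, div_le_div_iff₀ hs4 hD]
      -- the main inequality
      have e6 : s ^ (-(1 + 2 * a + ε / 2)) * H * s ^ (1 + 2 * a + ε) = s ^ (ε / 2) * H := by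
        rw [← e3]; ring
      rw [e6]
      have e7 : 2 ^ (1 + 2 * a + ε) * 16 * (1 + 16 * C / θ ^ 2) ≤ s ^ (ε / 2) * η ^ θ := by
        rwa [div_le_iff₀ hηθ] at f9
      calc (N : ℝ) ^ θ * 2 ^ (1 + 2 * a + ε) * (8 * (1 + 16 * C / θ ^ 2))
          = (2 ^ (1 + 2 * a + ε) * 16 * (1 + 16 * C / θ ^ 2)) * ((N : ℝ) ^ θ / 2) := by ring
        _ ≤ (s ^ (ε / 2) * η ^ θ) * ((N : ℝ) ^ θ / 2) :=
            mul_le_mul_of_nonneg_right e7 (by positivity)
        _ = s ^ (ε / 2) * ((η * (N : ℝ)) ^ θ / 2) := by rw [e4]; ring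
        _ ≤ s ^ (ε / 2) * H := mul_le_mul_of_nonneg_left hHge (by positivity)
    have := t1.trans (t3.trans (t2.trans hUVc))
    linarith
  calc (((Icc 1 N).filter (fun n : ℕ => ((V n θ).card : ℝ) <
      (n : ℝ) ^ θ / Real.log (Real.log n) ^ (1 + 2 * a + ε))).card : ℝ) ≤ ((A ∪ B).card : ℝ) := by
        exact_mod_cast card_le_card hsub
    _ ≤ (A.card : ℝ) + B.card := by exact_mod_cast card_union_le A B
    _ ≤ η * N + 2 * κ * N := add_le_add hAc hBc
    _ = _ := by ring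

end Pool.Agent.Run7.h545.MG
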