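import Pool.Agent.Helper256.KM.WU
import Pool.Agent.Helper256.KM.E1

/-! # The sum of `2 ^ (-Ω(m))` over `m ≤ x` (after `Pool.Agent.H495R3.NA.TaskRK`) -/

set_option autoImplicit false

namespace Pool.Agent.Run7.h545.MG

open Finset
open ArithmeticFunction (cardFactors)
open Pool.Agent.Helper256.KM (wuP wu_total mertens_inv)

/-- the weight `2 ^ (-Ω(m))` -/
noncomputable def f (m : ℕ) : ℝ := (1 / 2 : ℝ) ^ (cardFactors m)

lemma f_pos (m : ℕ) : 0 < f m := by unfold f; positivity

lemma f_le_one (m : ℕ) : f m ≤ 1 := pow_le_one₀ (by norm_num) (by norm_num)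

lemma f_mul {m n : ℕ} (hm : m ≠ 0) (hn : n ≠ 0) : f (m * n) = f m * f n := by
  unfold f; rw [ArithmeticFunction.cardFactors_mul hm hn, pow_add]

/-- the sum of the weight -/
noncomputable def F (x : ℕ) : ℝ := ∑ m ∈ Icc 1 x, f m

lemma F_nonneg (x : ℕ) : 0 ≤ F x := sum_nonneg fun m _ => (f_pos m).le

lemma F_le (x : ℕ) : F x ≤ x := by
  unfold F
  calc ∑ m ∈ Icc 1 x, f m ≤ ∑ _m ∈ Icc 1 x, (1 : ℝ) := sum_le_sum fun m _ => f_le_one m
    _ = x := by simp

/-- the sum with the logarithm -/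
lemma sum_log (Y : ℕ) : ∑ m ∈ Icc 1 Y, f m * Real.log m ≤
    (Real.log 4 + 4) * Y * ∑ m ∈ Icc 1 Y, f m / m := by
  have h1 : ∀ m ∈ Icc 1 Y, f m * Real.log m ≤
      ∑ n ∈ m.divisors, ArithmeticFunction.vonMangoldt (m / n) * f n := by
    intro m hm
    have hm0 : m ≠ 0 := by have := (Finset.mem_Icc.mp hm).1; omega
    rw [← ArithmeticFunction.vonMangoldt_sum, ← Nat.sum_div_divisors, Finset.mul_sum]
    refine Finset.sum_le_sum fun n hn => ?_
    have hnm := Nat.dvd_of_mem_divisors hn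
    have hn0 : n ≠ 0 := fun h => hm0 (by rw [h] at hnm; exact Nat.eq_zero_of_zero_dvd hnm)
    have hd0 : m / n ≠ 0 := (Nat.div_pos (Nat.le_of_dvd (Nat.pos_of_ne_zero hm0) hnm)
      (Nat.pos_of_ne_zero hn0)).ne'
    have h2 : f m ≤ f n := by
      have h4 : f m = f (m / n) * f n := by
        rw [← f_mul hd0 hn0, Nat.div_mul_cancel hnm]
      rw [h4]
      exact mul_le_of_le_one_left (f_pos n).le (f_le_one _)
    have h3 : 0 ≤ ArithmeticFunction.vonMangoldt (m / n) :=
      ArithmeticFunction.vonMangoldt_nonneg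
    rw [mul_comm]
    exact mul_le_mul_of_nonneg_left h2 h3
  refine (Finset.sum_le_sum h1).trans ?_
  have h2 : ∑ m ∈ Icc 1 Y, ∑ n ∈ m.divisors,
      ArithmeticFunction.vonMangoldt (m / n) * f n =
      ∑ n ∈ Icc 1 Y, ∑ m ∈ (Icc 1 Y).filter (fun m => n ∣ m),
        ArithmeticFunction.vonMangoldt (m / n) * f n := by
    apply Finset.sum_comm'
    intro m n
    simp only [Finset.mem_Icc, Nat.mem_divisors, Finset.mem_filter]
    constructor
    · rintro ⟨⟨h1, h2⟩, h3, h4⟩
      have := Nat.le_of_dvd (by omega) h3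
      have h5 : 0 < n := Nat.pos_of_dvd_of_pos h3 (by omega)
      exact ⟨⟨⟨h1, h2⟩, h3⟩, by omega, by omega⟩
    · rintro ⟨⟨⟨h1, h2⟩, h3⟩, h4, h5⟩
      exact ⟨⟨h1, h2⟩, h3, by omega⟩
  rw [h2, Finset.mul_sum]
  refine Finset.sum_le_sum fun n hn => ?_
  have hn1 : 1 ≤ n := (Finset.mem_Icc.mp hn).1
  have hn0 : (0 : ℝ) < n := by exact_mod_cast hn1
  rw [← Finset.sum_mul]
  have h3 : ∑ m ∈ (Icc 1 Y).filter (fun m => n ∣ m), ArithmeticFunction.vonMangoldt (m / n) =
      ∑ d ∈ Ioc 0 (Y / n), ArithmeticFunction.vonMangoldt d := by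
    apply Finset.sum_nbij' (fun m => m / n) (fun d => d * n)
    · intro m hm
      simp only [Finset.mem_filter, Finset.mem_Icc] at hm
      obtain ⟨⟨h1, h2⟩, h3⟩ := hm
      simp only [Finset.mem_Ioc]
      exact ⟨Nat.div_pos (Nat.le_of_dvd (by omega) h3) (by omega), Nat.div_le_div_right h2⟩
    · intro d hd
      simp only [Finset.mem_Ioc] at hd
      simp only [Finset.mem_filter, Finset.mem_Icc]
      refine ⟨⟨Nat.mul_pos hd.1 (by omega), ?_⟩, Dvd.intro_left _ rfl⟩
      exact (Nat.le_div_iff_mul_le (by omega)).mp hd.2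
    · intro m hm
      simp only [Finset.mem_filter] at hm
      exact Nat.div_mul_cancel hm.2
    · intro d _
      exact Nat.mul_div_cancel _ (by omega)
    · intro m _; rfl
  have h4 : ∑ d ∈ Ioc 0 (Y / n), ArithmeticFunction.vonMangoldt d ≤
      (Real.log 4 + 4) * (Y / n) := by
    have h5 := Chebyshev.psi_le_const_mul_self (x := ((Y / n : ℕ) : ℝ)) (Nat.cast_nonneg _)
    unfold Chebyshev.psi at h5
    rw [Nat.floor_natCast] at h5
    refine h5.trans (mul_le_mul_of_nonneg_left Nat.cast_div_le ?_)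
    have := Real.log_nonneg (show (1 : ℝ) ≤ 4 by norm_num)
    linarith
  rw [h3]
  calc (∑ d ∈ Ioc 0 (Y / n), ArithmeticFunction.vonMangoldt d) * f n
      ≤ (Real.log 4 + 4) * (Y / n) * f n :=
        mul_le_mul_of_nonneg_right h4 (f_pos n).le
    _ = (Real.log 4 + 4) * Y * (f n / n) := by ring

lemma sum_all (Y : ℕ) (hY : 1 ≤ Y) : F Y * Real.log Y ≤
    (Real.log 4 + 5) * Y * ∑ m ∈ Icc 1 Y, f m / m := by
  have h1 : F Y * Real.log Y ≤
      ∑ m ∈ Icc 1 Y, f m * Real.log m + Y * ∑ m ∈ Icc 1 Y, f m / m := by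
    unfold F
    rw [Finset.sum_mul, Finset.mul_sum, ← Finset.sum_add_distrib]
    refine Finset.sum_le_sum fun m hm => ?_
    obtain ⟨hm1, hm2⟩ := Finset.mem_Icc.mp hm
    have hm0 : (0 : ℝ) < m := by exact_mod_cast hm1
    have hY0 : (0 : ℝ) < Y := by exact_mod_cast hY
    have h2 : Real.log Y - Real.log m ≤ Y / m := by
      rw [← Real.log_div hY0.ne' hm0.ne']
      have := Real.log_le_sub_one_of_pos (show (0 : ℝ) < Y / m by positivity)
      linarith
    have h3 := mul_le_mul_of_nonneg_left h2 (f_pos m).le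
    have h4 : (Y : ℝ) * (f m / m) = f m * (Y / m) := by ring
    rw [h4]
    nlinarith
  have h2 := sum_log Y
  linarith

/-- one plus the integral part of the logarithm -/
def ell (x : ℕ) : ℕ := Nat.log 2 x + 1

lemma ell_pos (x : ℕ) : (0 : ℝ) < ell x := by unfold ell; positivity

/-- **The sum of the weight.** -/
theorem F_bound : ∃ C : ℝ, 1 ≤ C ∧ ∀ x : ℕ, F x ≤ C * (x / Real.sqrt (ell x)) := by
  obtain ⟨C0, hC0⟩ := mertens_inv
  set C1 : ℝ := |C0| with hC1
  have hC10 : 0 ≤ C1 := abs_nonneg _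
  set A : ℝ := (Real.log 4 + 5) * 2 * Real.exp (C1 / 2) * 2 with hA
  have hl4 : 0 ≤ Real.log 4 := Real.log_nonneg (by norm_num)
  have hE : 1 ≤ Real.exp (C1 / 2) := Real.one_le_exp (by positivity)
  have hA1 : 2 ≤ A := by
    rw [hA]
    nlinarith
  refine ⟨A, by linarith, fun x => ?_⟩
  have hs0 : 0 < Real.sqrt (ell x) := Real.sqrt_pos.2 (ell_pos x)
  rcases Nat.lt_or_ge x 3 with hx | hx
  · have hsl : Real.sqrt (ell x) ≤ 2 := by
      rw [Real.sqrt_le_left (by norm_num)]
      have : ell x ≤ 2 := by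
        unfold ell
        have : Nat.log 2 x ≤ Nat.log 2 3 := Nat.log_mono_right (by omega)
        have h3 : Nat.log 2 3 = 1 := by norm_num [Nat.log]
        omega
      have : ((ell x : ℕ) : ℝ) ≤ 2 := by exact_mod_cast this
      linarith
    have h1 := F_le x
    have h2 : (x : ℝ) ≤ A * (x / Real.sqrt (ell x)) := by
      rw [mul_div_assoc', le_div_iff₀ hs0, mul_comm]
      exact mul_le_mul_of_nonneg_right (hsl.trans hA1) (Nat.cast_nonneg x)
    linarith
  · have hx3 : (3 : ℝ) ≤ x := by exact_mod_cast hx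
    have hx0 : (0 : ℝ) < x := by linarith
    have hl1 : 1 ≤ Real.log x := by
      rw [← Real.log_exp 1]
      apply Real.log_le_log (Real.exp_pos 1)
      have := Real.exp_one_lt_d9
      linarith
    have hl0 : 0 < Real.log x := by linarith
    have h1 := sum_all x (by omega)
    have h2 := wu_total x (1 / 2) (by norm_num) (by norm_num)
    have h3 : wuP x ≤ Real.log (Real.log x) + C1 := by
      have := (abs_le.1 (hC0 x hx)).2
      unfold wuP
      have h4 := le_abs_self C0
      linarith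
    have h5 : Real.exp (1 / 2 * wuP x) ≤ Real.sqrt (Real.log x) * Real.exp (C1 / 2) := by
      have : Real.sqrt (Real.log x) = Real.exp (Real.log (Real.log x) / 2) := by
        rw [Real.exp_half, Real.exp_log hl0]
      rw [this, ← Real.exp_add]
      apply Real.exp_le_exp.2
      linarith
    have h6 : ∑ m ∈ Icc 1 x, f m / m ≤ 2 * (Real.sqrt (Real.log x) * Real.exp (C1 / 2)) := by
      refine le_trans h2 ?_
      linarith
    have h7 : F x * Real.log x ≤ (Real.log 4 + 5) * x * (2 * (Real.sqrt (Real.log x) * Real.exp (C1 / 2))) :=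
      h1.trans (mul_le_mul_of_nonneg_left h6 (by positivity))
    have hsq : Real.sqrt (Real.log x) * Real.sqrt (Real.log x) = Real.log x := Real.mul_self_sqrt hl0.le
    have hsq0 : 0 < Real.sqrt (Real.log x) := Real.sqrt_pos.2 hl0
    have h8 : F x * Real.sqrt (Real.log x) ≤ (Real.log 4 + 5) * x * (2 * Real.exp (C1 / 2)) := by
      have : (F x * Real.sqrt (Real.log x)) * Real.sqrt (Real.log x) ≤
          ((Real.log 4 + 5) * x * (2 * Real.exp (C1 / 2))) * Real.sqrt (Real.log x) := by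
        rw [mul_assoc, hsq]
        refine h7.trans (le_of_eq ?_)
        ring
      exact le_of_mul_le_mul_right this hsq0
    have h9 : Real.sqrt (ell x) ≤ 2 * Real.sqrt (Real.log x) := by
      have e1 : (ell x : ℝ) ≤ 4 * Real.log x := by
        have hlog1 : 1 ≤ Nat.log 2 x := by
          have : Nat.log 2 2 ≤ Nat.log 2 x := Nat.log_mono_right (by omega)
          have h3 : Nat.log 2 2 = 1 := by norm_num [Nat.log]
          omega
        have hp : 2 ^ Nat.log 2 x ≤ x := Nat.pow_log_le_self 2 (by omega)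
        have hp' : (2 : ℝ) ^ Nat.log 2 x ≤ x := by exact_mod_cast hp
        have hlog : (Nat.log 2 x : ℝ) * Real.log 2 ≤ Real.log x := by
          rw [← Real.log_pow]
          exact Real.log_le_log (by positivity) hp'
        have hl2 := Real.log_two_gt_d9
        have hc : (1 : ℝ) ≤ (Nat.log 2 x : ℝ) := by exact_mod_cast hlog1
        unfold ell
        push_cast
        nlinarith
      calc Real.sqrt (ell x) ≤ Real.sqrt (4 * Real.log x) := Real.sqrt_le_sqrt e1
        _ = 2 * Real.sqrt (Real.log x) := by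
            rw [Real.sqrt_mul (by norm_num), show (4 : ℝ) = 2 ^ 2 by norm_num,
              Real.sqrt_sq (by norm_num)]
    rw [mul_div_assoc', le_div_iff₀ hs0]
    calc F x * Real.sqrt (ell x) ≤ F x * (2 * Real.sqrt (Real.log x)) :=
          mul_le_mul_of_nonneg_left h9 (F_nonneg x)
      _ = 2 * (F x * Real.sqrt (Real.log x)) := by ring
      _ ≤ 2 * ((Real.log 4 + 5) * x * (2 * Real.exp (C1 / 2))) := by linarith
      _ = A * x := by rw [hA]; ring

end Pool.Agent.Run7.h545.MG
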