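import Pool.Agent.Helper256.KM.E1
import Pool.Agent.Y323.EF.Mult
import Pool.Agent.Run7.h545.MG.FS

/-! # The sum of `2 ^ (-Ω_K(m))` over `m ≤ x`, where `Ω_K` counts the prime factors up to `K` -/

set_option autoImplicit false

namespace Pool.Agent.Run7.h545.MG

open Finset
open Pool.Agent.Helper256.KM (mertens_inv)

/-- the number of the prime factors up to `K`, with multiplicity -/
def om (K m : ℕ) : ℕ := ∑ q ∈ (Icc 1 K).filter Nat.Prime, m.factorization q

lemma om_mul (K : ℕ) {m n : ℕ} (hm : m ≠ 0) (hn : n ≠ 0) : om K (m * n) = om K m + om K n := by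
  unfold om
  rw [← sum_add_distrib]
  apply sum_congr rfl
  intro q _
  rw [Nat.factorization_mul hm hn]
  rfl

lemma om_prime {K q : ℕ} (hq : q.Prime) : om K q = if q ≤ K then 1 else 0 := by
  unfold om
  have h1 : ∀ r ∈ (Icc 1 K).filter Nat.Prime, q.factorization r = if r = q then 1 else 0 := by
    intro r _
    rw [hq.factorization, Finsupp.single_apply]
    by_cases h : q = r
    · rw [if_pos h, if_pos h.symm]
    · rw [if_neg h, if_neg (fun h' => h h'.symm)]
  rw [sum_congr rfl h1, sum_ite_eq']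
  by_cases h : q ≤ K
  · rw [if_pos h, if_pos]
    rw [mem_filter, mem_Icc]
    exact ⟨⟨hq.pos, h⟩, hq⟩
  · rw [if_neg h, if_neg]
    rw [mem_filter, mem_Icc]
    rintro ⟨⟨_, h'⟩, _⟩
    exact h h'

/-- the weight `2 ^ (-Ω_K(m))` -/
noncomputable def fK (K m : ℕ) : ℝ := (1 / 2 : ℝ) ^ (om K m)

lemma fK_pos (K m : ℕ) : 0 < fK K m := by unfold fK; positivity

lemma fK_le_one (K m : ℕ) : fK K m ≤ 1 := pow_le_one₀ (by norm_num) (by norm_num)

lemma fK_mul (K : ℕ) {m n : ℕ} (hm : m ≠ 0) (hn : n ≠ 0) : fK K (m * n) = fK K m * fK K n := by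
  unfold fK; rw [om_mul K hm hn, pow_add]

lemma fK_one (K : ℕ) : fK K 1 = 1 := by
  unfold fK om
  simp

/-- the sum of the weight -/
noncomputable def FK (K x : ℕ) : ℝ := ∑ m ∈ Icc 1 x, fK K m

lemma FK_nonneg (K x : ℕ) : 0 ≤ FK K x := sum_nonneg fun m _ => (fK_pos K m).le

lemma FK_le (K x : ℕ) : FK K x ≤ x := by
  unfold FK
  calc ∑ m ∈ Icc 1 x, fK K m ≤ ∑ _m ∈ Icc 1 x, (1 : ℝ) := sum_le_sum fun m _ => fK_le_one K m
    _ = x := by simp

/-- the weight divided by `m`, as a monoid homomorphism -/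
noncomputable def gK (K : ℕ) : ℕ →*₀ ℝ where
  toFun m := if m = 0 then 0 else fK K m / m
  map_zero' := by simp
  map_one' := by simp [fK_one]
  map_mul' m n := by
    by_cases hm : m = 0
    · simp [hm]
    by_cases hn : n = 0
    · simp [hn]
    rw [if_neg (mul_ne_zero hm hn), if_neg hm, if_neg hn, fK_mul K hm hn, Nat.cast_mul]
    have h1 : (m : ℝ) ≠ 0 := by exact_mod_cast hm
    have h2 : (n : ℝ) ≠ 0 := by exact_mod_cast hn
    field_simp

lemma gK_apply (K : ℕ) {m : ℕ} (hm : m ≠ 0) : gK K m = fK K m / m := if_neg hm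

lemma gK_nonneg (K m : ℕ) : 0 ≤ gK K m := by
  by_cases hm : m = 0
  · rw [hm, map_zero]
  · rw [gK_apply K hm]
    exact div_nonneg (fK_pos K m).le (Nat.cast_nonneg m)

/-- the sum of the weight over `m`, by the Euler product -/
lemma euler (K x : ℕ) : ∑ m ∈ Icc 1 x, fK K m / m ≤
    Real.exp (∑ q ∈ (Icc 1 x).filter Nat.Prime, (fK K q / q + 2 * ((q : ℝ) ^ 2)⁻¹)) := by
  have hnorm : ∀ {q : ℕ}, q.Prime → ‖gK K q‖ < 1 := by
    intro q hq
    have hq2 : (2 : ℝ) ≤ q := by exact_mod_cast hq.two_le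
    rw [Real.norm_of_nonneg (gK_nonneg K q), gK_apply K hq.ne_zero, div_lt_one (by linarith)]
    have := fK_le_one K q
    linarith
  have h : HasSum (fun m : Nat.smoothNumbers (x + 1) => gK K m)
      (∏ q ∈ (x + 1).primesBelow, (1 - gK K q)⁻¹) :=
    (EulerProduct.summable_and_hasSum_smoothNumbers_prod_primesBelow_geometric
      (f := ((gK K : ℕ →*₀ ℝ) : ℕ →* ℝ)) (fun hp => hnorm hp) (x + 1)).2
  have h2 : HasSum ((Nat.smoothNumbers (x + 1)).indicator (fun m => gK K m))
      (∏ q ∈ (x + 1).primesBelow, (1 - gK K q)⁻¹) := hasSum_subtype_iff_indicator.1 h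
  have h3 : ∑ m ∈ Icc 1 x, fK K m / m ≤ ∏ q ∈ (x + 1).primesBelow, (1 - gK K q)⁻¹ := by
    have h4 := sum_le_hasSum (Icc 1 x) (fun m _ => Set.indicator_nonneg (fun m _ => gK_nonneg K m) m) h2
    refine le_trans (le_of_eq ?_) h4
    apply sum_congr rfl
    intro m hm
    rw [mem_Icc] at hm
    rw [Set.indicator_of_mem (Nat.mem_smoothNumbers_of_lt (by omega) (by omega)),
      gK_apply K (by omega)]
  refine h3.trans ?_
  have h5 : (x + 1).primesBelow = (Icc 1 x).filter Nat.Prime := by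
    ext q
    rw [Nat.mem_primesBelow, mem_filter, mem_Icc]
    constructor
    · rintro ⟨h1, h2⟩
      exact ⟨⟨h2.pos, by omega⟩, h2⟩
    · rintro ⟨⟨_, h1⟩, h2⟩
      exact ⟨by omega, h2⟩
  rw [h5, Real.exp_sum]
  apply prod_le_prod
  · intro q hq
    have := hnorm (mem_filter.1 hq).2
    rw [Real.norm_of_nonneg (gK_nonneg K q)] at this
    apply inv_nonneg.2
    linarith
  · intro q hq
    have hq' := (mem_filter.1 hq).2
    have hq2 : (2 : ℝ) ≤ q := by exact_mod_cast hq'.two_le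
    rw [gK_apply K hq'.ne_zero]
    set x : ℝ := fK K q / q with hx
    have hf0 := (fK_pos K q).le
    have hf1 := fK_le_one K q
    have hx0 : 0 ≤ x := by positivity
    have hxle : x ≤ 1 / q := by
      rw [hx]; exact div_le_div_of_nonneg_right hf1 (by linarith)
    have hq3 : 1 / (q : ℝ) ≤ 1 / 2 := one_div_le_one_div_of_le (by norm_num) hq2
    have hx2 : x ≤ 1 / 2 := hxle.trans hq3
    have hxq : x ^ 2 ≤ ((q : ℝ) ^ 2)⁻¹ := by
      have : ((q : ℝ) ^ 2)⁻¹ = (1 / (q : ℝ)) ^ 2 := by rw [one_div, inv_pow]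
      rw [this]
      exact pow_le_pow_left₀ hx0 hxle 2
    have h4 : 1 + (x + 2 * x ^ 2) ≤ Real.exp (x + 2 * x ^ 2) := by
      have := Real.add_one_le_exp (x + 2 * x ^ 2); linarith
    have h5 : 1 ≤ (1 + (x + 2 * x ^ 2)) * (1 - x) := by nlinarith [sq_nonneg x]
    have h6 : (1 - x)⁻¹ ≤ 1 + (x + 2 * x ^ 2) := by
      rw [← one_div, div_le_iff₀ (by linarith)]
      exact h5
    refine (h6.trans h4).trans (Real.exp_le_exp.2 ?_)
    linarith

/-- the sum with the logarithm -/
lemma sum_logK (K Y : ℕ) : ∑ m ∈ Icc 1 Y, fK K m * Real.log m ≤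
    (Real.log 4 + 4) * Y * ∑ m ∈ Icc 1 Y, fK K m / m := by
  have h1 : ∀ m ∈ Icc 1 Y, fK K m * Real.log m ≤
      ∑ n ∈ m.divisors, ArithmeticFunction.vonMangoldt (m / n) * fK K n := by
    intro m hm
    have hm0 : m ≠ 0 := by have := (Finset.mem_Icc.mp hm).1; omega
    rw [← ArithmeticFunction.vonMangoldt_sum, ← Nat.sum_div_divisors, Finset.mul_sum]
    refine Finset.sum_le_sum fun n hn => ?_
    have hnm := Nat.dvd_of_mem_divisors hn
    have hn0 : n ≠ 0 := fun h => hm0 (by rw [h] at hnm; exact Nat.eq_zero_of_zero_dvd hnm)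
    have hd0 : m / n ≠ 0 := (Nat.div_pos (Nat.le_of_dvd (Nat.pos_of_ne_zero hm0) hnm)
      (Nat.pos_of_ne_zero hn0)).ne'
    have h2 : fK K m ≤ fK K n := by
      have h4 : fK K m = fK K (m / n) * fK K n := by
        rw [← fK_mul K hd0 hn0, Nat.div_mul_cancel hnm]
      rw [h4]
      exact mul_le_of_le_one_left (fK_pos K n).le (fK_le_one K _)
    have h3 : 0 ≤ ArithmeticFunction.vonMangoldt (m / n) :=
      ArithmeticFunction.vonMangoldt_nonneg
    rw [mul_comm]
    exact mul_le_mul_of_nonneg_left h2 h3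
  refine (Finset.sum_le_sum h1).trans ?_
  have h2 : ∑ m ∈ Icc 1 Y, ∑ n ∈ m.divisors,
      ArithmeticFunction.vonMangoldt (m / n) * fK K n =
      ∑ n ∈ Icc 1 Y, ∑ m ∈ (Icc 1 Y).filter (fun m => n ∣ m),
        ArithmeticFunction.vonMangoldt (m / n) * fK K n := by
    apply Finset.sum_comm'
    intro m n
    simp only [Finset.mem_Icc, Nat.mem_divisors, Finset.mem_filter]
    constructor
    · rintro ⟨⟨h1, h2⟩, h3, h4⟩
      have := Nat.le_of_dvd (by omega) h3
      have h5 : 0 < n := Nat.pos_of_dvd_of_pos h3 (by omega)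
      exact ⟨⟨⟨h1, h2⟩, h3⟩, by omega, by omega⟩
    · rintro ⟨⟨⟨h1, h2⟩, h3⟩, h4, h5⟩
      exact ⟨⟨h1, h2⟩, h3, by omega⟩
  rw [h2, Finset.mul_sum]
  refine Finset.sum_le_sum fun n hn => ?_
  have hn1 : 1 ≤ n := (Finset.mem_Icc.mp hn).1
  have hn0 : (0 : ℝ) < n := by exact_mod_cast hn1
  rw [← Finset.sum_mul]
  have h3 : ∑ m ∈ (Icc 1 Y).filter (fun m => n ∣ m), ArithmeticFunction.vonMangoldt (m / n) =
      ∑ d ∈ Ioc 0 (Y / n), ArithmeticFunction.vonMangoldt d := by
    apply Finset.sum_nbij' (fun m => m / n) (fun d => d * n)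
    · intro m hm
      simp only [Finset.mem_filter, Finset.mem_Icc] at hm
      obtain ⟨⟨h1, h2⟩, h3⟩ := hm
      simp only [Finset.mem_Ioc]
      exact ⟨Nat.div_pos (Nat.le_of_dvd (by omega) h3) (by omega), Nat.div_le_div_right h2⟩
    · intro d hd
      simp only [Finset.mem_Ioc] at hd
      simp only [Finset.mem_filter, Finset.mem_Icc]
      refine ⟨⟨Nat.mul_pos hd.1 (by omega), ?_⟩, Dvd.intro_left _ rfl⟩
      exact (Nat.le_div_iff_mul_le (by omega)).mp hd.2
    · intro m hm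
      simp only [Finset.mem_filter] at hm
      exact Nat.div_mul_cancel hm.2
    · intro d _
      exact Nat.mul_div_cancel _ (by omega)
    · intro m _; rfl
  have h4 : ∑ d ∈ Ioc 0 (Y / n), ArithmeticFunction.vonMangoldt d ≤
      (Real.log 4 + 4) * (Y / n) := by
    have h5 := Chebyshev.psi_le_const_mul_self (x := ((Y / n : ℕ) : ℝ)) (Nat.cast_nonneg _)
    unfold Chebyshev.psi at h5
    rw [Nat.floor_natCast] at h5
    refine h5.trans (mul_le_mul_of_nonneg_left Nat.cast_div_le ?_)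
    have := Real.log_nonneg (show (1 : ℝ) ≤ 4 by norm_num)
    linarith
  rw [h3]
  calc (∑ d ∈ Ioc 0 (Y / n), ArithmeticFunction.vonMangoldt d) * fK K n
      ≤ (Real.log 4 + 4) * (Y / n) * fK K n :=
        mul_le_mul_of_nonneg_right h4 (fK_pos K n).le
    _ = (Real.log 4 + 4) * Y * (fK K n / n) := by ring

lemma sum_allK (K Y : ℕ) (hY : 1 ≤ Y) : FK K Y * Real.log Y ≤
    (Real.log 4 + 5) * Y * ∑ m ∈ Icc 1 Y, fK K m / m := by
  have h1 : FK K Y * Real.log Y ≤
      ∑ m ∈ Icc 1 Y, fK K m * Real.log m + Y * ∑ m ∈ Icc 1 Y, fK K m / m := by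
    unfold FK
    rw [Finset.sum_mul, Finset.mul_sum, ← Finset.sum_add_distrib]
    refine Finset.sum_le_sum fun m hm => ?_
    obtain ⟨hm1, hm2⟩ := Finset.mem_Icc.mp hm
    have hm0 : (0 : ℝ) < m := by exact_mod_cast hm1
    have hY0 : (0 : ℝ) < Y := by exact_mod_cast hY
    have h2 : Real.log Y - Real.log m ≤ Y / m := by
      rw [← Real.log_div hY0.ne' hm0.ne']
      have := Real.log_le_sub_one_of_pos (show (0 : ℝ) < Y / m by positivity)
      linarith
    have h3 := mul_le_mul_of_nonneg_left h2 (fK_pos K m).le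
    have h4 : (Y : ℝ) * (fK K m / m) = fK K m * (Y / m) := by ring
    rw [h4]
    nlinarith
  have h2 := sum_logK K Y
  linarith


theorem FK_bound : ∃ C : ℝ, 1 ≤ C ∧ ∀ K x : ℕ, FK K x ≤ C * (x / Real.sqrt (ell (min x K))) := by
  obtain ⟨C0, hC0⟩ := mertens_inv
  set C1 : ℝ := |C0| with hC1
  have hC10 : 0 ≤ C1 := abs_nonneg _
  set A : ℝ := (Real.log 4 + 5) * Real.exp (2 * C1 + 2) * 2 with hA
  have hl4 : 0 ≤ Real.log 4 := Real.log_nonneg (by norm_num)
  have hE : 1 ≤ Real.exp (2 * C1 + 2) := Real.one_le_exp (by positivity)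
  have hA1 : 2 ≤ A := by
    rw [hA]
    nlinarith
  refine ⟨A, by linarith, fun K x => ?_⟩
  set M := min x K with hM
  have hMx : M ≤ x := min_le_left _ _
  have hMK : M ≤ K := min_le_right _ _
  have hs0 : 0 < Real.sqrt (ell M) := Real.sqrt_pos.2 (ell_pos M)
  rcases Nat.lt_or_ge M 3 with hx | hx
  · have hsl : Real.sqrt (ell M) ≤ 2 := by
      rw [Real.sqrt_le_left (by norm_num)]
      have : ell M ≤ 2 := by
        unfold ell
        have : Nat.log 2 M ≤ Nat.log 2 3 := Nat.log_mono_right (by omega)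
        have h3 : Nat.log 2 3 = 1 := by norm_num [Nat.log]
        omega
      have : ((ell M : ℕ) : ℝ) ≤ 2 := by exact_mod_cast this
      linarith
    have h1 := FK_le K x
    have h2 : (x : ℝ) ≤ A * (x / Real.sqrt (ell M)) := by
      rw [mul_div_assoc', le_div_iff₀ hs0, mul_comm]
      exact mul_le_mul_of_nonneg_right (hsl.trans hA1) (Nat.cast_nonneg x)
    linarith
  · have hM3 : (3 : ℝ) ≤ M := by exact_mod_cast hx
    have hMxr : (M : ℝ) ≤ x := by exact_mod_cast hMx
    have hx3 : (3 : ℝ) ≤ x := hM3.trans hMxr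
    have hx3' : 3 ≤ x := hx.trans hMx
    have hx0 : (0 : ℝ) < x := by linarith
    have hlM1 : 1 ≤ Real.log M := by
      rw [← Real.log_exp 1]
      apply Real.log_le_log (Real.exp_pos 1)
      have := Real.exp_one_lt_d9
      linarith
    have hlM0 : 0 < Real.log M := by linarith
    have hlx : Real.log M ≤ Real.log x := Real.log_le_log (by linarith) hMxr
    have hl0 : 0 < Real.log x := by linarith
    have h1 := sum_allK K x (by omega)
    have h2 := euler K x
    have hprime : ∀ q ∈ (Icc 1 x).filter Nat.Prime, fK K q / q =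
        1 / (q : ℝ) - (if q ≤ M then (1 / 2 : ℝ) * (1 / q) else 0) := by
      intro q hq
      rw [mem_filter, mem_Icc] at hq
      unfold fK
      rw [om_prime hq.2]
      by_cases h : q ≤ K
      · rw [if_pos h, if_pos (le_min hq.1.2 h)]
        ring
      · rw [if_neg h, if_neg (fun h' => h (h'.trans hMK))]
        ring
    have hs1 : ∑ q ∈ (Icc 1 x).filter Nat.Prime, (if q ≤ M then (1 / 2 : ℝ) * (1 / q) else 0) =
        1 / 2 * ∑ q ∈ (Icc 1 M).filter Nat.Prime, 1 / (q : ℝ) := by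
      rw [← sum_filter, mul_sum]
      apply sum_congr _ (fun _ _ => rfl)
      ext q
      simp only [mem_filter, mem_Icc]
      constructor
      · rintro ⟨⟨⟨a1, a2⟩, a3⟩, a4⟩
        exact ⟨⟨a1, a4⟩, a3⟩
      · rintro ⟨⟨a1, a2⟩, a3⟩
        exact ⟨⟨⟨a1, a2.trans hMx⟩, a3⟩, a2⟩
    have hs2 := Pool.Agent.Y323.EF.sum_inv_sq_le ((Icc 1 x).filter Nat.Prime) (fun q hq => (mem_filter.1 hq).2)
    have hx' := abs_le.1 (hC0 x hx3')
    have hM' := abs_le.1 (hC0 M hx)
    have hle := le_abs_self C0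
    have h3 : ∑ q ∈ (Icc 1 x).filter Nat.Prime, (fK K q / q + 2 * ((q : ℝ) ^ 2)⁻¹) ≤
        (2 * C1 + 2) + (Real.log (Real.log x) - Real.log (Real.log M) / 2) := by
      rw [sum_add_distrib, sum_congr rfl hprime, sum_sub_distrib, hs1, ← mul_sum]
      linarith [hx'.2, hM'.1]
    have h5 : Real.exp ((2 * C1 + 2) + (Real.log (Real.log x) - Real.log (Real.log M) / 2)) =
        Real.exp (2 * C1 + 2) * (Real.log x / Real.sqrt (Real.log M)) := by
      have : Real.sqrt (Real.log M) = Real.exp (Real.log (Real.log M) / 2) := by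
        rw [Real.exp_half, Real.exp_log hlM0]
      rw [Real.exp_add, Real.exp_sub, Real.exp_log hl0, this]
    have h6 : ∑ m ∈ Icc 1 x, fK K m / m ≤ Real.exp (2 * C1 + 2) * (Real.log x / Real.sqrt (Real.log M)) := by
      rw [← h5]
      exact h2.trans (Real.exp_le_exp.2 h3)
    have hsq0 : 0 < Real.sqrt (Real.log M) := Real.sqrt_pos.2 hlM0
    have h7 : FK K x * Real.log x ≤ (Real.log 4 + 5) * x *
        (Real.exp (2 * C1 + 2) * (Real.log x / Real.sqrt (Real.log M))) :=
      h1.trans (mul_le_mul_of_nonneg_left h6 (by positivity))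
    have h8 : FK K x * Real.sqrt (Real.log M) ≤ (Real.log 4 + 5) * x * Real.exp (2 * C1 + 2) := by
      have : (FK K x * Real.sqrt (Real.log M)) * Real.log x ≤
          ((Real.log 4 + 5) * x * Real.exp (2 * C1 + 2)) * Real.log x := by
        calc (FK K x * Real.sqrt (Real.log M)) * Real.log x
            = (FK K x * Real.log x) * Real.sqrt (Real.log M) := by ring
          _ ≤ ((Real.log 4 + 5) * x *
                (Real.exp (2 * C1 + 2) * (Real.log x / Real.sqrt (Real.log M)))) *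
                Real.sqrt (Real.log M) := mul_le_mul_of_nonneg_right h7 hsq0.le
          _ = _ := by field_simp
      exact le_of_mul_le_mul_right this hl0
    have h9 : Real.sqrt (ell M) ≤ 2 * Real.sqrt (Real.log M) := by
      have e1 : (ell M : ℝ) ≤ 4 * Real.log M := by
        have hlog1 : 1 ≤ Nat.log 2 M := by
          have : Nat.log 2 2 ≤ Nat.log 2 M := Nat.log_mono_right (by omega)
          have h3 : Nat.log 2 2 = 1 := by norm_num [Nat.log]
          omega
        have hp : 2 ^ Nat.log 2 M ≤ M := Nat.pow_log_le_self 2 (by omega)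
        have hp' : (2 : ℝ) ^ Nat.log 2 M ≤ M := by exact_mod_cast hp
        have hlog : (Nat.log 2 M : ℝ) * Real.log 2 ≤ Real.log M := by
          rw [← Real.log_pow]
          exact Real.log_le_log (by positivity) hp'
        have hl2 := Real.log_two_gt_d9
        have hc : (1 : ℝ) ≤ (Nat.log 2 M : ℝ) := by exact_mod_cast hlog1
        unfold ell
        push_cast
        nlinarith
      calc Real.sqrt (ell M) ≤ Real.sqrt (4 * Real.log M) := Real.sqrt_le_sqrt e1
        _ = 2 * Real.sqrt (Real.log M) := by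
            rw [Real.sqrt_mul (by norm_num), show (4 : ℝ) = 2 ^ 2 by norm_num,
              Real.sqrt_sq (by norm_num)]
    rw [mul_div_assoc', le_div_iff₀ hs0]
    calc FK K x * Real.sqrt (ell M) ≤ FK K x * (2 * Real.sqrt (Real.log M)) :=
          mul_le_mul_of_nonneg_left h9 (FK_nonneg K x)
      _ = 2 * (FK K x * Real.sqrt (Real.log M)) := by ring
      _ ≤ 2 * ((Real.log 4 + 5) * x * Real.exp (2 * C1 + 2)) := by linarith
      _ = A * x := by rw [hA]; ring

end Pool.Agent.Run7.h545.MG
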