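import Pool.Agent.Run7.h545.MG.EN2
import Pool.Agent.Run7.h545.MG.FK

/-! # The weighted multiplicative energy of `[1, N]` and `[1, K]`: only the primes up to `K` -/

set_option autoImplicit false

namespace Pool.Agent.Run7.h545.MG

open Finset
open Pool.Agent.Helper256.KM (wu_sum_inj)

/-- the sums over the two outer variables -/
noncomputable def WK (N K M : ℕ) : ℝ := FK K (N / M) * FK K (K / M)

lemma WK_nonneg (N K M : ℕ) : 0 ≤ WK N K M := mul_nonneg (FK_nonneg _ _) (FK_nonneg _ _)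

lemma energyK1 (N K : ℕ) : ∑ x ∈ Qd N K, fK K (x.1.1 * x.1.2) ≤
    ∑ bc ∈ Icc 1 K ×ˢ Icc 1 K, fK K bc.1 * fK K bc.2 * WK N K (max bc.1 bc.2) := by
  classical
  have h : ∑ x ∈ Qd N K, fK K (x.1.1 * x.1.2) ≤
      ∑ y ∈ (Icc 1 K ×ˢ Icc 1 K).sigma (fun bc : ℕ × ℕ =>
        Icc 1 (N / max bc.1 bc.2) ×ˢ Icc 1 (K / max bc.1 bc.2)),
        fK K y.1.1 * fK K y.1.2 * (fK K y.2.1 * fK K y.2.2) := by
    apply wu_sum_inj (Qd N K) _
      (fun x => (⟨(x.1.1 / Nat.gcd x.1.1 x.2.1, x.2.1 / Nat.gcd x.1.1 x.2.1),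
        (Nat.gcd x.1.1 x.2.1, x.1.2 / (x.2.1 / Nat.gcd x.1.1 x.2.1))⟩ : Σ _ : ℕ × ℕ, ℕ × ℕ))
    · rintro ⟨⟨n, k⟩, ⟨n', k'⟩⟩ hx
      rw [mem_Qd] at hx
      simp only at hx
      obtain ⟨⟨⟨⟨g1, g2⟩, g3, g4⟩, ⟨g5, g6⟩, g7, g8⟩, g9⟩ := hx
      obtain ⟨e1, e2, e3, e4⟩ := par g1 g3 g5 g7 g9
      simp only
      obtain ⟨a, haa⟩ : ∃ a, a = Nat.gcd n n' := ⟨_, rfl⟩
      rw [← haa] at e1 e2 e3 e4 ⊢
      obtain ⟨b, hb⟩ : ∃ b, b = n / a := ⟨_, rfl⟩
      obtain ⟨c, hc⟩ : ∃ c, c = n' / a := ⟨_, rfl⟩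
      rw [← hb] at e1 e4 ⊢
      rw [← hc] at e2 e3 e4 ⊢
      obtain ⟨d, hd⟩ : ∃ d, d = k / c := ⟨_, rfl⟩
      rw [← hd] at e3 e4 ⊢
      have a0 : 0 < a := Nat.pos_of_ne_zero (fun h0 => by rw [h0, zero_mul] at e1; omega)
      have b0 : 0 < b := Nat.pos_of_ne_zero (fun h0 => by rw [h0, mul_zero] at e1; omega)
      have c0 : 0 < c := Nat.pos_of_ne_zero (fun h0 => by rw [h0, mul_zero] at e2; omega)
      have d0 : 0 < d := Nat.pos_of_ne_zero (fun h0 => by rw [h0, mul_zero] at e3; omega)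
      have m0 : 0 < max b c := lt_of_lt_of_le b0 (le_max_left _ _)
      rw [mem_sigma, mem_product, mem_product, mem_Icc, mem_Icc, mem_Icc, mem_Icc]
      simp only
      refine ⟨⟨⟨b0, ?_⟩, ⟨c0, ?_⟩⟩, ⟨a0, ?_⟩, ⟨d0, ?_⟩⟩
      · calc b ≤ b * d := Nat.le_mul_of_pos_right _ d0
          _ = k' := e4.symm
          _ ≤ K := g8
      · calc c ≤ c * d := Nat.le_mul_of_pos_right _ d0
          _ = k := e3.symm
          _ ≤ K := g4
      · rw [Nat.le_div_iff_mul_le m0]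
        rcases max_choice b c with hm | hm
        · rw [hm, ← e1]; exact g2
        · rw [hm, ← e2]; exact g6
      · rw [Nat.le_div_iff_mul_le m0]
        rcases max_choice b c with hm | hm
        · rw [hm, mul_comm, ← e4]; exact g8
        · rw [hm, mul_comm, ← e3]; exact g4
    · rintro ⟨⟨n, k⟩, ⟨n', k'⟩⟩ hx ⟨⟨m, l⟩, ⟨m', l'⟩⟩ hy hxy
      rw [mem_coe, mem_Qd] at hx hy
      simp only at hx hy
      obtain ⟨⟨⟨⟨g1, g2⟩, g3, g4⟩, ⟨g5, g6⟩, g7, g8⟩, g9⟩ := hx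
      obtain ⟨⟨⟨⟨r1, r2⟩, r3, r4⟩, ⟨r5, r6⟩, r7, r8⟩, r9⟩ := hy
      obtain ⟨e1, e2, e3, e4⟩ := par g1 g3 g5 g7 g9
      obtain ⟨s1, s2, s3, s4⟩ := par r1 r3 r5 r7 r9
      simp only [Sigma.mk.injEq, Prod.mk.injEq, heq_eq_eq] at hxy
      obtain ⟨⟨t1, t2⟩, t3, t4⟩ := hxy
      have u1 : n = m := by rw [e1, s1, t1, t3]
      have u2 : n' = m' := by rw [e2, s2, t2, t3]
      have u3 : k = l := by rw [e3, s3, t4, t2]
      have u4 : k' = l' := by rw [e4, s4, t4, t1]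
      rw [u1, u2, u3, u4]
    · rintro ⟨⟨n, k⟩, ⟨n', k'⟩⟩ hx
      rw [mem_Qd] at hx
      simp only at hx
      obtain ⟨⟨⟨⟨g1, g2⟩, g3, g4⟩, ⟨g5, g6⟩, g7, g8⟩, g9⟩ := hx
      obtain ⟨e1, e2, e3, e4⟩ := par g1 g3 g5 g7 g9
      simp only
      obtain ⟨a, haa⟩ : ∃ a, a = Nat.gcd n n' := ⟨_, rfl⟩
      rw [← haa] at e1 e2 e3 e4 ⊢
      obtain ⟨b, hb⟩ : ∃ b, b = n / a := ⟨_, rfl⟩
      obtain ⟨c, hc⟩ : ∃ c, c = n' / a := ⟨_, rfl⟩
      rw [← hb] at e1 e4 ⊢
      rw [← hc] at e2 e3 e4 ⊢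
      obtain ⟨d, hd⟩ : ∃ d, d = k / c := ⟨_, rfl⟩
      rw [← hd] at e3 e4 ⊢
      have a0 : a ≠ 0 := fun h0 => by rw [h0, zero_mul] at e1; omega
      have b0 : b ≠ 0 := fun h0 => by rw [h0, mul_zero] at e1; omega
      have c0 : c ≠ 0 := fun h0 => by rw [h0, mul_zero] at e2; omega
      have d0 : d ≠ 0 := fun h0 => by rw [h0, mul_zero] at e3; omega
      rw [e1, e3, fK_mul K (mul_ne_zero a0 b0) (mul_ne_zero c0 d0), fK_mul K a0 b0, fK_mul K c0 d0]
      apply le_of_eq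
      ring
    · intro y _
      exact mul_nonneg (mul_nonneg (fK_pos K _).le (fK_pos K _).le) (mul_nonneg (fK_pos K _).le (fK_pos K _).le)
  refine h.trans (le_of_eq ?_)
  rw [sum_sigma]
  apply sum_congr rfl
  intro bc _
  unfold WK FK
  rw [sum_mul_sum, ← sum_product', mul_sum]

lemma energyK2 (N K : ℕ) : ∑ bc ∈ Icc 1 K ×ˢ Icc 1 K, fK K bc.1 * fK K bc.2 * WK N K (max bc.1 bc.2) ≤
    2 * ∑ b ∈ Icc 1 K, fK K b * FK K b * WK N K b := by
  have key : ∑ b ∈ Icc 1 K, ∑ c ∈ Icc 1 K, (if c ≤ b then fK K b * fK K c * WK N K b else 0) =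
      ∑ b ∈ Icc 1 K, fK K b * FK K b * WK N K b := by
    apply sum_congr rfl
    intro b hb
    rw [mem_Icc] at hb
    rw [← sum_filter]
    have : (Icc 1 K).filter (fun c => c ≤ b) = Icc 1 b := by
      ext c
      rw [mem_filter, mem_Icc, mem_Icc]
      omega
    rw [this]
    unfold FK
    rw [mul_sum, sum_mul]
  rw [sum_product]
  calc ∑ b ∈ Icc 1 K, ∑ c ∈ Icc 1 K, fK K b * fK K c * WK N K (max b c)
      ≤ ∑ b ∈ Icc 1 K, ∑ c ∈ Icc 1 K, ((if c ≤ b then fK K b * fK K c * WK N K b else 0) +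
          (if b ≤ c then fK K c * fK K b * WK N K c else 0)) := by
        apply sum_le_sum
        intro b _
        apply sum_le_sum
        intro c _
        have h1 : 0 ≤ fK K b * fK K c * WK N K b :=
          mul_nonneg (mul_nonneg (fK_pos K _).le (fK_pos K _).le) (WK_nonneg _ _ _)
        have h2 : 0 ≤ fK K c * fK K b * WK N K c :=
          mul_nonneg (mul_nonneg (fK_pos K _).le (fK_pos K _).le) (WK_nonneg _ _ _)
        rcases le_total c b with h | h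
        · rw [max_eq_left h, if_pos h]
          split_ifs <;> linarith
        · rw [max_eq_right h, if_pos h]
          have h3 : fK K b * fK K c * WK N K c = fK K c * fK K b * WK N K c := by ring
          split_ifs <;> linarith
    _ = ∑ b ∈ Icc 1 K, ∑ c ∈ Icc 1 K, (if c ≤ b then fK K b * fK K c * WK N K b else 0) +
          ∑ b ∈ Icc 1 K, ∑ c ∈ Icc 1 K, (if b ≤ c then fK K c * fK K b * WK N K c else 0) := by
        rw [← sum_add_distrib]
        apply sum_congr rfl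
        intro b _
        rw [sum_add_distrib]
    _ = _ := by
        rw [sum_comm (s := Icc 1 K) (t := Icc 1 K)
          (f := fun b c => if b ≤ c then fK K c * fK K b * WK N K c else 0), key]
        ring

lemma blockK {C : ℝ} (hC0 : 0 ≤ C) (hC : ∀ K x : ℕ, FK K x ≤ C * (x / Real.sqrt (ell (min x K))))
    (i K : ℕ) (hK : 1 ≤ K) (hiK : i ≤ Nat.log 2 K) :
    ∑ b ∈ (Icc 1 K).filter (fun b => Nat.log 2 b = i), fK K b / b ≤ 2 * C / Real.sqrt ((i : ℝ) + 1) := by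
  have hp : (0 : ℝ) < 2 ^ i := by positivity
  have h1 : ∑ b ∈ (Icc 1 K).filter (fun b => Nat.log 2 b = i), fK K b / b ≤ FK K (2 ^ (i + 1)) / 2 ^ i := by
    calc ∑ b ∈ (Icc 1 K).filter (fun b => Nat.log 2 b = i), fK K b / b
        ≤ ∑ b ∈ (Icc 1 K).filter (fun b => Nat.log 2 b = i), fK K b / 2 ^ i := by
          apply sum_le_sum
          intro b hb
          rw [mem_filter, mem_Icc] at hb
          have h2 : 2 ^ i ≤ b := by
            rw [← hb.2]; exact Nat.pow_log_le_self 2 (by omega)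
          have h3 : (2 : ℝ) ^ i ≤ b := by exact_mod_cast h2
          exact div_le_div_of_nonneg_left (fK_pos K b).le hp h3
      _ ≤ ∑ b ∈ Icc 1 (2 ^ (i + 1)), fK K b / 2 ^ i := by
          apply sum_le_sum_of_subset_of_nonneg
          · intro b hb
            rw [mem_filter, mem_Icc] at hb
            rw [mem_Icc]
            have h2 : b < 2 ^ (Nat.log 2 b + 1) := Nat.lt_pow_succ_log_self (by norm_num) b
            rw [hb.2] at h2
            exact ⟨hb.1.1, h2.le⟩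
          · intro b _ _
            exact div_nonneg (fK_pos K b).le hp.le
      _ = FK K (2 ^ (i + 1)) / 2 ^ i := by unfold FK; rw [sum_div]
  have h4 : i + 1 ≤ ell (min (2 ^ (i + 1)) K) := by
    have h2 : 2 ^ i ≤ min (2 ^ (i + 1)) K := by
      apply le_min (Nat.pow_le_pow_right (by norm_num) (by omega))
      exact (Nat.pow_le_pow_right (by norm_num) hiK).trans (Nat.pow_log_le_self 2 (by omega))
    have h3 := Nat.le_log_of_pow_le (by norm_num : 1 < 2) h2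
    unfold ell
    omega
  have h5 : Real.sqrt ((i : ℝ) + 1) ≤ Real.sqrt (ell (min (2 ^ (i + 1)) K)) := by
    apply Real.sqrt_le_sqrt
    have : ((i + 1 : ℕ) : ℝ) ≤ (ell (min (2 ^ (i + 1)) K) : ℝ) := by exact_mod_cast h4
    push_cast at this
    exact this
  have h6 : 0 < Real.sqrt ((i : ℝ) + 1) := Real.sqrt_pos.2 (by positivity)
  refine h1.trans ?_
  calc FK K (2 ^ (i + 1)) / 2 ^ i ≤
        C * (((2 ^ (i + 1) : ℕ) : ℝ) / Real.sqrt (ell (min (2 ^ (i + 1)) K))) / 2 ^ i :=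
        div_le_div_of_nonneg_right (hC _ _) hp.le
    _ ≤ C * (((2 ^ (i + 1) : ℕ) : ℝ) / Real.sqrt ((i : ℝ) + 1)) / 2 ^ i := by
        apply div_le_div_of_nonneg_right _ hp.le
        apply mul_le_mul_of_nonneg_left _ hC0
        exact div_le_div_of_nonneg_left (Nat.cast_nonneg _) h6 h5
    _ = 2 * C / Real.sqrt ((i : ℝ) + 1) := by
        push_cast
        rw [pow_succ]
        field_simp

theorem energyK3 : ∃ C : ℝ, 0 < C ∧ ∀ N K : ℕ, 1 ≤ K → K ≤ N →
    ∑ x ∈ Qd N K, fK K (x.1.1 * x.1.2) ≤ C * (N * K) * ((1 + Real.log (ell K)) / ell K) := by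
  obtain ⟨C, hC1, hC⟩ := FK_bound
  have hC0 : 0 < C := by linarith
  refine ⟨16 * C ^ 4, by positivity, fun N K hK hKN => ?_⟩
  have hN0 : (0 : ℝ) ≤ N := Nat.cast_nonneg N
  have hK0 : (0 : ℝ) ≤ K := Nat.cast_nonneg K
  refine (energyK1 N K).trans ((energyK2 N K).trans ?_)
  -- pointwise
  have hpt : ∀ b ∈ Icc 1 K, fK K b * FK K b * WK N K b ≤
      2 * C ^ 3 * (N * K) * (1 / (Real.sqrt ((Nat.log 2 b : ℝ) + 1) *
        ((Nat.log 2 K + 1 - Nat.log 2 b : ℕ) : ℝ))) * (fK K b / b) := by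
    intro b hb
    rw [mem_Icc] at hb
    have hb0 : (0 : ℝ) < b := by exact_mod_cast hb.1
    have hi : Nat.log 2 b ≤ Nat.log 2 K := Nat.log_mono_right hb.2
    set w : ℝ := ((Nat.log 2 K + 1 - Nat.log 2 b : ℕ) : ℝ) / 2 with hw
    have hw0 : 0 < w := by
      have : 0 < Nat.log 2 K + 1 - Nat.log 2 b := by omega
      have : (0 : ℝ) < ((Nat.log 2 K + 1 - Nat.log 2 b : ℕ) : ℝ) := by exact_mod_cast this
      rw [hw]; linarith
    have hwK : w ≤ ell (K / b) := ell_div hb.1 hb.2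
    have hwK' : w ≤ ell (min (K / b) K) := by
      rw [min_eq_left (Nat.div_le_self K b)]
      exact hwK
    have hwN : w ≤ ell (min (N / b) K) := by
      refine hwK.trans ?_
      have : ell (K / b) ≤ ell (min (N / b) K) :=
        ell_mono (le_min (Nat.div_le_div_right hKN) (Nat.div_le_self K b))
      exact_mod_cast this
    have hsw : 0 < Real.sqrt w := Real.sqrt_pos.2 hw0
    have h1 : ∀ M : ℕ, w ≤ ell (min (M / b) K) → FK K (M / b) ≤ C * ((M / b : ℝ) / Real.sqrt w) := by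
      intro M hM
      refine (hC _ _).trans ?_
      apply mul_le_mul_of_nonneg_left _ hC0.le
      apply div_le_div₀ (by positivity) Nat.cast_div_le hsw (Real.sqrt_le_sqrt hM)
    have h2 : FK K b ≤ C * (b / Real.sqrt ((Nat.log 2 b : ℝ) + 1)) := by
      have := hC K b
      rw [min_eq_left hb.2] at this
      unfold ell at this
      push_cast at this
      exact this
    have h3 : WK N K b ≤ C * ((N / b : ℝ) / Real.sqrt w) * (C * ((K / b : ℝ) / Real.sqrt w)) := by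
      unfold WK
      exact mul_le_mul (h1 N hwN) (h1 K hwK') (FK_nonneg _ _) (by positivity)
    have h4 : Real.sqrt w * Real.sqrt w = w := Real.mul_self_sqrt hw0.le
    have h5 : C * ((N / b : ℝ) / Real.sqrt w) * (C * ((K / b : ℝ) / Real.sqrt w)) =
        C ^ 2 * (N * K) / (b ^ 2 * (Real.sqrt w * Real.sqrt w)) := by
      field_simp
    rw [h5, h4] at h3
    have hsi : 0 < Real.sqrt ((Nat.log 2 b : ℝ) + 1) := Real.sqrt_pos.2 (by positivity)
    calc fK K b * FK K b * WK N K b ≤ fK K b * (C * (b / Real.sqrt ((Nat.log 2 b : ℝ) + 1))) *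
          (C ^ 2 * (N * K) / (b ^ 2 * w)) := by
          apply mul_le_mul (mul_le_mul_of_nonneg_left h2 (fK_pos K b).le) h3 (WK_nonneg _ _ _)
          exact mul_nonneg (fK_pos K b).le (by positivity)
      _ = _ := by
          have : ((Nat.log 2 K + 1 - Nat.log 2 b : ℕ) : ℝ) = 2 * w := by rw [hw]; ring
          rw [this]
          field_simp
  have hblocks : ∑ b ∈ Icc 1 K, fK K b * FK K b * WK N K b ≤
      ∑ i ∈ range (Nat.log 2 K + 1), 4 * C ^ 4 * (N * K) *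
        (1 / (((i : ℝ) + 1) * ((Nat.log 2 K + 1 - i : ℕ) : ℝ))) := by
    refine (sum_le_sum hpt).trans ?_
    rw [← sum_fiberwise_of_maps_to (s := Icc 1 K) (t := range (Nat.log 2 K + 1))
      (g := fun b => Nat.log 2 b) (fun b hb => by
        rw [mem_range]
        exact Nat.lt_succ_of_le (Nat.log_mono_right (mem_Icc.1 hb).2))]
    apply sum_le_sum
    intro i hi
    rw [mem_range] at hi
    have hsi : 0 < Real.sqrt ((i : ℝ) + 1) := Real.sqrt_pos.2 (by positivity)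
    have hsq : Real.sqrt ((i : ℝ) + 1) * Real.sqrt ((i : ℝ) + 1) = (i : ℝ) + 1 :=
      Real.mul_self_sqrt (by positivity)
    have hLi : (0 : ℝ) < ((Nat.log 2 K + 1 - i : ℕ) : ℝ) := by
      have : 0 < Nat.log 2 K + 1 - i := by omega
      exact_mod_cast this
    calc ∑ b ∈ (Icc 1 K).filter (fun b => Nat.log 2 b = i),
          2 * C ^ 3 * (N * K) * (1 / (Real.sqrt ((Nat.log 2 b : ℝ) + 1) *
            ((Nat.log 2 K + 1 - Nat.log 2 b : ℕ) : ℝ))) * (fK K b / b)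
        = 2 * C ^ 3 * (N * K) * (1 / (Real.sqrt ((i : ℝ) + 1) *
            ((Nat.log 2 K + 1 - i : ℕ) : ℝ))) *
            ∑ b ∈ (Icc 1 K).filter (fun b => Nat.log 2 b = i), fK K b / b := by
          rw [mul_sum]
          apply sum_congr rfl
          intro b hb
          rw [(mem_filter.1 hb).2]
      _ ≤ 2 * C ^ 3 * (N * K) * (1 / (Real.sqrt ((i : ℝ) + 1) *
            ((Nat.log 2 K + 1 - i : ℕ) : ℝ))) * (2 * C / Real.sqrt ((i : ℝ) + 1)) :=
          mul_le_mul_of_nonneg_left (blockK hC0.le hC i K hK (by omega)) (by positivity)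
      _ = 4 * C ^ 4 * (N * K) * (1 / ((Real.sqrt ((i : ℝ) + 1) * Real.sqrt ((i : ℝ) + 1)) *
            ((Nat.log 2 K + 1 - i : ℕ) : ℝ))) := by
          field_simp
          ring
      _ = _ := by rw [hsq]
  have hconv := conv (Nat.log 2 K + 1) (by omega)
  rw [← mul_sum] at hblocks
  have hNK : 0 ≤ 4 * C ^ 4 * ((N : ℝ) * K) := by positivity
  have h9 := hblocks.trans (mul_le_mul_of_nonneg_left hconv hNK)
  have he : ((Nat.log 2 K + 1 : ℕ) : ℝ) = ell K := rfl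
  rw [he] at h9
  calc 2 * ∑ b ∈ Icc 1 K, fK K b * FK K b * WK N K b
      ≤ 2 * (4 * C ^ 4 * (N * K) * (2 * (1 + Real.log (ell K)) / ell K)) := by linarith
    _ = _ := by ring

end Pool.Agent.Run7.h545.MG
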