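import Pool.Agent.Run7.h545.MG.FS

/-! # The weighted multiplicative energy of `[1, N]` and `[1, K]` -/

set_option autoImplicit false

namespace Pool.Agent.Run7.h545.MG

open Finset
open ArithmeticFunction (cardFactors)
open Pool.Agent.Helper256.KM (wu_sum_inj)

lemma par {n k n' k' : ℕ} (hn : 1 ≤ n) (_ : 1 ≤ k) (hn' : 1 ≤ n') (_ : 1 ≤ k')
    (h : n * k = n' * k') :
    n = Nat.gcd n n' * (n / Nat.gcd n n') ∧ n' = Nat.gcd n n' * (n' / Nat.gcd n n') ∧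
    k = (n' / Nat.gcd n n') * (k / (n' / Nat.gcd n n')) ∧
    k' = (n / Nat.gcd n n') * (k / (n' / Nat.gcd n n')) := by
  have ha : 0 < Nat.gcd n n' := Nat.gcd_pos_of_pos_left _ (by omega)
  have h1 : Nat.gcd n n' * (n / Nat.gcd n n') = n := Nat.mul_div_cancel' (Nat.gcd_dvd_left _ _)
  have h2 : Nat.gcd n n' * (n' / Nat.gcd n n') = n' := Nat.mul_div_cancel' (Nat.gcd_dvd_right _ _)
  have hco : Nat.Coprime (n / Nat.gcd n n') (n' / Nat.gcd n n') :=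
    Nat.coprime_div_gcd_div_gcd ha
  obtain ⟨a, haa⟩ : ∃ a, a = Nat.gcd n n' := ⟨_, rfl⟩
  obtain ⟨b, hb⟩ : ∃ b, b = n / Nat.gcd n n' := ⟨_, rfl⟩
  obtain ⟨c, hc⟩ : ∃ c, c = n' / Nat.gcd n n' := ⟨_, rfl⟩
  rw [← haa] at ha
  rw [← hb, ← haa] at h1
  rw [← hc, ← haa] at h2
  rw [← hb, ← hc] at hco
  rw [← hb, ← hc, ← haa]
  have hc0 : 0 < c := by
    rcases Nat.eq_zero_or_pos c with h0 | h0
    · rw [h0, mul_zero] at h2; omega
    · exact h0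
  have h3 : b * k = c * k' := by
    have : a * (b * k) = a * (c * k') := by
      rw [← mul_assoc, ← mul_assoc, h1, h2, h]
    exact Nat.eq_of_mul_eq_mul_left ha this
  have h4 : c ∣ k := hco.symm.dvd_of_dvd_mul_left (Dvd.intro _ h3.symm)
  have h5 : c * (k / c) = k := Nat.mul_div_cancel' h4
  refine ⟨h1.symm, h2.symm, h5.symm, ?_⟩
  have h6 : c * k' = c * (b * (k / c)) := by
    calc c * k' = b * k := h3.symm
      _ = b * (c * (k / c)) := by rw [h5]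
      _ = _ := by ring
  exact Nat.eq_of_mul_eq_mul_left hc0 h6

/-- the sums over the two outer variables -/
noncomputable def W (N K M : ℕ) : ℝ := F (N / M) * F (K / M)

lemma W_nonneg (N K M : ℕ) : 0 ≤ W N K M := mul_nonneg (F_nonneg _) (F_nonneg _)

/-- the quadruples with `n k = n' k'` -/
def Qd (N K : ℕ) : Finset ((ℕ × ℕ) × (ℕ × ℕ)) :=
  ((Icc 1 N ×ˢ Icc 1 K) ×ˢ (Icc 1 N ×ˢ Icc 1 K)).filter (fun x => x.1.1 * x.1.2 = x.2.1 * x.2.2)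

lemma mem_Qd {N K : ℕ} {x : (ℕ × ℕ) × (ℕ × ℕ)} : x ∈ Qd N K ↔
    (((1 ≤ x.1.1 ∧ x.1.1 ≤ N) ∧ (1 ≤ x.1.2 ∧ x.1.2 ≤ K)) ∧
      ((1 ≤ x.2.1 ∧ x.2.1 ≤ N) ∧ (1 ≤ x.2.2 ∧ x.2.2 ≤ K))) ∧ x.1.1 * x.1.2 = x.2.1 * x.2.2 := by
  unfold Qd
  rw [mem_filter, mem_product, mem_product, mem_product, mem_Icc, mem_Icc, mem_Icc, mem_Icc]

lemma energy1 (N K : ℕ) : ∑ x ∈ Qd N K, f (x.1.1 * x.1.2) ≤
    ∑ bc ∈ Icc 1 K ×ˢ Icc 1 K, f bc.1 * f bc.2 * W N K (max bc.1 bc.2) := by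
  classical
  have h : ∑ x ∈ Qd N K, f (x.1.1 * x.1.2) ≤
      ∑ y ∈ (Icc 1 K ×ˢ Icc 1 K).sigma (fun bc : ℕ × ℕ =>
        Icc 1 (N / max bc.1 bc.2) ×ˢ Icc 1 (K / max bc.1 bc.2)),
        f y.1.1 * f y.1.2 * (f y.2.1 * f y.2.2) := by
    apply wu_sum_inj (Qd N K) _
      (fun x => (⟨(x.1.1 / Nat.gcd x.1.1 x.2.1, x.2.1 / Nat.gcd x.1.1 x.2.1),
        (Nat.gcd x.1.1 x.2.1, x.1.2 / (x.2.1 / Nat.gcd x.1.1 x.2.1))⟩ : Σ _ : ℕ × ℕ, ℕ × ℕ))
    · rintro ⟨⟨n, k⟩, ⟨n', k'⟩⟩ hx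
      rw [mem_Qd] at hx
      simp only at hx
      obtain ⟨⟨⟨⟨g1, g2⟩, g3, g4⟩, ⟨g5, g6⟩, g7, g8⟩, g9⟩ := hx
      obtain ⟨e1, e2, e3, e4⟩ := par g1 g3 g5 g7 g9
      simp only
      obtain ⟨a, haa⟩ : ∃ a, a = Nat.gcd n n' := ⟨_, rfl⟩
      rw [← haa] at e1 e2 e3 e4 ⊢
      obtain ⟨b, hb⟩ : ∃ b, b = n / a := ⟨_, rfl⟩
      obtain ⟨c, hc⟩ : ∃ c, c = n' / a := ⟨_, rfl⟩
      rw [← hb] at e1 e4 ⊢
      rw [← hc] at e2 e3 e4 ⊢
      obtain ⟨d, hd⟩ : ∃ d, d = k / c := ⟨_, rfl⟩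
      rw [← hd] at e3 e4 ⊢
      have a0 : 0 < a := Nat.pos_of_ne_zero (fun h0 => by rw [h0, zero_mul] at e1; omega)
      have b0 : 0 < b := Nat.pos_of_ne_zero (fun h0 => by rw [h0, mul_zero] at e1; omega)
      have c0 : 0 < c := Nat.pos_of_ne_zero (fun h0 => by rw [h0, mul_zero] at e2; omega)
      have d0 : 0 < d := Nat.pos_of_ne_zero (fun h0 => by rw [h0, mul_zero] at e3; omega)
      have m0 : 0 < max b c := lt_of_lt_of_le b0 (le_max_left _ _)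
      rw [mem_sigma, mem_product, mem_product, mem_Icc, mem_Icc, mem_Icc, mem_Icc]
      simp only
      refine ⟨⟨⟨b0, ?_⟩, ⟨c0, ?_⟩⟩, ⟨a0, ?_⟩, ⟨d0, ?_⟩⟩
      · calc b ≤ b * d := Nat.le_mul_of_pos_right _ d0
          _ = k' := e4.symm
          _ ≤ K := g8
      · calc c ≤ c * d := Nat.le_mul_of_pos_right _ d0
          _ = k := e3.symm
          _ ≤ K := g4
      · rw [Nat.le_div_iff_mul_le m0]
        rcases max_choice b c with hm | hm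
        · rw [hm, ← e1]; exact g2
        · rw [hm, ← e2]; exact g6
      · rw [Nat.le_div_iff_mul_le m0]
        rcases max_choice b c with hm | hm
        · rw [hm, mul_comm, ← e4]; exact g8
        · rw [hm, mul_comm, ← e3]; exact g4
    · rintro ⟨⟨n, k⟩, ⟨n', k'⟩⟩ hx ⟨⟨m, l⟩, ⟨m', l'⟩⟩ hy hxy
      rw [mem_coe, mem_Qd] at hx hy
      simp only at hx hy
      obtain ⟨⟨⟨⟨g1, g2⟩, g3, g4⟩, ⟨g5, g6⟩, g7, g8⟩, g9⟩ := hx
      obtain ⟨⟨⟨⟨r1, r2⟩, r3, r4⟩, ⟨r5, r6⟩, r7, r8⟩, r9⟩ := hy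
      obtain ⟨e1, e2, e3, e4⟩ := par g1 g3 g5 g7 g9
      obtain ⟨s1, s2, s3, s4⟩ := par r1 r3 r5 r7 r9
      simp only [Sigma.mk.injEq, Prod.mk.injEq, heq_eq_eq] at hxy
      obtain ⟨⟨t1, t2⟩, t3, t4⟩ := hxy
      have u1 : n = m := by rw [e1, s1, t1, t3]
      have u2 : n' = m' := by rw [e2, s2, t2, t3]
      have u3 : k = l := by rw [e3, s3, t4, t2]
      have u4 : k' = l' := by rw [e4, s4, t4, t1]
      rw [u1, u2, u3, u4]
    · rintro ⟨⟨n, k⟩, ⟨n', k'⟩⟩ hx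
      rw [mem_Qd] at hx
      simp only at hx
      obtain ⟨⟨⟨⟨g1, g2⟩, g3, g4⟩, ⟨g5, g6⟩, g7, g8⟩, g9⟩ := hx
      obtain ⟨e1, e2, e3, e4⟩ := par g1 g3 g5 g7 g9
      simp only
      obtain ⟨a, haa⟩ : ∃ a, a = Nat.gcd n n' := ⟨_, rfl⟩
      rw [← haa] at e1 e2 e3 e4 ⊢
      obtain ⟨b, hb⟩ : ∃ b, b = n / a := ⟨_, rfl⟩
      obtain ⟨c, hc⟩ : ∃ c, c = n' / a := ⟨_, rfl⟩
      rw [← hb] at e1 e4 ⊢
      rw [← hc] at e2 e3 e4 ⊢
      obtain ⟨d, hd⟩ : ∃ d, d = k / c := ⟨_, rfl⟩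
      rw [← hd] at e3 e4 ⊢
      have a0 : a ≠ 0 := fun h0 => by rw [h0, zero_mul] at e1; omega
      have b0 : b ≠ 0 := fun h0 => by rw [h0, mul_zero] at e1; omega
      have c0 : c ≠ 0 := fun h0 => by rw [h0, mul_zero] at e2; omega
      have d0 : d ≠ 0 := fun h0 => by rw [h0, mul_zero] at e3; omega
      rw [e1, e3, f_mul (mul_ne_zero a0 b0) (mul_ne_zero c0 d0), f_mul a0 b0, f_mul c0 d0]
      apply le_of_eq
      ring
    · intro y _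
      exact mul_nonneg (mul_nonneg (f_pos _).le (f_pos _).le) (mul_nonneg (f_pos _).le (f_pos _).le)
  refine h.trans (le_of_eq ?_)
  rw [sum_sigma]
  apply sum_congr rfl
  intro bc _
  unfold W F
  rw [sum_mul_sum, ← sum_product', mul_sum]

lemma energy2 (N K : ℕ) : ∑ bc ∈ Icc 1 K ×ˢ Icc 1 K, f bc.1 * f bc.2 * W N K (max bc.1 bc.2) ≤
    2 * ∑ b ∈ Icc 1 K, f b * F b * W N K b := by
  have key : ∑ b ∈ Icc 1 K, ∑ c ∈ Icc 1 K, (if c ≤ b then f b * f c * W N K b else 0) =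
      ∑ b ∈ Icc 1 K, f b * F b * W N K b := by
    apply sum_congr rfl
    intro b hb
    rw [mem_Icc] at hb
    rw [← sum_filter]
    have : (Icc 1 K).filter (fun c => c ≤ b) = Icc 1 b := by
      ext c
      rw [mem_filter, mem_Icc, mem_Icc]
      omega
    rw [this]
    unfold F
    rw [mul_sum, sum_mul]
  rw [sum_product]
  calc ∑ b ∈ Icc 1 K, ∑ c ∈ Icc 1 K, f b * f c * W N K (max b c)
      ≤ ∑ b ∈ Icc 1 K, ∑ c ∈ Icc 1 K, ((if c ≤ b then f b * f c * W N K b else 0) +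
          (if b ≤ c then f c * f b * W N K c else 0)) := by
        apply sum_le_sum
        intro b _
        apply sum_le_sum
        intro c _
        have h1 : 0 ≤ f b * f c * W N K b :=
          mul_nonneg (mul_nonneg (f_pos _).le (f_pos _).le) (W_nonneg _ _ _)
        have h2 : 0 ≤ f c * f b * W N K c :=
          mul_nonneg (mul_nonneg (f_pos _).le (f_pos _).le) (W_nonneg _ _ _)
        rcases le_total c b with h | h
        · rw [max_eq_left h, if_pos h]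
          split_ifs <;> linarith
        · rw [max_eq_right h, if_pos h]
          have h3 : f b * f c * W N K c = f c * f b * W N K c := by ring
          split_ifs <;> linarith
    _ = ∑ b ∈ Icc 1 K, ∑ c ∈ Icc 1 K, (if c ≤ b then f b * f c * W N K b else 0) +
          ∑ b ∈ Icc 1 K, ∑ c ∈ Icc 1 K, (if b ≤ c then f c * f b * W N K c else 0) := by
        rw [← sum_add_distrib]
        apply sum_congr rfl
        intro b _
        rw [sum_add_distrib]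
    _ = _ := by
        rw [sum_comm (s := Icc 1 K) (t := Icc 1 K)
          (f := fun b c => if b ≤ c then f c * f b * W N K c else 0), key]
        ring

end Pool.Agent.Run7.h545.MG
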