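import Pool.Agent.Run7.h545.MG.EN

/-! # The weighted multiplicative energy: the bound -/

set_option autoImplicit false

namespace Pool.Agent.Run7.h545.MG

open Finset

lemma harm (n : ℕ) : ∑ i ∈ range n, 1 / ((i : ℝ) + 1) ≤ 1 + Real.log n := by
  have h := harmonic_le_one_add_log n
  unfold harmonic at h
  push_cast at h
  simpa only [one_div] using h

lemma conv (n : ℕ) (hn : 1 ≤ n) : ∑ i ∈ range n, 1 / (((i : ℝ) + 1) * ((n - i : ℕ) : ℝ)) ≤
    2 * (1 + Real.log n) / n := by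
  have hn0 : (1 : ℝ) ≤ n := by exact_mod_cast hn
  have h1 : ∀ i ∈ range n, 1 / (((i : ℝ) + 1) * ((n - i : ℕ) : ℝ)) =
      1 / ((n : ℝ) + 1) * (1 / ((i : ℝ) + 1) + 1 / ((n - i : ℕ) : ℝ)) := by
    intro i hi
    rw [mem_range] at hi
    have h2 : ((n - i : ℕ) : ℝ) = (n : ℝ) - i := by rw [Nat.cast_sub hi.le]
    have h3 : (0 : ℝ) < (n : ℝ) - i := by
      have : (i : ℝ) < n := by exact_mod_cast hi
      linarith
    have h4 : (0 : ℝ) < (i : ℝ) + 1 := by positivity
    rw [h2]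
    field_simp
    ring
  have h2 : ∑ i ∈ range n, 1 / ((n - i : ℕ) : ℝ) = ∑ i ∈ range n, 1 / ((i : ℝ) + 1) := by
    rw [← sum_range_reflect (fun j : ℕ => 1 / ((j : ℝ) + 1)) n]
    apply sum_congr rfl
    intro i hi
    rw [mem_range] at hi
    have : ((n - 1 - i : ℕ) : ℝ) + 1 = ((n - i : ℕ) : ℝ) := by
      have h3 : n - 1 - i + 1 = n - i := by omega
      exact_mod_cast h3
    rw [this]
  have h3 := harm n
  have hl : 0 ≤ Real.log n := Real.log_nonneg hn0
  rw [sum_congr rfl h1, ← mul_sum, sum_add_distrib, h2]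
  calc 1 / ((n : ℝ) + 1) * (∑ i ∈ range n, 1 / ((i : ℝ) + 1) + ∑ i ∈ range n, 1 / ((i : ℝ) + 1))
      ≤ 1 / ((n : ℝ) + 1) * ((1 + Real.log n) + (1 + Real.log n)) := by
        apply mul_le_mul_of_nonneg_left (by linarith) (by positivity)
    _ = 2 * (1 + Real.log n) / (n + 1) := by ring
    _ ≤ _ := by
        apply div_le_div_of_nonneg_left (by positivity) (by linarith) (by linarith)

lemma ell_div {b K : ℕ} (hb : 1 ≤ b) (hK : b ≤ K) :
    ((Nat.log 2 K + 1 - Nat.log 2 b : ℕ) : ℝ) / 2 ≤ ell (K / b) := by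
  have hi : Nat.log 2 b ≤ Nat.log 2 K := Nat.log_mono_right hK
  have h : Nat.log 2 K + 1 - Nat.log 2 b ≤ 2 * ell (K / b) := by
    unfold ell
    rcases Nat.eq_or_lt_of_le hi with h | h
    · omega
    · have h1 : 2 ^ (Nat.log 2 K - Nat.log 2 b - 1) ≤ K / b := by
        rw [Nat.le_div_iff_mul_le (by omega)]
        have h2 : b < 2 ^ (Nat.log 2 b + 1) := Nat.lt_pow_succ_log_self (by norm_num) b
        calc 2 ^ (Nat.log 2 K - Nat.log 2 b - 1) * b
            ≤ 2 ^ (Nat.log 2 K - Nat.log 2 b - 1) * 2 ^ (Nat.log 2 b + 1) :=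
              Nat.mul_le_mul_left _ h2.le
          _ = 2 ^ Nat.log 2 K := by
              rw [← pow_add]
              congr 1
              omega
          _ ≤ K := Nat.pow_log_le_self 2 (by omega)
      have h3 := Nat.le_log_of_pow_le (by norm_num : 1 < 2) h1
      omega
  have h' : ((Nat.log 2 K + 1 - Nat.log 2 b : ℕ) : ℝ) ≤ 2 * (ell (K / b) : ℝ) := by exact_mod_cast h
  linarith

lemma ell_mono {x y : ℕ} (h : x ≤ y) : ell x ≤ ell y := by
  unfold ell
  exact Nat.add_le_add_right (Nat.log_mono_right h) 1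

lemma block {C : ℝ} (hC0 : 0 ≤ C) (hC : ∀ x : ℕ, F x ≤ C * (x / Real.sqrt (ell x))) (i K : ℕ) :
    ∑ b ∈ (Icc 1 K).filter (fun b => Nat.log 2 b = i), f b / b ≤ 2 * C / Real.sqrt ((i : ℝ) + 1) := by
  have hp : (0 : ℝ) < 2 ^ i := by positivity
  have h1 : ∑ b ∈ (Icc 1 K).filter (fun b => Nat.log 2 b = i), f b / b ≤ F (2 ^ (i + 1)) / 2 ^ i := by
    calc ∑ b ∈ (Icc 1 K).filter (fun b => Nat.log 2 b = i), f b / b
        ≤ ∑ b ∈ (Icc 1 K).filter (fun b => Nat.log 2 b = i), f b / 2 ^ i := by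
          apply sum_le_sum
          intro b hb
          rw [mem_filter, mem_Icc] at hb
          have h2 : 2 ^ i ≤ b := by
            rw [← hb.2]; exact Nat.pow_log_le_self 2 (by omega)
          have h3 : (2 : ℝ) ^ i ≤ b := by exact_mod_cast h2
          exact div_le_div_of_nonneg_left (f_pos b).le hp h3
      _ ≤ ∑ b ∈ Icc 1 (2 ^ (i + 1)), f b / 2 ^ i := by
          apply sum_le_sum_of_subset_of_nonneg
          · intro b hb
            rw [mem_filter, mem_Icc] at hb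
            rw [mem_Icc]
            have h2 : b < 2 ^ (Nat.log 2 b + 1) := Nat.lt_pow_succ_log_self (by norm_num) b
            rw [hb.2] at h2
            exact ⟨hb.1.1, h2.le⟩
          · intro b _ _
            exact div_nonneg (f_pos b).le hp.le
      _ = F (2 ^ (i + 1)) / 2 ^ i := by unfold F; rw [sum_div]
  have h4 : ell (2 ^ (i + 1)) = i + 2 := by
    unfold ell; rw [Nat.log_pow (by norm_num)]
  have h5 : Real.sqrt ((i : ℝ) + 1) ≤ Real.sqrt (ell (2 ^ (i + 1))) := by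
    apply Real.sqrt_le_sqrt
    rw [h4]; push_cast; linarith
  have h6 : 0 < Real.sqrt ((i : ℝ) + 1) := Real.sqrt_pos.2 (by positivity)
  refine h1.trans ?_
  calc F (2 ^ (i + 1)) / 2 ^ i ≤ C * (((2 ^ (i + 1) : ℕ) : ℝ) / Real.sqrt (ell (2 ^ (i + 1)))) / 2 ^ i :=
        div_le_div_of_nonneg_right (hC _) hp.le
    _ ≤ C * (((2 ^ (i + 1) : ℕ) : ℝ) / Real.sqrt ((i : ℝ) + 1)) / 2 ^ i := by
        apply div_le_div_of_nonneg_right _ hp.le
        apply mul_le_mul_of_nonneg_left _ hC0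
        exact div_le_div_of_nonneg_left (Nat.cast_nonneg _) h6 h5
    _ = 2 * C / Real.sqrt ((i : ℝ) + 1) := by
        push_cast
        rw [pow_succ]
        field_simp

theorem energy3 : ∃ C : ℝ, 0 < C ∧ ∀ N K : ℕ, 1 ≤ K → K ≤ N →
    ∑ x ∈ Qd N K, f (x.1.1 * x.1.2) ≤ C * (N * K) * ((1 + Real.log (ell K)) / ell K) := by
  obtain ⟨C, hC1, hC⟩ := F_bound
  have hC0 : 0 < C := by linarith
  refine ⟨16 * C ^ 4, by positivity, fun N K hK hKN => ?_⟩
  have hN0 : (0 : ℝ) ≤ N := Nat.cast_nonneg N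
  have hK0 : (0 : ℝ) ≤ K := Nat.cast_nonneg K
  refine (energy1 N K).trans ((energy2 N K).trans ?_)
  -- pointwise
  have hpt : ∀ b ∈ Icc 1 K, f b * F b * W N K b ≤
      2 * C ^ 3 * (N * K) * (1 / (Real.sqrt ((Nat.log 2 b : ℝ) + 1) *
        ((Nat.log 2 K + 1 - Nat.log 2 b : ℕ) : ℝ))) * (f b / b) := by
    intro b hb
    rw [mem_Icc] at hb
    have hb0 : (0 : ℝ) < b := by exact_mod_cast hb.1
    have hi : Nat.log 2 b ≤ Nat.log 2 K := Nat.log_mono_right hb.2
    set w : ℝ := ((Nat.log 2 K + 1 - Nat.log 2 b : ℕ) : ℝ) / 2 with hw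
    have hw0 : 0 < w := by
      have : 0 < Nat.log 2 K + 1 - Nat.log 2 b := by omega
      have : (0 : ℝ) < ((Nat.log 2 K + 1 - Nat.log 2 b : ℕ) : ℝ) := by exact_mod_cast this
      rw [hw]; linarith
    have hwK : w ≤ ell (K / b) := ell_div hb.1 hb.2
    have hwN : w ≤ ell (N / b) := by
      refine hwK.trans ?_
      exact_mod_cast ell_mono (Nat.div_le_div_right hKN)
    have hsw : 0 < Real.sqrt w := Real.sqrt_pos.2 hw0
    have h1 : ∀ M : ℕ, w ≤ ell (M / b) → F (M / b) ≤ C * ((M / b : ℝ) / Real.sqrt w) := by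
      intro M hM
      refine (hC _).trans ?_
      apply mul_le_mul_of_nonneg_left _ hC0.le
      apply div_le_div₀ (by positivity) Nat.cast_div_le hsw (Real.sqrt_le_sqrt hM)
    have h2 : F b ≤ C * (b / Real.sqrt ((Nat.log 2 b : ℝ) + 1)) := by
      have := hC b
      unfold ell at this
      push_cast at this
      exact this
    have h3 : W N K b ≤ C * ((N / b : ℝ) / Real.sqrt w) * (C * ((K / b : ℝ) / Real.sqrt w)) := by
      unfold W
      exact mul_le_mul (h1 N hwN) (h1 K hwK) (F_nonneg _) (by positivity)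
    have h4 : Real.sqrt w * Real.sqrt w = w := Real.mul_self_sqrt hw0.le
    have h5 : C * ((N / b : ℝ) / Real.sqrt w) * (C * ((K / b : ℝ) / Real.sqrt w)) =
        C ^ 2 * (N * K) / (b ^ 2 * (Real.sqrt w * Real.sqrt w)) := by
      field_simp
    rw [h5, h4] at h3
    have hsi : 0 < Real.sqrt ((Nat.log 2 b : ℝ) + 1) := Real.sqrt_pos.2 (by positivity)
    calc f b * F b * W N K b ≤ f b * (C * (b / Real.sqrt ((Nat.log 2 b : ℝ) + 1))) *
          (C ^ 2 * (N * K) / (b ^ 2 * w)) := by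
          apply mul_le_mul (mul_le_mul_of_nonneg_left h2 (f_pos b).le) h3 (W_nonneg _ _ _)
          exact mul_nonneg (f_pos b).le (by positivity)
      _ = _ := by
          have : ((Nat.log 2 K + 1 - Nat.log 2 b : ℕ) : ℝ) = 2 * w := by rw [hw]; ring
          rw [this]
          field_simp
  have hblocks : ∑ b ∈ Icc 1 K, f b * F b * W N K b ≤
      ∑ i ∈ range (Nat.log 2 K + 1), 4 * C ^ 4 * (N * K) *
        (1 / (((i : ℝ) + 1) * ((Nat.log 2 K + 1 - i : ℕ) : ℝ))) := by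
    refine (sum_le_sum hpt).trans ?_
    rw [← sum_fiberwise_of_maps_to (s := Icc 1 K) (t := range (Nat.log 2 K + 1))
      (g := fun b => Nat.log 2 b) (fun b hb => by
        rw [mem_range]
        exact Nat.lt_succ_of_le (Nat.log_mono_right (mem_Icc.1 hb).2))]
    apply sum_le_sum
    intro i hi
    rw [mem_range] at hi
    have hsi : 0 < Real.sqrt ((i : ℝ) + 1) := Real.sqrt_pos.2 (by positivity)
    have hsq : Real.sqrt ((i : ℝ) + 1) * Real.sqrt ((i : ℝ) + 1) = (i : ℝ) + 1 :=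
      Real.mul_self_sqrt (by positivity)
    have hLi : (0 : ℝ) < ((Nat.log 2 K + 1 - i : ℕ) : ℝ) := by
      have : 0 < Nat.log 2 K + 1 - i := by omega
      exact_mod_cast this
    calc ∑ b ∈ (Icc 1 K).filter (fun b => Nat.log 2 b = i),
          2 * C ^ 3 * (N * K) * (1 / (Real.sqrt ((Nat.log 2 b : ℝ) + 1) *
            ((Nat.log 2 K + 1 - Nat.log 2 b : ℕ) : ℝ))) * (f b / b)
        = 2 * C ^ 3 * (N * K) * (1 / (Real.sqrt ((i : ℝ) + 1) *
            ((Nat.log 2 K + 1 - i : ℕ) : ℝ))) *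
            ∑ b ∈ (Icc 1 K).filter (fun b => Nat.log 2 b = i), f b / b := by
          rw [mul_sum]
          apply sum_congr rfl
          intro b hb
          rw [(mem_filter.1 hb).2]
      _ ≤ 2 * C ^ 3 * (N * K) * (1 / (Real.sqrt ((i : ℝ) + 1) *
            ((Nat.log 2 K + 1 - i : ℕ) : ℝ))) * (2 * C / Real.sqrt ((i : ℝ) + 1)) :=
          mul_le_mul_of_nonneg_left (block hC0.le hC i K) (by positivity)
      _ = 4 * C ^ 4 * (N * K) * (1 / ((Real.sqrt ((i : ℝ) + 1) * Real.sqrt ((i : ℝ) + 1)) *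
            ((Nat.log 2 K + 1 - i : ℕ) : ℝ))) := by
          field_simp
          ring
      _ = _ := by rw [hsq]
  have hconv := conv (Nat.log 2 K + 1) (by omega)
  rw [← mul_sum] at hblocks
  have hNK : 0 ≤ 4 * C ^ 4 * ((N : ℝ) * K) := by positivity
  have h9 := hblocks.trans (mul_le_mul_of_nonneg_left hconv hNK)
  have he : ((Nat.log 2 K + 1 : ℕ) : ℝ) = ell K := rfl
  rw [he] at h9
  calc 2 * ∑ b ∈ Icc 1 K, f b * F b * W N K b
      ≤ 2 * (4 * C ^ 4 * (N * K) * (2 * (1 + Real.log (ell K)) / ell K)) := by linarith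
    _ = _ := by ring

end Pool.Agent.Run7.h545.MG
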