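import Pool.Agent.Run7.h545.MG.TY
import Pool.Agent.Run7.h545.MG.FK

/-! # Almost all integers have at most `(1 + ε) log log K` prime factors up to `K` -/

set_option autoImplicit false

namespace Pool.Agent.Run7.h545.MG

open Finset Filter
open Pool.Agent.Y323.EF (ff LL turan cheb LL_nonneg sum_ff sum_inv_sq_le)
open Pool.Agent.Helper256.KM (mertens_inv)

lemma omK_factorial (K M : ℕ) : ∑ m ∈ Icc 1 M, om K m = om K (Nat.factorial M) := by
  induction M with
  | zero => simp [om]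
  | succ M ih =>
    rw [sum_Icc_succ_top (by omega), ih, Nat.factorial_succ,
      om_mul K (by omega) (Nat.factorial_ne_zero M), add_comm]

lemma omK_le (K M : ℕ) : (om K (Nat.factorial M) : ℝ) ≤
    M * (∑ q ∈ (Icc 1 K).filter Nat.Prime, (1 : ℝ) / q + 2) := by
  unfold om
  push_cast
  have hs := sum_inv_sq_le ((Icc 1 K).filter Nat.Prime) (fun q hq => (mem_filter.1 hq).2)
  have hM : (0 : ℝ) ≤ M := Nat.cast_nonneg M
  calc ∑ q ∈ (Icc 1 K).filter Nat.Prime, (((Nat.factorial M).factorization q : ℕ) : ℝ)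
      ≤ ∑ q ∈ (Icc 1 K).filter Nat.Prime, ((M : ℝ) * (1 / q) + 2 * M * ((q : ℝ) ^ 2)⁻¹) := by
        apply sum_le_sum
        intro q hq
        rw [mem_filter] at hq
        have h1 := Nat.factorization_factorial_le_div_pred hq.2 M
        have hq2 : (2 : ℝ) ≤ q := by exact_mod_cast hq.2.two_le
        have h2 : (((Nat.factorial M).factorization q : ℕ) : ℝ) ≤ (M : ℝ) / (q - 1) := by
          refine (by exact_mod_cast h1 : (((Nat.factorial M).factorization q : ℕ) : ℝ) ≤ ((M / (q - 1) : ℕ) : ℝ)).trans ?_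
          refine Nat.cast_div_le.trans (le_of_eq ?_)
          rw [Nat.cast_sub hq.2.one_lt.le]
          norm_num
        refine h2.trans ?_
        have h3 : (1 : ℝ) / (q - 1) ≤ 1 / q + 2 * ((q : ℝ) ^ 2)⁻¹ := by
          have h4 : (1 : ℝ) / q + 2 * ((q : ℝ) ^ 2)⁻¹ = (q + 2) / q ^ 2 := by field_simp
          rw [h4, div_le_div_iff₀ (by linarith) (by positivity)]
          nlinarith
        calc (M : ℝ) / (q - 1) = M * (1 / (q - 1)) := by ring
          _ ≤ M * (1 / q + 2 * ((q : ℝ) ^ 2)⁻¹) := mul_le_mul_of_nonneg_left h3 hM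
          _ = _ := by ring
    _ = M * ∑ q ∈ (Icc 1 K).filter Nat.Prime, (1 : ℝ) / q +
          2 * M * ∑ q ∈ (Icc 1 K).filter Nat.Prime, ((q : ℝ) ^ 2)⁻¹ := by
        rw [sum_add_distrib, mul_sum, mul_sum]
    _ ≤ M * ∑ q ∈ (Icc 1 K).filter Nat.Prime, (1 : ℝ) / q + 2 * M * 1 := by
        gcongr
    _ = _ := by ring

/-- the mean of the difference is bounded -/
lemma omK_diff {K M : ℕ} (hKM : K ≤ M) : ∑ m ∈ Icc 1 M, ((om K m : ℝ) - ff (PN K) m) ≤ 4 * M := by
  rw [sum_sub_distrib]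
  have h1 : ∑ m ∈ Icc 1 M, (om K m : ℝ) = (om K (Nat.factorial M) : ℝ) := by
    rw [← omK_factorial]; push_cast; rfl
  have h2 := omK_le K M
  have h3 := top_half K
  have h4 := sum_ff (PN K) M
  rw [Ioc_zero] at h4
  have h5 : (2 : ℝ) * ((PN K).card : ℝ) ≤ M := by exact_mod_cast (PN_card K).trans hKM
  have hN : (0 : ℝ) ≤ M := Nat.cast_nonneg M
  have h6 := mul_le_mul_of_nonneg_left h3 hN
  rw [h1]
  nlinarith

lemma ff_leK (K m : ℕ) (hm : m ≠ 0) : ff (PN K) m ≤ om K m := by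
  unfold ff om
  push_cast
  have hsub : PN K ⊆ (Icc 1 K).filter Nat.Prime := by
    intro q hq
    unfold PN at hq
    rw [mem_filter, mem_Icc] at hq ⊢
    exact ⟨⟨hq.1.1, hq.1.2.trans (Nat.div_le_self K 2)⟩, hq.2⟩
  refine le_trans ?_ (sum_le_sum_of_subset_of_nonneg hsub fun _ _ _ => Nat.cast_nonneg _)
  apply sum_le_sum
  intro q hq
  by_cases h : q ∣ m
  · rw [if_pos h]
    have := (PN_prime hq).factorization_pos_of_dvd hm h
    exact_mod_cast this
  · rw [if_neg h]
    exact Nat.cast_nonneg _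

/-- **Hardy and Ramanujan.** -/
theorem typK (ε η : ℝ) (hε : 0 < ε) (hη : 0 < η) : ∃ K₀ : ℕ, ∀ K : ℕ, K₀ ≤ K → ∀ N : ℕ, K ≤ N →
    (((Icc 1 N).filter fun m => (1 + ε) * Real.log (Real.log K) < (om K m : ℝ)).card : ℝ) ≤
      η * N := by
  obtain ⟨C, hC⟩ := mertens_inv
  set C1 : ℝ := |C| with hC1
  have hC10 : 0 ≤ C1 := abs_nonneg _
  set T : ℝ := 8 / η with hT
  have hT0 : 0 < T := by positivity
  set B : ℝ := 2 * ((1 + ε) * C1 + T) / ε + 16 / (ε ^ 2 * η) + C1 + 1 with hB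
  have hll : Tendsto (fun M : ℕ => Real.log (Real.log (M : ℝ))) atTop atTop :=
    Real.tendsto_log_atTop.comp (Real.tendsto_log_atTop.comp tendsto_natCast_atTop_atTop)
  obtain ⟨M₀, hM₀⟩ := eventually_atTop.1 (hll.eventually_ge_atTop B)
  refine ⟨2 * M₀ + 6, fun K hK N hKN => ?_⟩
  have hM : M₀ ≤ K / 2 := by omega
  have hM3 : 3 ≤ K / 2 := by omega
  have hB1 := hM₀ _ hM
  have hm := abs_le.1 (hC (K / 2) hM3)
  have hCle : C ≤ C1 := le_abs_self C
  set L : ℝ := LL (PN K) with hL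
  have hLlo : Real.log (Real.log ((K / 2 : ℕ) : ℝ)) - C1 ≤ L := by
    have := hm.1
    rw [hL]
    unfold LL PN
    linarith
  have hLup : L ≤ Real.log (Real.log K) + C1 := by
    have h1 := hm.2
    have h3 : (3 : ℝ) ≤ ((K / 2 : ℕ) : ℝ) := by exact_mod_cast hM3
    have h4 : ((K / 2 : ℕ) : ℝ) ≤ K := by exact_mod_cast Nat.div_le_self K 2
    have h2 : Real.log (Real.log ((K / 2 : ℕ) : ℝ)) ≤ Real.log (Real.log K) :=
      Real.log_le_log (Real.log_pos (by linarith)) (Real.log_le_log (by linarith) h4)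
    rw [hL]
    unfold LL PN
    linarith
  have hL1 : 2 * ((1 + ε) * C1 + T) / ε + 16 / (ε ^ 2 * η) + 1 ≤ L := by
    have : B - C1 = 2 * ((1 + ε) * C1 + T) / ε + 16 / (ε ^ 2 * η) + 1 := by rw [hB]; ring
    linarith
  have hq1 : 0 ≤ 2 * ((1 + ε) * C1 + T) / ε := by positivity
  have hq2 : 0 ≤ 16 / (ε ^ 2 * η) := by positivity
  have hL0 : 0 < L := by linarith
  have hN0 : (0 : ℝ) ≤ N := Nat.cast_nonneg N
  -- the two exceptional sets
  set S1 := (Icc 1 N).filter (fun m => T ≤ (om K m : ℝ) - ff (PN K) m) with hS1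
  set S2 := (Icc 1 N).filter (fun m => ε / 2 * L ≤ |ff (PN K) m - L|) with hS2
  have hsub : ((Icc 1 N).filter fun m => (1 + ε) * Real.log (Real.log K) < (om K m : ℝ)) ⊆
      S1 ∪ S2 := by
    intro m hm'
    rw [mem_filter] at hm'
    rw [mem_union]
    by_cases h : T ≤ (om K m : ℝ) - ff (PN K) m
    · left; rw [hS1, mem_filter]; exact ⟨hm'.1, h⟩
    · right
      push Not at h
      rw [hS2, mem_filter]
      refine ⟨hm'.1, ?_⟩
      have h1 := hm'.2
      have h2 : (1 + ε) * (L - C1) ≤ (1 + ε) * Real.log (Real.log K) :=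
        mul_le_mul_of_nonneg_left (by linarith) (by linarith)
      have h3 : (1 + ε) * C1 + T ≤ ε / 2 * L := by
        have : 2 * ((1 + ε) * C1 + T) / ε ≤ L := by linarith
        rw [div_le_iff₀ hε] at this
        linarith
      refine le_trans ?_ (le_abs_self _)
      nlinarith
  have hc1 : (S1.card : ℝ) ≤ η / 2 * N := by
    have h1 : (S1.card : ℝ) * T ≤ 4 * N := by
      refine le_trans ?_ (omK_diff hKN)
      calc (S1.card : ℝ) * T = ∑ _m ∈ S1, T := by rw [sum_const, nsmul_eq_mul]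
        _ ≤ ∑ m ∈ S1, ((om K m : ℝ) - ff (PN K) m) :=
            sum_le_sum fun m hm => (mem_filter.1 hm).2
        _ ≤ _ := by
            apply sum_le_sum_of_subset_of_nonneg (filter_subset _ _)
            intro m hm _
            have := ff_leK K m (by have := (mem_Icc.1 hm).1; omega)
            linarith
    rw [hT, mul_div_assoc', div_le_iff₀ hη] at h1
    linarith
  have hc2 : (S2.card : ℝ) ≤ η / 2 * N := by
    have h1 := cheb (PN K) (fun q hq => PN_prime hq) N ((PN_card K).trans hKN) (ε / 2) (by linarith) hL0 S2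
      (by rw [Ioc_zero]; exact filter_subset _ _) (fun m hm => (mem_filter.1 hm).2)
    have h2 : 16 / (ε ^ 2 * η) ≤ L := by linarith
    rw [div_le_iff₀ (by positivity)] at h2
    have h3 : (S2.card : ℝ) * ((ε / 2) ^ 2 * L) ≤ 2 * N := h1
    have h4 : 4 / η ≤ (ε / 2) ^ 2 * L := by
      rw [div_le_iff₀ hη]
      nlinarith
    have h5 : (S2.card : ℝ) * (4 / η) ≤ 2 * N :=
      (mul_le_mul_of_nonneg_left h4 (Nat.cast_nonneg _)).trans h3
    rw [mul_div_assoc', div_le_iff₀ hη] at h5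
    linarith
  have h1 : (((Icc 1 N).filter fun m => (1 + ε) * Real.log (Real.log K) <
      (om K m : ℝ)).card : ℝ) ≤ S1.card + S2.card := by
    exact_mod_cast (card_le_card hsub).trans (card_union_le _ _)
  linarith

end Pool.Agent.Run7.h545.MG
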