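import Pool.Agent.H262R2.UK.Pair
import Pool.Agent.Y323.EF.Mult
import Pool.Agent.Helper256.KM.E1

/-! # The sieve bound for pairs, with the first power of the singular series -/

set_option autoImplicit false

namespace Pool.Agent.Run7.h545.MG

open Finset
open Pool.Agent.Y323.EF (sum_inv_sq_le)
open Pool.Agent.Helper256.KM (mertens_inv)
open Pool.Agent.H646 (rat)

theorem psum : ∃ C0 : ℝ, ∀ w : ℕ, 3 ≤ w → ∀ D : ℕ, D ≠ 0 → D < 2 ^ w →
    ∑ q ∈ D.primeFactors, (1 / (q : ℝ) + 2 * ((q : ℝ) ^ 2)⁻¹) ≤ 3 + |C0| + Real.log (Real.log w) := by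
  obtain ⟨C0, hC0⟩ := mertens_inv
  refine ⟨C0, fun w hw D hD hDw => ?_⟩
  have hw3 : (3 : ℝ) ≤ w := by exact_mod_cast hw
  have h1 : ∑ q ∈ D.primeFactors, (1 / (q : ℝ) + 2 * ((q : ℝ) ^ 2)⁻¹) ≤
      3 + |C0| + Real.log (Real.log w) := by
    rw [sum_add_distrib, ← mul_sum]
    have h2 := sum_inv_sq_le D.primeFactors (fun q hq => Nat.prime_of_mem_primeFactors hq)
    have h3 : D.primeFactors ⊆ (Icc 1 w).filter Nat.Prime ∪ D.primeFactors.filter (fun q => w < q) := by
      intro q hq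
      rw [mem_union, mem_filter, mem_filter, mem_Icc]
      by_cases h : q ≤ w
      · left; exact ⟨⟨(Nat.prime_of_mem_primeFactors hq).pos, h⟩, Nat.prime_of_mem_primeFactors hq⟩
      · right; exact ⟨hq, by omega⟩
    have h4 : ∑ q ∈ D.primeFactors, 1 / (q : ℝ) ≤ ∑ q ∈ (Icc 1 w).filter Nat.Prime, 1 / (q : ℝ) +
        ∑ q ∈ D.primeFactors.filter (fun q => w < q), 1 / (q : ℝ) := by
      refine (sum_le_sum_of_subset_of_nonneg h3 fun _ _ _ => by positivity).trans ?_
      have h0 := sum_union_inter (s₁ := (Icc 1 w).filter Nat.Prime)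
        (s₂ := D.primeFactors.filter (fun q => w < q)) (f := fun q : ℕ => (1 : ℝ) / q)
      have h0' : 0 ≤ ∑ q ∈ (Icc 1 w).filter Nat.Prime ∩ D.primeFactors.filter (fun q => w < q),
          (1 : ℝ) / (q : ℝ) := sum_nonneg fun _ _ => by positivity
      linarith
    have h5 : ∑ q ∈ (Icc 1 w).filter Nat.Prime, 1 / (q : ℝ) ≤ Real.log (Real.log w) + |C0| := by
      have := (abs_le.1 (hC0 w hw)).2
      have h6 := le_abs_self C0
      linarith
    have hcard : D.primeFactors.card ≤ w := by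
      by_contra hc
      push Not at hc
      have h7 : 2 ^ D.primeFactors.card ≤ D := by
        calc 2 ^ D.primeFactors.card = ∏ _q ∈ D.primeFactors, 2 := by rw [prod_const]
          _ ≤ ∏ q ∈ D.primeFactors, q :=
              prod_le_prod' fun q hq => (Nat.prime_of_mem_primeFactors hq).two_le
          _ ≤ D := Nat.le_of_dvd (Nat.pos_of_ne_zero hD) (Nat.prod_primeFactors_dvd D)
      have h8 : 2 ^ w ≤ 2 ^ D.primeFactors.card := Nat.pow_le_pow_right (by norm_num) hc.le
      omega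
    have h9 : ∑ q ∈ D.primeFactors.filter (fun q => w < q), 1 / (q : ℝ) ≤ 1 := by
      calc ∑ q ∈ D.primeFactors.filter (fun q => w < q), 1 / (q : ℝ)
          ≤ ∑ _q ∈ D.primeFactors.filter (fun q => w < q), 1 / (w : ℝ) := by
            apply sum_le_sum
            intro q hq
            have h10 : (w : ℝ) ≤ q := by exact_mod_cast (mem_filter.1 hq).2.le
            exact one_div_le_one_div_of_le (by linarith) h10
        _ = ((D.primeFactors.filter (fun q => w < q)).card : ℝ) * (1 / w) := by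
            rw [sum_const, nsmul_eq_mul]
        _ ≤ (w : ℝ) * (1 / w) := by
            apply mul_le_mul_of_nonneg_right _ (by positivity)
            exact_mod_cast (card_filter_le _ _).trans hcard
        _ = 1 := by field_simp
    linarith
  exact h1

lemma rat_le {D : ℕ} (hD : 0 < D) :
    rat D ≤ Real.exp (∑ q ∈ D.primeFactors, (1 / (q : ℝ) + 2 * ((q : ℝ) ^ 2)⁻¹)) := by
  rw [Pool.Agent.H646.Sv3M.rat_eq hD, Real.exp_sum]
  apply prod_le_prod
  · intro q hq
    have hq2 : (2 : ℝ) ≤ q := by exact_mod_cast (Nat.prime_of_mem_primeFactors hq).two_le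
    have : (q : ℝ)⁻¹ ≤ 1 / 2 := by
      rw [← one_div]; exact one_div_le_one_div_of_le (by norm_num) hq2
    apply inv_nonneg.2
    linarith
  · intro q hq
    have hq2 : (2 : ℝ) ≤ q := by exact_mod_cast (Nat.prime_of_mem_primeFactors hq).two_le
    set x : ℝ := 1 / (q : ℝ) with hx
    have hx0 : 0 ≤ x := by positivity
    have hx2 : x ≤ 1 / 2 := by
      rw [hx]; exact one_div_le_one_div_of_le (by norm_num) hq2
    have hxq : ((q : ℝ) ^ 2)⁻¹ = x ^ 2 := by rw [hx, one_div, inv_pow]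
    have hxi : (q : ℝ)⁻¹ = x := by rw [hx, one_div]
    rw [hxq, hxi]
    have h4 : 1 + (x + 2 * x ^ 2) ≤ Real.exp (x + 2 * x ^ 2) := by
      have := Real.add_one_le_exp (x + 2 * x ^ 2); linarith
    have h5 : 1 ≤ (1 + (x + 2 * x ^ 2)) * (1 - x) := by nlinarith [sq_nonneg x]
    have h6 : (1 - x)⁻¹ ≤ 1 + (x + 2 * x ^ 2) := by
      rw [← one_div, div_le_iff₀ (by linarith)]
      exact h5
    linarith

/-- the sieve bound for two points -/
theorem pair2 : ∃ C : ℝ, 0 < C ∧ ∃ u0 : ℕ, ∀ a b H w : ℕ, a < b → u0 ≤ H → 3 ≤ w → b < 2 ^ w →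
    (((Icc 1 H).filter (fun h => (a + h).Prime ∧ (b + h).Prime)).card : ℝ) ≤
      C * Real.log w * (H / Real.log H ^ 2) := by
  obtain ⟨C1, hC1, u0, h1⟩ := Pool.Agent.H262R2.UK.pair_bound
  obtain ⟨C0, h2⟩ := psum
  refine ⟨C1 * Real.exp (3 + |C0|), by positivity, u0, fun a b H w hab hH hw hb => ?_⟩
  have h3 := h1 H hH a b hab
  have hw3 : (3 : ℝ) ≤ w := by exact_mod_cast hw
  have hlw : 0 < Real.log w := Real.log_pos (by linarith)
  have h4 : rat (b - a) ≤ Real.exp (3 + |C0|) * Real.log w := by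
    refine (rat_le (by omega)).trans ?_
    refine (Real.exp_le_exp.2 (h2 w hw (b - a) (by omega) (by omega))).trans (le_of_eq ?_)
    rw [Real.exp_add, Real.exp_log hlw]
  have h5 : (((Icc 1 H).filter (fun h => (a + h).Prime ∧ (b + h).Prime)).card : ℝ) ≤
      C1 * H / Real.log H ^ 2 * rat (b - a) := by
    have e : (Icc 1 H).filter (fun h => (a + h).Prime ∧ (b + h).Prime) =
        (Icc 1 H).filter (fun n => (n + a).Prime ∧ (n + b).Prime) := by
      apply filter_congr
      intro h _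
      rw [add_comm a h, add_comm b h]
    rw [e]
    exact h3
  refine h5.trans ?_
  calc C1 * H / Real.log H ^ 2 * rat (b - a)
      ≤ C1 * H / Real.log H ^ 2 * (Real.exp (3 + |C0|) * Real.log w) :=
        mul_le_mul_of_nonneg_left h4 (by positivity)
    _ = _ := by ring

end Pool.Agent.Run7.h545.MG
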