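import Pool.Agent.Run7.h545.MG.ASM
import Pool.Agent.Run7.h545.MG.PR2

/-! # Many shifts `h` with `p_{kn} + h` prime for some `k ≤ log n` -/

set_option autoImplicit false

namespace Pool.Agent.Run7.h545.MG

open Finset Filter Topology

lemma pw {N K : ℕ} (hN : 18 ≤ N) (hK1 : 1 ≤ K) (hKN : K ≤ N) :
    p (N * K) < 2 ^ (⌊8 * Real.log N⌋₊ + 1) := by
  have hNr : (18 : ℝ) ≤ N := by exact_mod_cast hN
  have hKr : (1 : ℝ) ≤ K := by exact_mod_cast hK1
  have hKNr : (K : ℝ) ≤ N := by exact_mod_cast hKN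
  have hN0 : (0 : ℝ) < N := by linarith
  have hNK6 : 6 ≤ N * K := by nlinarith
  have h1 : (p (N * K) : ℝ) ≤ Nat.nth Nat.Prime (N * K) := by
    have : p (N * K) ≤ Nat.nth Nat.Prime (N * K) :=
      (Nat.nth_strictMono Nat.infinite_setOfPred_prime).monotone (Nat.sub_le _ _)
    exact_mod_cast this
  have h2 := nth_le hNK6
  have hL0 : 0 < Real.log N := Real.log_pos (by linarith)
  have hNKN : ((N * K : ℕ) : ℝ) ≤ N ^ 2 := by
    push_cast
    nlinarith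
  have hNK0 : (0 : ℝ) < ((N * K : ℕ) : ℝ) := by
    push_cast
    nlinarith
  have hlog : Real.log ((N * K : ℕ) : ℝ) ≤ 2 * N := by
    have h := Real.log_le_log hNK0 hNKN
    rw [Real.log_pow] at h
    have h' := Real.log_le_sub_one_of_pos hN0
    have e2 : ((2 : ℕ) : ℝ) = 2 := by norm_num
    rw [e2] at h
    linarith
  have hlog0 : 0 ≤ Real.log ((N * K : ℕ) : ℝ) := Real.log_natCast_nonneg _
  have h3 : (p (N * K) : ℝ) ≤ (N : ℝ) ^ 5 := by
    calc (p (N * K) : ℝ) ≤ 9 * ((N * K : ℕ) : ℝ) * Real.log ((N * K : ℕ) : ℝ) := h1.trans h2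
      _ ≤ 9 * (N : ℝ) ^ 2 * (2 * N) := by
          apply mul_le_mul _ hlog hlog0 (by positivity)
          linarith
      _ = 18 * (N : ℝ) ^ 3 := by ring
      _ ≤ (N : ℝ) ^ 2 * (N : ℝ) ^ 3 := by
          apply mul_le_mul_of_nonneg_right _ (by positivity)
          nlinarith
      _ = (N : ℝ) ^ 5 := by ring
  have h4 : (N : ℝ) ^ 5 < (2 : ℝ) ^ (8 * Real.log N) := by
    have e1 : (N : ℝ) ^ 5 = Real.exp (5 * Real.log N) := by
      rw [← Real.exp_log (pow_pos hN0 5), Real.log_pow]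
      norm_num
    rw [e1, Real.rpow_def_of_pos (by norm_num)]
    apply Real.exp_lt_exp.2
    have := Real.log_two_gt_d9
    nlinarith
  have h5 : (2 : ℝ) ^ (8 * Real.log N) ≤ (2 : ℝ) ^ (⌊8 * Real.log N⌋₊ + 1) := by
    rw [← Real.rpow_natCast (2 : ℝ) (⌊8 * Real.log N⌋₊ + 1)]
    apply Real.rpow_le_rpow_of_exponent_le (by norm_num)
    push_cast
    exact (Nat.lt_floor_add_one _).le
  have h6 : (p (N * K) : ℝ) < ((2 ^ (⌊8 * Real.log N⌋₊ + 1) : ℕ) : ℝ) := by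
    push_cast
    linarith
  exact_mod_cast h6

/-- few of the products `n k` lie in a sparse set -/
def Few (a : ℝ) : Prop :=
  ∀ δ κ : ℝ, 0 < δ → 0 < κ → ∃ K₀ : ℕ, ∀ K : ℕ, K₀ ≤ K → ∀ N : ℕ, K ≤ N → ∀ E : Finset ℕ,
    (E.card : ℝ) ≤ Real.log K ^ (-(a + δ)) * (N * K) →
    (((Icc 1 N ×ˢ Icc 1 K).filter (fun x : ℕ × ℕ => x.1 * x.2 ∈ E)).card : ℝ) ≤ κ * (N * K)

theorem mainB {a : ℝ} (ha0 : 0 < a) (ha1 : a ≤ 1) (hfew : Few a)
    (θ ε η : ℝ) (hθ : 0 < θ) (hθ1 : θ ≤ 1) (hε : 0 < ε) (hη : 0 < η) :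
    ∃ N₀ : ℕ, ∀ N : ℕ, N₀ ≤ N →
      (((Icc 1 N).filter (fun n : ℕ => ((V n θ).card : ℝ) <
        (n : ℝ) ^ θ / Real.log (Real.log n) ^ (1 + 2 * a + ε))).card : ℝ) ≤ η * N := by
  obtain ⟨C, hC, u0, hpair⟩ := pair2
  set η₁ : ℝ := min η 1 with hη₁
  have hη₁0 : 0 < η₁ := lt_min hη one_pos
  have hη₁1 : η₁ ≤ 1 := min_le_right _ _
  have hη₁η : η₁ ≤ η := min_le_left _ _
  set η' : ℝ := η₁ / 4 with hη'
  have hη'0 : 0 < η' := by positivity
  have hη'1 : η' ≤ 1 := by linarith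
  set κ : ℝ := η₁ / 4 with hκ
  have hκ0 : 0 < κ := by positivity
  have tN : Tendsto (fun N : ℕ => (N : ℝ)) atTop atTop := tendsto_natCast_atTop_atTop
  have tL : Tendsto (fun N : ℕ => Real.log N) atTop atTop := Real.tendsto_log_atTop.comp tN
  have ts : Tendsto (fun N : ℕ => Real.log (Real.log N)) atTop atTop := Real.tendsto_log_atTop.comp tL
  have tη : Tendsto (fun N : ℕ => η' * (N : ℝ)) atTop atTop := tN.const_mul_atTop hη'0
  have tlη : Tendsto (fun N : ℕ => Real.log (η' * (N : ℝ))) atTop atTop := Real.tendsto_log_atTop.comp tη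
  have tηθ : Tendsto (fun N : ℕ => (η' * (N : ℝ)) ^ θ) atTop atTop := (tendsto_rpow_atTop hθ).comp tη
  have tNθ : Tendsto (fun N : ℕ => (N : ℝ) ^ (θ / 2)) atTop atTop :=
    (tendsto_rpow_atTop (by linarith)).comp tN
  have g1 : ∀ᶠ N : ℕ in atTop, 9 ≤ Real.log N := tL.eventually_ge_atTop 9
  have g2 : ∀ᶠ N : ℕ in atTop, 3 ≤ Real.log (Real.log N) := ts.eventually_ge_atTop 3
  obtain ⟨K₀, hK₀⟩ := hfew (ε / 8) κ (by positivity) hκ0
  have g3 : ∀ᶠ N : ℕ in atTop, 54 ≤ (Real.log (Real.log N)) ^ (ε / 8) :=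
    ((tendsto_rpow_atTop (by positivity : 0 < ε / 8)).comp ts).eventually_ge_atTop _
  have g12 : ∀ᶠ N : ℕ in atTop, ((max K₀ 3 : ℕ) : ℝ) ≤ Real.log (η' * (N : ℝ)) :=
    tlη.eventually_ge_atTop _
  have g4 : ∀ᶠ N : ℕ in atTop, 2 * (1 - Real.log η') ≤ Real.log N := tL.eventually_ge_atTop _
  have g5 : ∀ᶠ N : ℕ in atTop, 2 ≤ (η' * (N : ℝ)) ^ θ := tηθ.eventually_ge_atTop 2
  have g6 : ∀ᶠ N : ℕ in atTop, 2 / η' ^ θ ≤ (N : ℝ) ^ (θ / 2) := tNθ.eventually_ge_atTop _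
  have g7 : ∀ᶠ N : ℕ in atTop, (u0 : ℝ) ≤ (N : ℝ) ^ (θ / 2) := tNθ.eventually_ge_atTop _
  have g8 : ∀ᶠ N : ℕ in atTop, 2 * Real.log N ^ (2 + ε / 4) ≤ (N : ℝ) ^ (θ / 2) := by
    have h := (isLittleO_log_rpow_rpow_atTop (2 + ε / 4) (by linarith : 0 < θ / 2)).bound
      (by norm_num : (0 : ℝ) < 1 / 2)
    have h' := tN.eventually h
    filter_upwards [h', g1] with N hN hN9
    rw [Real.norm_of_nonneg (by positivity), Real.norm_of_nonneg (by positivity)] at hN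
    linarith
  have g9 : ∀ᶠ N : ℕ in atTop, 2 ^ (1 + 2 * a + ε) * 16 * (1 + 16 * C / θ ^ 2) / η' ^ θ ≤
      (Real.log (Real.log N)) ^ (ε / 2) :=
    ((tendsto_rpow_atTop (by positivity : 0 < ε / 2)).comp ts).eventually_ge_atTop _
  have g10 : ∀ᶠ N : ℕ in atTop, 1 ≤ Real.log (η' * (N : ℝ)) := tlη.eventually_ge_atTop 1
  have g11 : ∀ᶠ N : ℕ in atTop, 18 ≤ N := eventually_ge_atTop 18
  have key : ∀ᶠ N : ℕ in atTop, (((Icc 1 N).filter (fun n : ℕ => ((V n θ).card : ℝ) <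
        (n : ℝ) ^ θ / Real.log (Real.log n) ^ (1 + 2 * a + ε))).card : ℝ) ≤ η * N := by
    filter_upwards [g1, g2, g3, g4, g5, g6, g7, g8, g9, g10, g11, g12] with N a1 a2 a3 a4 a5 a6 a7 a8 a9 a10 a11 a12
    have hNr : (18 : ℝ) ≤ N := by exact_mod_cast a11
    have hN0 : (0 : ℝ) < N := by linarith
    have hs0 : 0 < Real.log (Real.log N) := by linarith
    have hηN : 0 < η' * N := by positivity
    -- `f2`
    have hKN : ⌊Real.log (η' * N)⌋₊ ≤ N := by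
      apply Nat.floor_le_of_le
      have h1 := Real.log_le_log hηN (by nlinarith : η' * N ≤ N)
      have h2 := Real.log_le_sub_one_of_pos hN0
      linarith
    have f2 : ∀ E : Finset ℕ, (E.card : ℝ) ≤
        54 * (Real.log (Real.log N)) ^ (-(a + ε / 4)) * (N * ⌊Real.log (η' * N)⌋₊) →
        (((Icc 1 N ×ˢ Icc 1 ⌊Real.log (η' * N)⌋₊).filter (fun x : ℕ × ℕ => x.1 * x.2 ∈ E)).card : ℝ) ≤
          κ * (N * ⌊Real.log (η' * N)⌋₊) := by
      intro E hE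
      set K := ⌊Real.log (η' * N)⌋₊ with hK
      have hKmax : max K₀ 3 ≤ K := Nat.le_floor a12
      have hK3 : (3 : ℝ) ≤ K := by exact_mod_cast (le_max_right _ _).trans hKmax
      apply hK₀ K ((le_max_left _ _).trans hKmax) N hKN E
      refine hE.trans ?_
      apply mul_le_mul_of_nonneg_right _ (by positivity)
      set s := Real.log (Real.log N) with hs
      have hlK0 : 0 < Real.log K := Real.log_pos (by linarith)
      have hKL : (K : ℝ) ≤ Real.log N := by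
        have h1 : (K : ℝ) ≤ Real.log (η' * N) := Nat.floor_le (by linarith)
        exact h1.trans (Real.log_le_log hηN (by nlinarith : η' * N ≤ N))
      have hlK : Real.log K ≤ s := Real.log_le_log (by linarith) hKL
      have e1 : s ^ (-(a + ε / 8)) ≤ Real.log K ^ (-(a + ε / 8)) :=
        Real.rpow_le_rpow_of_nonpos hlK0 hlK (by linarith)
      refine le_trans ?_ e1
      have e2 : s ^ (-(a + ε / 8)) = s ^ (ε / 8) * s ^ (-(a + ε / 4)) := by
        rw [← Real.rpow_add hs0]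
        congr 1
        ring
      rw [e2]
      exact mul_le_mul_of_nonneg_right a3 (by positivity)
    -- `f4'`
    have f4' : (N : ℝ) ^ (θ / 2) ≤ (η' * N) ^ θ / 2 := by
      have e1 : (η' * (N : ℝ)) ^ θ = η' ^ θ * ((N : ℝ) ^ (θ / 2) * (N : ℝ) ^ (θ / 2)) := by
        rw [Real.mul_rpow hη'0.le hN0.le, ← Real.rpow_add hN0, add_halves]
      have e2 : 0 < η' ^ θ := by positivity
      have e3 : 2 ≤ η' ^ θ * (N : ℝ) ^ (θ / 2) := by
        rw [div_le_iff₀ e2] at a6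
        linarith
      have e4 : 0 < (N : ℝ) ^ (θ / 2) := by positivity
      rw [e1]
      calc (N : ℝ) ^ (θ / 2) = 2 * (N : ℝ) ^ (θ / 2) / 2 := by ring
        _ ≤ (η' ^ θ * (N : ℝ) ^ (θ / 2)) * (N : ℝ) ^ (θ / 2) / 2 := by
            apply div_le_div_of_nonneg_right _ (by norm_num)
            exact mul_le_mul_of_nonneg_right e3 e4.le
        _ = _ := by ring
    -- `f6`
    have f6 : p (N * ⌊Real.log (η' * N)⌋₊) < 2 ^ (⌊8 * Real.log N⌋₊ + 1) := by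
      apply pw a11
      · exact Nat.le_floor (by push_cast; exact a10)
      · exact hKN
    have := core hC hpair hθ hθ1 hε hη'0 hη'1 ha0 ha1 rfl rfl rfl a1 a2 f2 a4 a5 f4' a7 a8 f6 a9
    refine this.trans ?_
    apply mul_le_mul_of_nonneg_right _ hN0.le
    linarith
  exact eventually_atTop.1 key

end Pool.Agent.Run7.h545.MG
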