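import Pool.Agent.Run7.h545.MG.EK
import Pool.Agent.Run7.h545.MG.TK
import Pool.Agent.Run7.h545.MG.TOP

/-! # The number of the products in a sparse set: the exponent `2 log 2 - 1` -/

set_option autoImplicit false

namespace Pool.Agent.Run7.h545.MG

open Finset Filter Topology

/-- few pairs with a typical product in a small set -/
lemma cnt_sqK (N K : ℕ) (E : Finset ℕ) (T : ℝ) :
    ((((Icc 1 N ×ˢ Icc 1 K).filter (fun x : ℕ × ℕ => x.1 * x.2 ∈ E ∧
      (om K (x.1 * x.2) : ℝ) ≤ T)).card : ℝ)) ^ 2 ≤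
      E.card * ((2 : ℝ) ^ T * ∑ x ∈ Qd N K, fK K (x.1.1 * x.1.2)) := by
  classical
  set G := (Icc 1 N ×ˢ Icc 1 K).filter (fun x : ℕ × ℕ => x.1 * x.2 ∈ E ∧
      (om K (x.1 * x.2) : ℝ) ≤ T) with hG
  have h1 : G.card = ∑ j ∈ E, (G.filter (fun x => x.1 * x.2 = j)).card :=
    card_eq_sum_card_fiberwise (fun x hx => (mem_filter.1 hx).2.1)
  have h2 : ((G.card : ℝ)) ^ 2 ≤ E.card * ∑ j ∈ E, (((G.filter (fun x => x.1 * x.2 = j)).card : ℕ) : ℝ) ^ 2 := by
    rw [h1]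
    push_cast
    exact sq_sum_le_card_mul_sum_sq
  refine h2.trans (mul_le_mul_of_nonneg_left ?_ (Nat.cast_nonneg _))
  set GG := (G ×ˢ G).filter (fun y : (ℕ × ℕ) × (ℕ × ℕ) => y.1.1 * y.1.2 = y.2.1 * y.2.2) with hGG
  have h3 : ∑ j ∈ E, (((G.filter (fun x => x.1 * x.2 = j)).card : ℕ) : ℝ) ^ 2 = (GG.card : ℝ) := by
    have h4 : GG.card = ∑ j ∈ E, (GG.filter (fun y => y.1.1 * y.1.2 = j)).card := by
      apply card_eq_sum_card_fiberwise
      intro y hy
      have hy' := mem_coe.1 hy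
      rw [hGG, mem_filter, mem_product] at hy'
      exact (mem_filter.1 hy'.1.1).2.1
    rw [h4]
    push_cast
    apply sum_congr rfl
    intro j _
    have h5 : GG.filter (fun y => y.1.1 * y.1.2 = j) =
        (G.filter (fun x => x.1 * x.2 = j)) ×ˢ (G.filter (fun x => x.1 * x.2 = j)) := by
      ext y
      simp only [hGG, mem_filter, mem_product]
      constructor
      · rintro ⟨⟨⟨a1, a2⟩, a3⟩, a4⟩
        exact ⟨⟨a1, a4⟩, a2, by rw [← a3]; exact a4⟩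
      · rintro ⟨⟨a1, a2⟩, a3, a4⟩
        exact ⟨⟨⟨a1, a3⟩, by rw [a2, a4]⟩, a2⟩
    rw [h5, card_product]
    push_cast
    ring
  rw [h3, mul_sum]
  have h6 : GG ⊆ Qd N K := by
    intro y hy
    rw [hGG, mem_filter, mem_product] at hy
    have g1 := mem_filter.1 hy.1.1
    have g2 := mem_filter.1 hy.1.2
    unfold Qd
    rw [mem_filter, mem_product]
    exact ⟨⟨g1.1, g2.1⟩, hy.2⟩
  calc (GG.card : ℝ) = ∑ _y ∈ GG, (1 : ℝ) := by simp
    _ ≤ ∑ y ∈ GG, (2 : ℝ) ^ T * fK K (y.1.1 * y.1.2) := by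
        apply sum_le_sum
        intro y hy
        rw [hGG, mem_filter, mem_product] at hy
        have g1 := (mem_filter.1 hy.1.1).2.2
        unfold fK
        have e1 : ((1 : ℝ) / 2) ^ (om K (y.1.1 * y.1.2)) =
            (2 : ℝ) ^ (-(om K (y.1.1 * y.1.2) : ℝ)) := by
          rw [Real.rpow_neg (by norm_num), Real.rpow_natCast, one_div, inv_pow]
        rw [e1, ← Real.rpow_add (by norm_num)]
        apply Real.one_le_rpow (by norm_num)
        linarith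
    _ ≤ _ := by
        apply sum_le_sum_of_subset_of_nonneg h6
        intro y _ _
        exact mul_nonneg (by positivity) (fK_pos _ _).le

/-- numerical part -/
lemma numK {C δ δ₁ s t : ℝ} (hC : 0 < C) (hδ₁ : 0 < δ₁) (hδ₁1 : δ₁ < 1) (hδ : 4 * δ₁ ≤ δ)
    (hs : 1 ≤ s) (hst : s ≤ t) :
    s ^ (-(2 * Real.log 2 - 1 + δ)) * (s ^ ((2 + 2 * δ₁) * Real.log 2) * (C * ((1 + Real.log t) / t))) ≤
      C * (1 + 1 / δ₁) * s ^ (-(δ / 4)) := by
  have hs0 : 0 < s := by linarith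
  have ht : 1 ≤ t := hs.trans hst
  have ht0 : 0 < t := by linarith
  have h1 : (1 + Real.log t) / t ≤ (1 + 1 / δ₁) * t ^ (δ₁ - 1) := by
    have h2 : Real.log t ≤ t ^ δ₁ / δ₁ := Real.log_le_rpow_div ht0.le hδ₁
    have h3 : 1 ≤ t ^ δ₁ := Real.one_le_rpow ht hδ₁.le
    have h4 : t ^ (δ₁ - 1) = t ^ δ₁ / t := by rw [Real.rpow_sub ht0, Real.rpow_one]
    rw [h4, mul_div_assoc']
    apply div_le_div_of_nonneg_right _ ht0.le
    have : (1 + 1 / δ₁) * t ^ δ₁ = t ^ δ₁ + t ^ δ₁ / δ₁ := by ring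
    linarith
  have h5 : t ^ (δ₁ - 1) ≤ s ^ (δ₁ - 1) :=
    Real.rpow_le_rpow_of_nonpos hs0 hst (by linarith)
  have h7 : (1 + Real.log t) / t ≤ (1 + 1 / δ₁) * s ^ (δ₁ - 1) :=
    h1.trans (mul_le_mul_of_nonneg_left h5 (by positivity))
  have h8 : s ^ (-(2 * Real.log 2 - 1 + δ)) * s ^ ((2 + 2 * δ₁) * Real.log 2) * s ^ (δ₁ - 1) ≤
      s ^ (-(δ / 4)) := by
    rw [← Real.rpow_add hs0, ← Real.rpow_add hs0]
    apply Real.rpow_le_rpow_of_exponent_le hs
    have := Real.log_two_lt_d9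
    nlinarith
  calc s ^ (-(2 * Real.log 2 - 1 + δ)) * (s ^ ((2 + 2 * δ₁) * Real.log 2) * (C * ((1 + Real.log t) / t)))
      ≤ s ^ (-(2 * Real.log 2 - 1 + δ)) * (s ^ ((2 + 2 * δ₁) * Real.log 2) *
          (C * ((1 + 1 / δ₁) * s ^ (δ₁ - 1)))) := by gcongr
    _ = C * (1 + 1 / δ₁) *
          (s ^ (-(2 * Real.log 2 - 1 + δ)) * s ^ ((2 + 2 * δ₁) * Real.log 2) * s ^ (δ₁ - 1)) := by ring
    _ ≤ _ := by gcongr

/-- **Few of the products `n k` lie in a sparse set.** -/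
theorem few2 : Few (2 * Real.log 2 - 1) := by
  intro δ κ hδ hκ
  obtain ⟨C, hC0, hEn⟩ := energyK3
  set δ₁ : ℝ := min (δ / 4) (1 / 2) with hδ₁
  have hδ₁0 : 0 < δ₁ := lt_min (by positivity) (by norm_num)
  have hδ₁1 : δ₁ < 1 := lt_of_le_of_lt (min_le_right _ _) (by norm_num)
  have hδ₁δ : 4 * δ₁ ≤ δ := by
    have := min_le_left (δ / 4) (1 / 2)
    linarith
  obtain ⟨K₁, hK₁⟩ := typK δ₁ (κ / 4) hδ₁0 (by positivity)
  set D : ℝ := C * (1 + 1 / δ₁) with hD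
  have hD0 : 0 < D := by positivity
  have tN : Tendsto (fun N : ℕ => (N : ℝ)) atTop atTop := tendsto_natCast_atTop_atTop
  have tL : Tendsto (fun N : ℕ => Real.log (N : ℝ)) atTop atTop := Real.tendsto_log_atTop.comp tN
  have tsm : Tendsto (fun N : ℕ => D * Real.log (N : ℝ) ^ (-(δ / 4))) atTop (nhds (D * 0)) := by
    apply Tendsto.const_mul
    exact (tendsto_rpow_neg_atTop (by positivity)).comp tL
  have hsm : ∀ᶠ N : ℕ in atTop, D * Real.log (N : ℝ) ^ (-(δ / 4)) < (κ / 2) ^ 2 := by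
    apply tsm.eventually_lt_const
    rw [mul_zero]
    positivity
  rw [← eventually_atTop]
  filter_upwards [hsm, tL.eventually_ge_atTop 1, eventually_ge_atTop (K₁ + 1)] with K g1 g2 g3 N hKN E hE
  have hK1 : 1 ≤ K := by omega
  set s : ℝ := Real.log K with hs
  have hs0 : 0 < s := by linarith
  have hNr : (0 : ℝ) ≤ N := Nat.cast_nonneg N
  have hKr : (0 : ℝ) ≤ K := Nat.cast_nonneg K
  have hK1r : (1 : ℝ) ≤ K := by exact_mod_cast hK1
  set T : ℝ := (2 + 2 * δ₁) * Real.log s with hT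
  set A1 := (Icc 1 N).filter (fun m => (1 + δ₁) * Real.log (Real.log K) < (om K m : ℝ)) with hA1
  set A2 := (Icc 1 K).filter (fun m => (1 + δ₁) * Real.log (Real.log K) < (om K m : ℝ)) with hA2
  set G := (Icc 1 N ×ˢ Icc 1 K).filter (fun x : ℕ × ℕ => x.1 * x.2 ∈ E ∧
      (om K (x.1 * x.2) : ℝ) ≤ T) with hG
  have hsub : (Icc 1 N ×ˢ Icc 1 K).filter (fun x : ℕ × ℕ => x.1 * x.2 ∈ E) ⊆
      (A1 ×ˢ Icc 1 K) ∪ (Icc 1 N ×ˢ A2) ∪ G := by
    rintro ⟨n, k⟩ hx
    rw [mem_filter, mem_product] at hx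
    obtain ⟨⟨hn, hk⟩, hg⟩ := hx
    simp only at hn hk hg
    rw [mem_union, mem_union, mem_product, mem_product]
    by_cases h1 : (1 + δ₁) * Real.log (Real.log K) < (om K n : ℝ)
    · left; left
      exact ⟨mem_filter.2 ⟨hn, h1⟩, hk⟩
    by_cases h2 : (1 + δ₁) * Real.log (Real.log K) < (om K k : ℝ)
    · left; right
      exact ⟨hn, mem_filter.2 ⟨hk, h2⟩⟩
    right
    push Not at h1 h2
    have hn' := mem_Icc.1 hn
    have hk' := mem_Icc.1 hk
    rw [hG, mem_filter, mem_product]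
    refine ⟨⟨hn, hk⟩, hg, ?_⟩
    simp only
    rw [om_mul K (by omega) (by omega)]
    push_cast
    have h5 : T = (1 + δ₁) * Real.log s + (1 + δ₁) * Real.log s := by rw [hT]; ring
    rw [h5]
    exact add_le_add h1 h2
  have hc1 : (A1.card : ℝ) ≤ κ / 4 * N := hK₁ K (by omega) N hKN
  have hc2 : (A2.card : ℝ) ≤ κ / 4 * K := hK₁ K (by omega) K le_rfl
  have hNK : (0 : ℝ) ≤ (N : ℝ) * K := by positivity
  have h2T : (2 : ℝ) ^ T = s ^ ((2 + 2 * δ₁) * Real.log 2) := by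
    rw [Real.rpow_def_of_pos (by norm_num), Real.rpow_def_of_pos hs0, hT]
    congr 1
    ring
  have hell : s ≤ (ell K : ℝ) := by
    have h3 : K < 2 ^ (Nat.log 2 K + 1) := Nat.lt_pow_succ_log_self (by norm_num) K
    have h4 : (K : ℝ) ≤ 2 ^ (Nat.log 2 K + 1) := by exact_mod_cast h3.le
    have h5 : Real.log K ≤ ((Nat.log 2 K + 1 : ℕ) : ℝ) * Real.log 2 := by
      rw [← Real.log_pow]
      exact Real.log_le_log (by linarith) h4
    have h6 : ((Nat.log 2 K + 1 : ℕ) : ℝ) * Real.log 2 ≤ ((Nat.log 2 K + 1 : ℕ) : ℝ) * 1 :=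
      mul_le_mul_of_nonneg_left (by have := Real.log_two_lt_d9; linarith) (Nat.cast_nonneg _)
    unfold ell
    linarith
  have hell1 : (1 : ℝ) ≤ (ell K : ℝ) := g2.trans hell
  have hGsq : (G.card : ℝ) ^ 2 ≤ (κ / 2 * (N * K)) ^ 2 := by
    have h1 := cnt_sqK N K E T
    rw [← hG] at h1
    have h2 := hEn N K hK1 hKN
    have h3 := numK hC0 hδ₁0 hδ₁1 hδ₁δ g2 hell
    have hpos2 : 0 ≤ (1 + Real.log (ell K)) / (ell K : ℝ) := by
      apply div_nonneg _ (by linarith)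
      have := Real.log_nonneg hell1
      linarith
    calc (G.card : ℝ) ^ 2 ≤ E.card * ((2 : ℝ) ^ T * ∑ x ∈ Qd N K, fK K (x.1.1 * x.1.2)) := h1
      _ ≤ (s ^ (-(2 * Real.log 2 - 1 + δ)) * (N * K)) * ((2 : ℝ) ^ T *
            (C * (N * K) * ((1 + Real.log (ell K)) / ell K))) := by
          apply mul_le_mul hE _ _ (by positivity)
          · exact mul_le_mul_of_nonneg_left h2 (by positivity)
          · apply mul_nonneg (by positivity)
            exact sum_nonneg fun _ _ => (fK_pos _ _).le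
      _ = (N * K) ^ 2 * (s ^ (-(2 * Real.log 2 - 1 + δ)) * (s ^ ((2 + 2 * δ₁) * Real.log 2) *
            (C * ((1 + Real.log (ell K)) / ell K)))) := by
          rw [h2T]; ring
      _ ≤ (N * K) ^ 2 * (κ / 2) ^ 2 := by
          apply mul_le_mul_of_nonneg_left _ (by positivity)
          exact h3.trans g1.le
      _ = _ := by ring
  have hc3 : (G.card : ℝ) ≤ κ / 2 * (N * K) :=
    le_of_sq_le_sq hGsq (by positivity)
  have h1 : (((Icc 1 N ×ˢ Icc 1 K).filter (fun x : ℕ × ℕ => x.1 * x.2 ∈ E)).card : ℝ) ≤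
      A1.card * K + N * A2.card + G.card := by
    have h2 := card_le_card hsub
    have h3 : ((A1 ×ˢ Icc 1 K) ∪ (Icc 1 N ×ˢ A2) ∪ G).card ≤ A1.card * K + N * A2.card + G.card := by
      refine (card_union_le _ _).trans ?_
      refine Nat.add_le_add_right ((card_union_le _ _).trans ?_) _
      rw [card_product, card_product, Nat.card_Icc, Nat.card_Icc]
      simp
    exact_mod_cast h2.trans h3
  have h4 : (A1.card : ℝ) * K ≤ κ / 4 * N * K := mul_le_mul_of_nonneg_right hc1 hKr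
  have h5 : (N : ℝ) * A2.card ≤ N * (κ / 4 * K) := mul_le_mul_of_nonneg_left hc2 hNr
  calc (((Icc 1 N ×ˢ Icc 1 K).filter (fun x : ℕ × ℕ => x.1 * x.2 ∈ E)).card : ℝ)
      ≤ A1.card * K + N * A2.card + G.card := h1
    _ ≤ κ / 4 * N * K + N * (κ / 4 * K) + κ / 2 * (N * K) := by linarith
    _ = _ := by ring

end Pool.Agent.Run7.h545.MG
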