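import Pool.Agent.Run7.h545.MG.PER

/-! # Many shifts `h` with `p_{kn} + h` prime for some `k ≤ log n`: assembly -/

set_option autoImplicit false

namespace Pool.Agent.Run7.h545.MG

open Finset Filter

open Classical in
/-- the shifts `h ≤ n ^ θ` for which `p_{kn} + h` is prime for some `k ≤ log n` -/
noncomputable def V (n : ℕ) (θ : ℝ) : Finset ℕ :=
  (Icc 1 ⌊(n : ℝ) ^ θ⌋₊).filter (fun h => ∃ k : ℕ, 1 ≤ k ∧ (k : ℝ) ≤ Real.log n ∧ (p (k * n) + h).Prime)

/-- the exceptional indices are few -/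
lemma card_E {N K H r : ℕ} {L c : ℝ} (hN : 6 ≤ N) (hK1 : 1 ≤ K) (hKN : K ≤ N) (hL : L = Real.log N)
    (hL1 : 1 ≤ L) (hH : 1 ≤ H) (hHN : H ≤ N) (hc0 : 0 < c) (hc1 : c ≤ 1) (hr : (r : ℝ) ≤ c * H / L) :
    (((Icc 1 (N * K)).filter (fun j => (H : ℝ) < (p (j + r) : ℝ) - p j)).card : ℝ) ≤
      54 * c * (N * K) := by
  have hL0 : 0 < L := by linarith
  have hHr : (1 : ℝ) ≤ H := by exact_mod_cast hH
  have hKr : (1 : ℝ) ≤ K := by exact_mod_cast hK1
  have hNr : (6 : ℝ) ≤ N := by exact_mod_cast hN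
  have hKNr : (K : ℝ) ≤ N := by exact_mod_cast hKN
  have hHNr : (H : ℝ) ≤ N := by exact_mod_cast hHN
  have hrH : (r : ℝ) ≤ H := by
    refine hr.trans ?_
    rw [div_le_iff₀ hL0]
    have : (0 : ℝ) ≤ H := by linarith
    nlinarith
  have hNK : (N : ℝ) ≤ N * K := by nlinarith
  have hcast : ((N * K + r : ℕ) : ℝ) = N * K + r := by push_cast; ring
  have h1 : ((N * K + r : ℕ) : ℝ) ≤ 2 * (N * K) := by rw [hcast]; linarith
  have h2 : Real.log ((N * K + r : ℕ) : ℝ) ≤ 3 * L := by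
    have h3 : ((N * K + r : ℕ) : ℝ) ≤ (N : ℝ) ^ 3 := by
      refine h1.trans ?_
      have : (N : ℝ) * K ≤ N * N := mul_le_mul_of_nonneg_left hKNr (by linarith)
      nlinarith
    have h4 : (0 : ℝ) < ((N * K + r : ℕ) : ℝ) := by
      rw [hcast]
      have : (0 : ℝ) ≤ r := Nat.cast_nonneg r
      nlinarith
    have := Real.log_le_log h4 h3
    rw [Real.log_pow, ← hL] at this
    have e3 : ((3 : ℕ) : ℝ) = 3 := by norm_num
    rw [e3] at this
    exact this
  have h5 := str_count (N * K) r (by nlinarith) (H : ℝ)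
  set e : ℝ := (((Icc 1 (N * K)).filter (fun j => (H : ℝ) < (p (j + r) : ℝ) - p j)).card : ℝ) with he
  have h0 : (0 : ℝ) ≤ Real.log ((N * K + r : ℕ) : ℝ) := Real.log_natCast_nonneg _
  have h6 : e * H ≤ (c * H / L) * (9 * (2 * (N * K)) * (3 * L)) := by
    refine h5.trans ?_
    apply mul_le_mul hr _ (by positivity) (by positivity)
    apply mul_le_mul _ h2 h0 (by positivity)
    linarith
  have h7 : (c * H / L) * (9 * (2 * ((N : ℝ) * K)) * (3 * L)) = (54 * c * (N * K)) * H := by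
    field_simp
    ring
  rw [h7] at h6
  exact le_of_mul_le_mul_right h6 (by linarith)

/-- few bad `n` -/
lemma card_B {N K : ℕ} (E : Finset ℕ) {κ : ℝ} (hK1 : 1 ≤ K)
    (h : (((Icc 1 N ×ˢ Icc 1 K).filter (fun x : ℕ × ℕ => x.1 * x.2 ∈ E)).card : ℝ) ≤ κ * (N * K)) :
    (((Icc 1 N).filter (fun n => K < 2 * ((Icc 1 K).filter (fun k => n * k ∈ E)).card)).card : ℝ) ≤
      2 * κ * N := by
  classical
  have hKr : (1 : ℝ) ≤ K := by exact_mod_cast hK1
  have hN0 : (0 : ℝ) ≤ N := Nat.cast_nonneg N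
  set G := (Icc 1 N ×ˢ Icc 1 K).filter (fun x : ℕ × ℕ => x.1 * x.2 ∈ E) with hG
  have h1 : (G.card : ℝ) ≤ κ * (N * K) := h
  set B := (Icc 1 N).filter (fun n => K < 2 * ((Icc 1 K).filter (fun k => n * k ∈ E)).card) with hB
  have h2 : (B.card : ℝ) * (K / 2) ≤ G.card := by
    have h3 : ∑ n ∈ Icc 1 N, ((Icc 1 K).filter (fun k => n * k ∈ E)).card = G.card := by
      rw [hG, card_filter, sum_product]
      apply sum_congr rfl
      intro n _
      rw [card_filter]
    calc (B.card : ℝ) * (K / 2) = ∑ _n ∈ B, ((K : ℝ) / 2) := by rw [sum_const, nsmul_eq_mul]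
      _ ≤ ∑ n ∈ B, (((Icc 1 K).filter (fun k => n * k ∈ E)).card : ℝ) := by
          apply sum_le_sum
          intro n hn
          have := (mem_filter.1 hn).2
          have h4 : (K : ℝ) ≤ 2 * (((Icc 1 K).filter (fun k => n * k ∈ E)).card : ℝ) := by
            exact_mod_cast this.le
          linarith
      _ ≤ ∑ n ∈ Icc 1 N, (((Icc 1 K).filter (fun k => n * k ∈ E)).card : ℝ) := by
          apply sum_le_sum_of_subset_of_nonneg (filter_subset _ _)
          intro _ _ _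
          exact Nat.cast_nonneg _
      _ = (G.card : ℝ) := by rw [← h3]; push_cast; rfl
  have h5 : (B.card : ℝ) * (K / 2) ≤ (2 * κ * N) * (K / 2) := by
    refine h2.trans (h1.trans (le_of_eq ?_))
    ring
  exact le_of_mul_le_mul_right h5 (by linarith)

/-- the lower bound for one good `n` -/
lemma good_n {C : ℝ} (hC : 0 < C) {u0 : ℕ}
    (hpair : ∀ a b H w : ℕ, a < b → u0 ≤ H → 3 ≤ w → b < 2 ^ w →
    (((Icc 1 H).filter (fun h => (a + h).Prime ∧ (b + h).Prime)).card : ℝ) ≤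
      C * Real.log w * (H / Real.log H ^ 2))
    {N K H r w n : ℕ} {L s c θ : ℝ} (hθ : 0 < θ) (hL1 : 1 ≤ L) (hs1 : 1 ≤ s) (hc0 : 0 < c) (hc1 : c ≤ 1)
    (hK : L / 2 ≤ K) (hKL : (K : ℝ) ≤ L) (hu0 : u0 ≤ H) (hH : 1 ≤ H) (hlH : θ / 2 * L ≤ Real.log H)
    (hr2 : c * H / (2 * L) ≤ r) (hr1 : 1 ≤ r) (hw3 : 3 ≤ w) (hw : p (N * K) < 2 ^ w)
    (hlw : Real.log w ≤ 2 * s) (hn1 : 1 ≤ n) (hnN : n ≤ N)
    (hB : ¬ K < 2 * ((Icc 1 K).filter (fun k => n * k ∈
      (Icc 1 (N * K)).filter (fun j => (H : ℝ) < (p (j + r) : ℝ) - p j))).card) :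
    c ^ 2 * H ≤ 8 * (1 + 16 * C / θ ^ 2) * s * (U n K H).card := by
  classical
  set E := (Icc 1 (N * K)).filter (fun j => (H : ℝ) < (p (j + r) : ℝ) - p j) with hE
  have hL0 : 0 < L := by linarith
  have hHr : (1 : ℝ) ≤ H := by exact_mod_cast hH
  have hrr : (1 : ℝ) ≤ r := by exact_mod_cast hr1
  set G := (Icc 1 K).filter (fun k => n * k ∉ E) with hG
  have hcard : ((Icc 1 K).filter (fun k => n * k ∈ E)).card + G.card = K := by
    rw [hG, card_filter_add_card_filter_not, Nat.card_Icc, Nat.add_sub_cancel]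
  have hg2 : (K : ℝ) / 2 ≤ G.card := by
    have : K ≤ 2 * G.card := by omega
    have h' : (K : ℝ) ≤ 2 * (G.card : ℝ) := by exact_mod_cast this
    linarith
  have hgK : (G.card : ℝ) ≤ K := by
    have : G.card ≤ K := by omega
    exact_mod_cast this
  set P : ℝ := C * (2 * s) * (H / (θ / 2 * L) ^ 2) with hP
  have hP0 : 0 ≤ P := by positivity
  have hper := per n K H r hn1 G (filter_subset _ _) (by
    intro k hk
    rw [hG, mem_filter, mem_Icc] at hk
    obtain ⟨hk1, hk2⟩ := hk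
    by_contra hcon
    push Not at hcon
    apply hk2
    rw [hE, mem_filter, mem_Icc]
    refine ⟨⟨Nat.mul_pos hn1 hk1.1, Nat.mul_le_mul hnN hk1.2⟩, ?_⟩
    rw [mul_comm n k]
    have h' : (p (k * n) : ℝ) + H < p (k * n + r) := by exact_mod_cast hcon
    linarith) P hP0 (by
    intro k hk k' hk' hkk
    have hk1 := mem_Icc.1 (mem_filter.1 hk).1
    have hk1' := mem_Icc.1 (mem_filter.1 hk').1
    have hlt : p (k * n) < p (k' * n) :=
      p_lt (Nat.mul_pos hk1.1 hn1) (Nat.mul_lt_mul_of_pos_right hkk hn1)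
    have hpw : p (k' * n) < 2 ^ w := by
      refine lt_of_le_of_lt (p_mono ?_) hw
      rw [mul_comm k' n]
      exact Nat.mul_le_mul hnN hk1'.2
    refine (hpair _ _ H w hlt hu0 hw3 hpw).trans ?_
    have hlw0 : 0 ≤ Real.log w := Real.log_natCast_nonneg _
    rw [hP]
    gcongr)
  set g : ℝ := (G.card : ℝ) with hg
  set u : ℝ := ((U n K H).card : ℝ) with hu
  have hg0 : 0 < g := by linarith
  have hr0 : (0 : ℝ) < r := by linarith
  have hu0' : 0 ≤ u := Nat.cast_nonneg _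
  -- divide by g * r
  have h1 : g * r ≤ u * (1 + g * P / r) := by
    have h2 : (g * r) * (g * r) ≤ (u * (1 + g * P / r)) * (g * r) := by
      have e1 : (u * (1 + g * P / r)) * (g * r) = u * (g * r + g ^ 2 * P) := by
        field_simp
      rw [e1]
      calc (g * r) * (g * r) = (g * r) ^ 2 := by ring
        _ ≤ _ := hper
    exact le_of_mul_le_mul_right h2 (by positivity)
  have h2 : g * P / r ≤ 16 * C / θ ^ 2 * s / c := by
    rw [div_le_div_iff₀ hr0 hc0]
    have e1 : c * (H / L) ≤ 2 * r := by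
      have : c * H / (2 * L) = c * (H / L) / 2 := by field_simp
      rw [this] at hr2
      linarith
    have e2 : g * P ≤ 8 * C / θ ^ 2 * s * (H / L) := by
      calc g * P ≤ L * P := mul_le_mul_of_nonneg_right (hgK.trans hKL) hP0
        _ = 8 * C / θ ^ 2 * s * (H / L) := by
            rw [hP]
            field_simp
            ring
    calc g * P * c ≤ 8 * C / θ ^ 2 * s * (H / L) * c := mul_le_mul_of_nonneg_right e2 hc0.le
      _ = 8 * C / θ ^ 2 * s * (c * (H / L)) := by ring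
      _ ≤ 8 * C / θ ^ 2 * s * (2 * r) := mul_le_mul_of_nonneg_left e1 (by positivity)
      _ = _ := by ring
  have h3 : c * H / 8 ≤ g * r := by
    have e1 : L / 4 ≤ g := by linarith
    calc c * H / 8 = (L / 4) * (c * H / (2 * L)) := by field_simp; ring
      _ ≤ g * r := mul_le_mul e1 hr2 (by positivity) (by linarith)
  have h4 : c * H / 8 ≤ u * (1 + 16 * C / θ ^ 2 * s / c) :=
    h3.trans (h1.trans (mul_le_mul_of_nonneg_left (by linarith) hu0'))
  have h5 : c * (c * H / 8) ≤ u * (c + 16 * C / θ ^ 2 * s) := by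
    calc c * (c * H / 8) ≤ c * (u * (1 + 16 * C / θ ^ 2 * s / c)) :=
          mul_le_mul_of_nonneg_left h4 hc0.le
      _ = _ := by field_simp
  have h6 : c + 16 * C / θ ^ 2 * s ≤ (1 + 16 * C / θ ^ 2) * s := by
    have e : (1 + 16 * C / θ ^ 2) * s = s + 16 * C / θ ^ 2 * s := by ring
    rw [e]
    linarith
  have h7 := h5.trans (mul_le_mul_of_nonneg_left h6 hu0')
  linarith

end Pool.Agent.Run7.h545.MG
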