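import Mathlib

/-! # The number of the large prime gaps -/

set_option autoImplicit false

namespace Pool.Agent.Run7.h545.MG

open Finset

/-- the `i`-th prime: `p 1 = 2`, `p 2 = 3`, and so on -/
noncomputable def p (i : ℕ) : ℕ := Nat.nth Nat.Prime (i - 1)

/-- the bound for the `K`-th prime (after `Pool.Agent.H774EP.nth_le`) -/
theorem nth_le {K : ℕ} (hK : 6 ≤ K) : (Nat.nth Nat.Prime K : ℝ) ≤ 9 * K * Real.log K := by
  set n := Nat.nth Nat.Prime K with hn
  have hnp : n.Prime := Nat.prime_nth_prime K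
  have hnK : K + 2 ≤ n := Nat.add_two_le_nth_prime K
  have hpi : Nat.primeCounting n = K + 1 := by
    unfold Nat.primeCounting Nat.primeCounting'
    rw [Nat.count_succ, if_pos hnp, hn, Nat.count_nth_of_infinite Nat.infinite_setOfPred_prime]
  have h1 := Chebyshev.psi_le_primeCounting_mul_log n
  have h2 := Chebyshev.psi_ge n
  rw [hpi] at h1
  push_cast at h1
  have hKr : (6 : ℝ) ≤ K := by exact_mod_cast hK
  have hnr : (8 : ℝ) ≤ n := by exact_mod_cast (by omega : 8 ≤ n)
  have hlog2 := Real.log_two_gt_d9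
  have hln : 0 < Real.log n := Real.log_pos (by linarith)
  have h3 : Real.log (n + 1) ≤ 2 * Real.log n := by
    rw [← Real.log_rpow (by linarith), ← Nat.cast_ofNat (n := 2)]
    rw [Real.rpow_natCast]
    exact Real.log_le_log (by linarith) (by nlinarith)
  have h4 : (n : ℝ) * Real.log 2 ≤ (K + 3) * Real.log n := by linarith
  have h5 : (n : ℝ) * 0.69 ≤ (K + 3) * Real.log n := le_trans (by nlinarith) h4
  set t := Real.sqrt n with ht
  have htt : t * t = n := Real.mul_self_sqrt (by linarith)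
  have ht0 : 0 < t := Real.sqrt_pos.2 (by linarith)
  have h6 : Real.log n = 2 * Real.log t := by
    rw [← htt, Real.log_mul ht0.ne' ht0.ne']; ring
  have h7 : Real.log t ≤ t := by
    have := Real.log_le_sub_one_of_pos ht0; linarith
  have h8 : t ≤ 3 * (K + 3) := by
    by_contra hcon
    push Not at hcon
    have : t * t * 0.69 ≤ (K + 3) * (2 * t) := by
      rw [htt]
      refine h5.trans ?_
      rw [h6]
      nlinarith
    nlinarith
  have h9 : Real.log n ≤ 4 * Real.log K := by
    have e1 : Real.log t ≤ Real.log (K * K) := Real.log_le_log ht0 (by nlinarith)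
    rw [Real.log_mul (by linarith) (by linarith)] at e1
    rw [h6]; linarith
  have hlK : 0 < Real.log K := Real.log_pos (by linarith)
  have h10 : (n : ℝ) * 0.69 ≤ (K + 3) * (4 * Real.log K) := h5.trans (by nlinarith)
  nlinarith [mul_pos (by linarith : (0:ℝ) < K) hlK, mul_nonneg (by linarith : (0:ℝ) ≤ K - 6) hlK.le]

lemma tel (g : ℕ → ℝ) (J : ℕ) : ∑ j ∈ Icc 1 J, (g j - g (j - 1)) = g J - g 0 := by
  induction J with
  | zero => simp
  | succ J ih =>
    rw [sum_Icc_succ_top (by omega), ih, Nat.add_sub_cancel]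
    ring

lemma p_mono {i j : ℕ} (h : i ≤ j) : p i ≤ p j :=
  (Nat.nth_strictMono Nat.infinite_setOfPred_prime).monotone (by omega)

/-- the number of the large gaps -/
theorem gap_count (J : ℕ) (hJ : 6 ≤ J) (H : ℝ) :
    (((Icc 1 J).filter (fun j => H < (p (j + 1) : ℝ) - p j)).card : ℝ) * H ≤
      9 * J * Real.log J := by
  have h1 : ∑ j ∈ Icc 1 J, ((p (j + 1) : ℝ) - p j) ≤ 9 * J * Real.log J := by
    have h2 := tel (fun i => (Nat.nth Nat.Prime i : ℝ)) J
    have h3 : ∑ j ∈ Icc 1 J, ((p (j + 1) : ℝ) - p j) =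
        ∑ j ∈ Icc 1 J, ((Nat.nth Nat.Prime j : ℝ) - (Nat.nth Nat.Prime (j - 1) : ℝ)) := by
      apply sum_congr rfl
      intro j _
      unfold p
      rw [Nat.add_sub_cancel]
    rw [h3, h2]
    have h4 := nth_le hJ
    have h5 : (0 : ℝ) ≤ (Nat.nth Nat.Prime 0 : ℝ) := Nat.cast_nonneg _
    linarith
  refine le_trans ?_ h1
  calc (((Icc 1 J).filter (fun j => H < (p (j + 1) : ℝ) - p j)).card : ℝ) * H
      = ∑ _j ∈ (Icc 1 J).filter (fun j => H < (p (j + 1) : ℝ) - p j), H := by
        rw [sum_const, nsmul_eq_mul]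
    _ ≤ ∑ j ∈ (Icc 1 J).filter (fun j => H < (p (j + 1) : ℝ) - p j), ((p (j + 1) : ℝ) - p j) :=
        sum_le_sum fun j hj => (mem_filter.1 hj).2.le
    _ ≤ _ := by
        apply sum_le_sum_of_subset_of_nonneg (filter_subset _ _)
        intro j _ _
        have : (p j : ℝ) ≤ p (j + 1) := by exact_mod_cast p_mono (by omega)
        linarith

end Pool.Agent.Run7.h545.MG
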