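import Pool.Agent.Run7.h545.MG.RW

/-! # The shifts `h` with `p_{kn} + h` prime, for one `n` -/

set_option autoImplicit false

namespace Pool.Agent.Run7.h545.MG

open Finset

lemma p_prime (i : ℕ) : (p i).Prime := Nat.prime_nth_prime _

lemma p_lt {i j : ℕ} (hi : 1 ≤ i) (h : i < j) : p i < p j :=
  Nat.nth_strictMono Nat.infinite_setOfPred_prime (by omega)

/-- the first `r` shifts at `j` -/
noncomputable def S (j r : ℕ) : Finset ℕ := (Icc 1 r).image (fun i => p (j + i) - p j)

lemma S_card {j : ℕ} (hj : 1 ≤ j) (r : ℕ) : (S j r).card = r := by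
  unfold S
  rw [card_image_of_injOn, Nat.card_Icc, Nat.add_sub_cancel]
  intro a ha b hb hab
  have ha := (mem_Icc.1 (mem_coe.1 ha))
  have hb := (mem_Icc.1 (mem_coe.1 hb))
  have h1 : p j ≤ p (j + a) := p_mono (by omega)
  have h2 : p j ≤ p (j + b) := p_mono (by omega)
  have h3 : p (j + a) = p (j + b) := by
    have : p (j + a) - p j = p (j + b) - p j := hab
    omega
  rcases lt_trichotomy a b with h | h | h
  · have := p_lt (by omega : 1 ≤ j + a) (by omega : j + a < j + b)
    omega
  · exact h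
  · have := p_lt (by omega : 1 ≤ j + b) (by omega : j + b < j + a)
    omega

lemma mem_S {j r h : ℕ} (hj : 1 ≤ j) (hh : h ∈ S j r) : 1 ≤ h ∧ p j + h ≤ p (j + r) ∧ (p j + h).Prime := by
  unfold S at hh
  rw [mem_image] at hh
  obtain ⟨i, hi, rfl⟩ := hh
  rw [mem_Icc] at hi
  have h1 := p_lt hj (by omega : j < j + i)
  have h2 : p (j + i) ≤ p (j + r) := p_mono (by omega)
  refine ⟨by omega, by omega, ?_⟩
  rw [Nat.add_sub_cancel' h1.le]
  exact p_prime _

open Classical in
/-- the shifts -/
noncomputable def U (n K H : ℕ) : Finset ℕ :=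
  (Icc 1 H).filter (fun h => ∃ k ∈ Icc 1 K, (p (k * n) + h).Prime)

theorem per (n K H r : ℕ) (hn : 1 ≤ n) (G : Finset ℕ) (hG : G ⊆ Icc 1 K)
    (hG2 : ∀ k ∈ G, p (k * n + r) ≤ p (k * n) + H) (P : ℝ) (hP : 0 ≤ P)
    (hP2 : ∀ k ∈ G, ∀ k' ∈ G, k < k' →
      (((Icc 1 H).filter (fun h => (p (k * n) + h).Prime ∧ (p (k' * n) + h).Prime)).card : ℝ) ≤ P) :
    ((G.card : ℝ) * r) ^ 2 ≤ (U n K H).card * (G.card * r + G.card ^ 2 * P) := by
  classical
  have hk1 : ∀ k ∈ G, 1 ≤ k * n := fun k hk => Nat.mul_pos (mem_Icc.1 (hG hk)).1 hn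
  have hSU : ∀ k ∈ G, S (k * n) r ⊆ U n K H := by
    intro k hk h hh
    obtain ⟨a1, a2, a3⟩ := mem_S (hk1 k hk) hh
    unfold U
    rw [mem_filter, mem_Icc]
    have := hG2 k hk
    exact ⟨⟨a1, by omega⟩, k, hG hk, a3⟩
  set t : ℕ → ℝ := fun h => ∑ k ∈ G, (if h ∈ S (k * n) r then (1 : ℝ) else 0) with ht
  have h1 : ∑ h ∈ U n K H, t h = (G.card : ℝ) * r := by
    rw [ht]
    simp only
    rw [sum_comm]
    calc ∑ k ∈ G, ∑ h ∈ U n K H, (if h ∈ S (k * n) r then (1 : ℝ) else 0)
        = ∑ _k ∈ G, (r : ℝ) := by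
          apply sum_congr rfl
          intro k hk
          rw [sum_boole]
          have : (U n K H).filter (fun h => h ∈ S (k * n) r) = S (k * n) r := by
            ext h
            rw [mem_filter]
            exact ⟨fun h => h.2, fun h' => ⟨hSU k hk h', h'⟩⟩
          rw [this, S_card (hk1 k hk)]
      _ = _ := by rw [sum_const, nsmul_eq_mul]
  have h2 : ∑ h ∈ U n K H, t h ^ 2 ≤ G.card * r + (G.card : ℝ) ^ 2 * P := by
    have e1 : ∀ h, t h ^ 2 = ∑ k ∈ G, ∑ k' ∈ G,
        (if h ∈ S (k * n) r ∧ h ∈ S (k' * n) r then (1 : ℝ) else 0) := by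
      intro h
      rw [ht]
      simp only
      rw [sq, sum_mul_sum]
      apply sum_congr rfl
      intro k _
      apply sum_congr rfl
      intro k' _
      by_cases h1 : h ∈ S (k * n) r <;> by_cases h2 : h ∈ S (k' * n) r <;> simp [h1, h2]
    have e2 : ∑ h ∈ U n K H, t h ^ 2 = ∑ k ∈ G, ∑ k' ∈ G, ∑ h ∈ U n K H,
        (if h ∈ S (k * n) r ∧ h ∈ S (k' * n) r then (1 : ℝ) else 0) := by
      rw [sum_congr rfl fun h _ => e1 h, sum_comm]
      apply sum_congr rfl
      intro k _
      rw [sum_comm]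
    rw [e2]
    calc ∑ k ∈ G, ∑ k' ∈ G, ∑ h ∈ U n K H,
          (if h ∈ S (k * n) r ∧ h ∈ S (k' * n) r then (1 : ℝ) else 0)
        ≤ ∑ k ∈ G, ∑ k' ∈ G, ((if k = k' then (r : ℝ) else 0) + P) := by
          apply sum_le_sum
          intro k hk
          apply sum_le_sum
          intro k' hk'
          rw [sum_boole]
          by_cases hkk : k = k'
          · rw [if_pos hkk, ← hkk]
            have : ((U n K H).filter (fun h => h ∈ S (k * n) r ∧ h ∈ S (k * n) r)).card ≤ r := by
              calc ((U n K H).filter (fun h => h ∈ S (k * n) r ∧ h ∈ S (k * n) r)).card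
                  ≤ (S (k * n) r).card := by
                    apply card_le_card
                    intro h hh
                    exact (mem_filter.1 hh).2.1
                _ = r := S_card (hk1 k hk) r
            have h3 : ((((U n K H).filter (fun h => h ∈ S (k * n) r ∧ h ∈ S (k * n) r)).card : ℕ) : ℝ) ≤ r := by
              exact_mod_cast this
            linarith
          · rw [if_neg hkk, zero_add]
            rcases Nat.lt_or_gt_of_ne hkk with hlt | hlt
            · refine le_trans ?_ (hP2 k hk k' hk' hlt)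
              have : ((U n K H).filter (fun h => h ∈ S (k * n) r ∧ h ∈ S (k' * n) r)).card ≤
                  ((Icc 1 H).filter (fun h => (p (k * n) + h).Prime ∧ (p (k' * n) + h).Prime)).card := by
                apply card_le_card
                intro h hh
                rw [mem_filter] at hh ⊢
                exact ⟨(mem_filter.1 hh.1).1, (mem_S (hk1 k hk) hh.2.1).2.2,
                  (mem_S (hk1 k' hk') hh.2.2).2.2⟩
              exact_mod_cast this
            · refine le_trans ?_ (hP2 k' hk' k hk hlt)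
              have : ((U n K H).filter (fun h => h ∈ S (k * n) r ∧ h ∈ S (k' * n) r)).card ≤
                  ((Icc 1 H).filter (fun h => (p (k' * n) + h).Prime ∧ (p (k * n) + h).Prime)).card := by
                apply card_le_card
                intro h hh
                rw [mem_filter] at hh ⊢
                exact ⟨(mem_filter.1 hh.1).1, (mem_S (hk1 k' hk') hh.2.2).2.2,
                  (mem_S (hk1 k hk) hh.2.1).2.2⟩
              exact_mod_cast this
      _ = _ := by
          rw [sum_congr rfl fun k (hk : k ∈ G) => (by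
            rw [sum_add_distrib, sum_ite_eq, if_pos hk, sum_const, nsmul_eq_mul] :
            ∑ k' ∈ G, ((if k = k' then (r : ℝ) else 0) + P) = r + G.card * P)]
          rw [sum_const, nsmul_eq_mul]
          ring
  calc ((G.card : ℝ) * r) ^ 2 = (∑ h ∈ U n K H, t h) ^ 2 := by rw [h1]
    _ ≤ (U n K H).card * ∑ h ∈ U n K H, t h ^ 2 := sq_sum_le_card_mul_sum_sq
    _ ≤ _ := mul_le_mul_of_nonneg_left h2 (Nat.cast_nonneg _)

end Pool.Agent.Run7.h545.MG
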