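import Pool.Agent.Run7.h545.MG.EN2
import Pool.Agent.Run7.h545.MG.GAP

/-! # Strings of `r` gaps, and products in a small set -/

set_option autoImplicit false

namespace Pool.Agent.Run7.h545.MG

open Finset

/-- the sum of the lengths of the strings of `r` gaps -/
lemma sum_str (J r : ℕ) : ∑ j ∈ Icc 1 J, ((p (j + r) : ℝ) - p j) ≤ r * p (J + r) := by
  induction r with
  | zero => simp
  | succ r ih =>
    have h1 : ∑ j ∈ Icc 1 J, ((p (j + (r + 1)) : ℝ) - p j) =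
        ∑ j ∈ Icc 1 J, ((p (j + r) : ℝ) - p j) +
          ∑ j ∈ Icc 1 J, ((p (j + r + 1) : ℝ) - p (j + r)) := by
      rw [← sum_add_distrib]
      apply sum_congr rfl
      intro j _
      rw [← add_assoc]
      ring
    have h2 : ∑ j ∈ Icc 1 J, ((p (j + r + 1) : ℝ) - p (j + r)) = p (J + r + 1) - p (r + 1) := by
      have h3 := tel (fun i => (p (i + r + 1) : ℝ)) J
      rw [show 0 + r + 1 = r + 1 by omega] at h3
      rw [← h3]
      apply sum_congr rfl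
      intro j hj
      have hj1 := (mem_Icc.1 hj).1
      rw [show j - 1 + r + 1 = j + r by omega]
    have h4 : (p (J + r) : ℝ) ≤ p (J + (r + 1)) := by exact_mod_cast p_mono (by omega)
    have h5 : (0 : ℝ) ≤ p (r + 1) := Nat.cast_nonneg _
    have h6 : (r : ℝ) * p (J + r) ≤ r * p (J + (r + 1)) :=
      mul_le_mul_of_nonneg_left h4 (Nat.cast_nonneg _)
    rw [h1, h2]
    push_cast
    rw [← add_assoc] at h4 h6 ⊢
    linarith

/-- the number of the long strings -/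
theorem str_count (J r : ℕ) (hJ : 6 ≤ J + r) (H : ℝ) :
    (((Icc 1 J).filter (fun j => H < (p (j + r) : ℝ) - p j)).card : ℝ) * H ≤
      r * (9 * ((J + r : ℕ) : ℝ) * Real.log ((J + r : ℕ) : ℝ)) := by
  have h0 : (p (J + r) : ℝ) ≤ 9 * ((J + r : ℕ) : ℝ) * Real.log ((J + r : ℕ) : ℝ) := by
    refine le_trans ?_ (nth_le hJ)
    unfold p
    exact_mod_cast (Nat.nth_strictMono Nat.infinite_setOfPred_prime).monotone (by omega)
  have h1 := (sum_str J r).trans (mul_le_mul_of_nonneg_left h0 (Nat.cast_nonneg r))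
  refine le_trans ?_ h1
  calc (((Icc 1 J).filter (fun j => H < (p (j + r) : ℝ) - p j)).card : ℝ) * H
      = ∑ _j ∈ (Icc 1 J).filter (fun j => H < (p (j + r) : ℝ) - p j), H := by
        rw [sum_const, nsmul_eq_mul]
    _ ≤ ∑ j ∈ (Icc 1 J).filter (fun j => H < (p (j + r) : ℝ) - p j), ((p (j + r) : ℝ) - p j) :=
        sum_le_sum fun j hj => (mem_filter.1 hj).2.le
    _ ≤ _ := by
        apply sum_le_sum_of_subset_of_nonneg (filter_subset _ _)
        intro j _ _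
        have : (p j : ℝ) ≤ p (j + r) := by exact_mod_cast p_mono (by omega)
        linarith

/-- the multiplicative energy -/
lemma en1 (N K : ℕ) : ((Qd N K).card : ℝ) ≤
    ∑ bc ∈ Icc 1 K ×ˢ Icc 1 K, ((N : ℝ) / (max bc.1 bc.2 : ℕ)) * ((K : ℝ) / (max bc.1 bc.2 : ℕ)) := by
  classical
  have h : (Qd N K).card ≤ ((Icc 1 K ×ˢ Icc 1 K).sigma (fun bc : ℕ × ℕ =>
        Icc 1 (N / max bc.1 bc.2) ×ˢ Icc 1 (K / max bc.1 bc.2))).card := by
    apply card_le_card_of_injOn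
      (fun x => (⟨(x.1.1 / Nat.gcd x.1.1 x.2.1, x.2.1 / Nat.gcd x.1.1 x.2.1),
        (Nat.gcd x.1.1 x.2.1, x.1.2 / (x.2.1 / Nat.gcd x.1.1 x.2.1))⟩ : Σ _ : ℕ × ℕ, ℕ × ℕ))
    · rintro ⟨⟨n, k⟩, ⟨n', k'⟩⟩ hx
      rw [mem_coe, mem_Qd] at hx
      simp only at hx
      obtain ⟨⟨⟨⟨g1, g2⟩, g3, g4⟩, ⟨g5, g6⟩, g7, g8⟩, g9⟩ := hx
      obtain ⟨e1, e2, e3, e4⟩ := par g1 g3 g5 g7 g9
      simp only
      obtain ⟨a, haa⟩ : ∃ a, a = Nat.gcd n n' := ⟨_, rfl⟩
      rw [← haa] at e1 e2 e3 e4 ⊢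
      obtain ⟨b, hb⟩ : ∃ b, b = n / a := ⟨_, rfl⟩
      obtain ⟨c, hc⟩ : ∃ c, c = n' / a := ⟨_, rfl⟩
      rw [← hb] at e1 e4 ⊢
      rw [← hc] at e2 e3 e4 ⊢
      obtain ⟨d, hd⟩ : ∃ d, d = k / c := ⟨_, rfl⟩
      rw [← hd] at e3 e4 ⊢
      have a0 : 0 < a := Nat.pos_of_ne_zero (fun h0 => by rw [h0, zero_mul] at e1; omega)
      have b0 : 0 < b := Nat.pos_of_ne_zero (fun h0 => by rw [h0, mul_zero] at e1; omega)
      have c0 : 0 < c := Nat.pos_of_ne_zero (fun h0 => by rw [h0, mul_zero] at e2; omega)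
      have d0 : 0 < d := Nat.pos_of_ne_zero (fun h0 => by rw [h0, mul_zero] at e3; omega)
      have m0 : 0 < max b c := lt_of_lt_of_le b0 (le_max_left _ _)
      rw [mem_coe, mem_sigma, mem_product, mem_product, mem_Icc, mem_Icc, mem_Icc, mem_Icc]
      simp only
      refine ⟨⟨⟨b0, ?_⟩, ⟨c0, ?_⟩⟩, ⟨a0, ?_⟩, ⟨d0, ?_⟩⟩
      · calc b ≤ b * d := Nat.le_mul_of_pos_right _ d0
          _ = k' := e4.symm
          _ ≤ K := g8
      · calc c ≤ c * d := Nat.le_mul_of_pos_right _ d0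
          _ = k := e3.symm
          _ ≤ K := g4
      · rw [Nat.le_div_iff_mul_le m0]
        rcases max_choice b c with hm | hm
        · rw [hm, ← e1]; exact g2
        · rw [hm, ← e2]; exact g6
      · rw [Nat.le_div_iff_mul_le m0]
        rcases max_choice b c with hm | hm
        · rw [hm, mul_comm, ← e4]; exact g8
        · rw [hm, mul_comm, ← e3]; exact g4
    · rintro ⟨⟨n, k⟩, ⟨n', k'⟩⟩ hx ⟨⟨m, l⟩, ⟨m', l'⟩⟩ hy hxy
      rw [mem_coe, mem_Qd] at hx hy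
      simp only at hx hy
      obtain ⟨⟨⟨⟨g1, g2⟩, g3, g4⟩, ⟨g5, g6⟩, g7, g8⟩, g9⟩ := hx
      obtain ⟨⟨⟨⟨r1, r2⟩, r3, r4⟩, ⟨r5, r6⟩, r7, r8⟩, r9⟩ := hy
      obtain ⟨e1, e2, e3, e4⟩ := par g1 g3 g5 g7 g9
      obtain ⟨s1, s2, s3, s4⟩ := par r1 r3 r5 r7 r9
      simp only [Sigma.mk.injEq, Prod.mk.injEq, heq_eq_eq] at hxy
      obtain ⟨⟨t1, t2⟩, t3, t4⟩ := hxy
      have u1 : n = m := by rw [e1, s1, t1, t3]
      have u2 : n' = m' := by rw [e2, s2, t2, t3]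
      have u3 : k = l := by rw [e3, s3, t4, t2]
      have u4 : k' = l' := by rw [e4, s4, t4, t1]
      rw [u1, u2, u3, u4]
  have h' : ((Qd N K).card : ℝ) ≤ (((Icc 1 K ×ˢ Icc 1 K).sigma (fun bc : ℕ × ℕ =>
        Icc 1 (N / max bc.1 bc.2) ×ˢ Icc 1 (K / max bc.1 bc.2))).card : ℝ) := by exact_mod_cast h
  refine h'.trans ?_
  rw [card_sigma]
  push_cast
  apply sum_le_sum
  intro bc _
  rw [card_product, Nat.card_Icc, Nat.card_Icc, Nat.add_sub_cancel, Nat.add_sub_cancel]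
  have e1 : ((N / max bc.1 bc.2 : ℕ) : ℝ) ≤ (N : ℝ) / (max bc.1 bc.2 : ℕ) := Nat.cast_div_le
  have e2 : ((K / max bc.1 bc.2 : ℕ) : ℝ) ≤ (K : ℝ) / (max bc.1 bc.2 : ℕ) := Nat.cast_div_le
  have e3 : ((N / max bc.1 bc.2 * (K / max bc.1 bc.2) : ℕ) : ℝ) ≤
      (N : ℝ) / (max bc.1 bc.2 : ℕ) * ((K : ℝ) / (max bc.1 bc.2 : ℕ)) := by
    rw [Nat.cast_mul]
    exact mul_le_mul e1 e2 (Nat.cast_nonneg _) (by positivity)
  push_cast at e3 ⊢
  exact e3

theorem en2 (N K : ℕ) (hK : 1 ≤ K) : ((Qd N K).card : ℝ) ≤ 2 * (N * K) * (1 + Real.log K) := by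
  have hN0 : (0 : ℝ) ≤ N := Nat.cast_nonneg N
  have hK0 : (0 : ℝ) ≤ K := Nat.cast_nonneg K
  refine (en1 N K).trans ?_
  have key : ∑ b ∈ Icc 1 K, ∑ c ∈ Icc 1 K, (if c ≤ b then (N : ℝ) / b * (K / b) else 0) ≤
      N * K * (1 + Real.log K) := by
    calc ∑ b ∈ Icc 1 K, ∑ c ∈ Icc 1 K, (if c ≤ b then (N : ℝ) / b * (K / b) else 0)
        = ∑ b ∈ Icc 1 K, (N : ℝ) * K * (1 / b) := by
          apply sum_congr rfl
          intro b hb
          rw [mem_Icc] at hb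
          rw [← sum_filter, sum_const]
          have : (Icc 1 K).filter (fun c => c ≤ b) = Icc 1 b := by
            ext c
            rw [mem_filter, mem_Icc, mem_Icc]
            omega
          rw [this, Nat.card_Icc, Nat.add_sub_cancel, nsmul_eq_mul]
          have hb0 : (b : ℝ) ≠ 0 := by
            have : b ≠ 0 := by omega
            exact_mod_cast this
          field_simp
      _ = N * K * ∑ i ∈ range K, 1 / ((i : ℝ) + 1) := by
          rw [← mul_sum]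
          congr 1
          rw [← Ico_succ_right_eq_Icc, sum_Ico_eq_sum_range]
          apply sum_congr (by simp)
          intro i _
          push_cast
          rw [add_comm (1 : ℝ)]
      _ ≤ _ := mul_le_mul_of_nonneg_left (harm K) (by positivity)
  rw [sum_product]
  calc ∑ b ∈ Icc 1 K, ∑ c ∈ Icc 1 K, ((N : ℝ) / (max b c : ℕ)) * ((K : ℝ) / (max b c : ℕ))
      ≤ ∑ b ∈ Icc 1 K, ∑ c ∈ Icc 1 K, ((if c ≤ b then (N : ℝ) / b * (K / b) else 0) +
          (if b ≤ c then (N : ℝ) / c * (K / c) else 0)) := by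
        apply sum_le_sum
        intro b _
        apply sum_le_sum
        intro c _
        have h1 : 0 ≤ (N : ℝ) / b * (K / b) := by positivity
        have h2 : 0 ≤ (N : ℝ) / c * (K / c) := by positivity
        rcases le_total c b with h | h
        · rw [max_eq_left h, if_pos h]
          split_ifs <;> linarith
        · rw [max_eq_right h, if_pos h]
          split_ifs <;> linarith
    _ = ∑ b ∈ Icc 1 K, ∑ c ∈ Icc 1 K, (if c ≤ b then (N : ℝ) / b * (K / b) else 0) +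
          ∑ b ∈ Icc 1 K, ∑ c ∈ Icc 1 K, (if b ≤ c then (N : ℝ) / c * (K / c) else 0) := by
        rw [← sum_add_distrib]
        apply sum_congr rfl
        intro b _
        rw [sum_add_distrib]
    _ = 2 * ∑ b ∈ Icc 1 K, ∑ c ∈ Icc 1 K, (if c ≤ b then (N : ℝ) / b * (K / b) else 0) := by
        rw [sum_comm (s := Icc 1 K) (t := Icc 1 K)
          (f := fun b c => if b ≤ c then (N : ℝ) / c * (K / c) else 0)]
        ring
    _ ≤ _ := by linarith

/-- few products in a small set -/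
theorem cnt_en (N K : ℕ) (hK : 1 ≤ K) (E : Finset ℕ) :
    ((((Icc 1 N ×ˢ Icc 1 K).filter (fun x : ℕ × ℕ => x.1 * x.2 ∈ E)).card : ℝ)) ^ 2 ≤
      E.card * (2 * (N * K) * (1 + Real.log K)) := by
  classical
  set G := (Icc 1 N ×ˢ Icc 1 K).filter (fun x : ℕ × ℕ => x.1 * x.2 ∈ E) with hG
  have h1 : G.card = ∑ j ∈ E, (G.filter (fun x => x.1 * x.2 = j)).card :=
    card_eq_sum_card_fiberwise (fun x hx => (mem_filter.1 hx).2)
  have h2 : ((G.card : ℝ)) ^ 2 ≤ E.card * ∑ j ∈ E, (((G.filter (fun x => x.1 * x.2 = j)).card : ℕ) : ℝ) ^ 2 := by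
    rw [h1]
    push_cast
    exact sq_sum_le_card_mul_sum_sq
  refine h2.trans (mul_le_mul_of_nonneg_left ?_ (Nat.cast_nonneg _))
  set GG := (G ×ˢ G).filter (fun y : (ℕ × ℕ) × (ℕ × ℕ) => y.1.1 * y.1.2 = y.2.1 * y.2.2) with hGG
  have h3 : ∑ j ∈ E, (((G.filter (fun x => x.1 * x.2 = j)).card : ℕ) : ℝ) ^ 2 = (GG.card : ℝ) := by
    have h4 : GG.card = ∑ j ∈ E, (GG.filter (fun y => y.1.1 * y.1.2 = j)).card := by
      apply card_eq_sum_card_fiberwise
      intro y hy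
      have hy' := mem_coe.1 hy
      rw [hGG, mem_filter, mem_product] at hy'
      exact (mem_filter.1 hy'.1.1).2
    rw [h4]
    push_cast
    apply sum_congr rfl
    intro j _
    have h5 : GG.filter (fun y => y.1.1 * y.1.2 = j) =
        (G.filter (fun x => x.1 * x.2 = j)) ×ˢ (G.filter (fun x => x.1 * x.2 = j)) := by
      ext y
      simp only [hGG, mem_filter, mem_product]
      constructor
      · rintro ⟨⟨⟨a1, a2⟩, a3⟩, a4⟩
        exact ⟨⟨a1, a4⟩, a2, by rw [← a3]; exact a4⟩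
      · rintro ⟨⟨a1, a2⟩, a3, a4⟩
        exact ⟨⟨⟨a1, a3⟩, by rw [a2, a4]⟩, a2⟩
    rw [h5, card_product]
    push_cast
    ring
  rw [h3]
  refine le_trans ?_ (en2 N K hK)
  have h6 : GG ⊆ Qd N K := by
    intro y hy
    rw [hGG, mem_filter, mem_product] at hy
    have g1 := mem_filter.1 hy.1.1
    have g2 := mem_filter.1 hy.1.2
    unfold Qd
    rw [mem_filter, mem_product]
    exact ⟨⟨g1.1, g2.1⟩, hy.2⟩
  exact_mod_cast card_le_card h6

end Pool.Agent.Run7.h545.MG
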