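import Pool.Agent.Y323.EF.Mult
import Pool.Agent.Helper256.KM.E1

/-! # Almost all integers have at most `(1 + ε) log log N` prime factors, with multiplicity -/

set_option autoImplicit false

namespace Pool.Agent.Run7.h545.MG

open Finset Filter
open ArithmeticFunction (cardFactors)
open Pool.Agent.Y323.EF (ff LL turan cheb LL_nonneg sum_ff sum_inv_sq_le)
open Pool.Agent.Helper256.KM (mertens_inv)

/-- the primes up to `N / 2` -/
def PN (N : ℕ) : Finset ℕ := (Icc 1 (N / 2)).filter Nat.Prime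

lemma PN_prime {N q : ℕ} (h : q ∈ PN N) : q.Prime := (mem_filter.1 h).2

lemma PN_card (N : ℕ) : 2 * (PN N).card ≤ N := by
  have := card_filter_le (Icc 1 (N / 2)) Nat.Prime
  rw [Nat.card_Icc] at this
  unfold PN
  omega

lemma om_factorial (M : ℕ) : ∑ m ∈ Icc 1 M, cardFactors m = cardFactors (Nat.factorial M) := by
  induction M with
  | zero => simp
  | succ M ih =>
    rw [sum_Icc_succ_top (by omega), ih, Nat.factorial_succ,
      ArithmeticFunction.cardFactors_mul (by omega) (Nat.factorial_ne_zero M), add_comm]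

lemma om_le (M : ℕ) : (cardFactors (Nat.factorial M) : ℝ) ≤
    M * (∑ q ∈ (Icc 1 M).filter Nat.Prime, (1 : ℝ) / q + 2) := by
  rw [ArithmeticFunction.cardFactors_eq_sum_factorization, Finsupp.sum]
  push_cast
  have hsub : (Nat.factorial M).factorization.support ⊆ (Icc 1 M).filter Nat.Prime := by
    intro q hq
    rw [Nat.support_factorization, Nat.mem_primeFactors] at hq
    rw [mem_filter, mem_Icc]
    exact ⟨⟨hq.1.one_lt.le, (Nat.Prime.dvd_factorial hq.1).1 hq.2.1⟩, hq.1⟩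
  refine (sum_le_sum_of_subset_of_nonneg hsub fun _ _ _ => Nat.cast_nonneg _).trans ?_
  have hs := sum_inv_sq_le ((Icc 1 M).filter Nat.Prime) (fun q hq => (mem_filter.1 hq).2)
  have hM : (0 : ℝ) ≤ M := Nat.cast_nonneg M
  calc ∑ q ∈ (Icc 1 M).filter Nat.Prime, (((Nat.factorial M).factorization q : ℕ) : ℝ)
      ≤ ∑ q ∈ (Icc 1 M).filter Nat.Prime, ((M : ℝ) * (1 / q) + 2 * M * ((q : ℝ) ^ 2)⁻¹) := by
        apply sum_le_sum
        intro q hq
        rw [mem_filter] at hq
        have h1 := Nat.factorization_factorial_le_div_pred hq.2 M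
        have hq2 : (2 : ℝ) ≤ q := by exact_mod_cast hq.2.two_le
        have h2 : (((Nat.factorial M).factorization q : ℕ) : ℝ) ≤ (M : ℝ) / (q - 1) := by
          refine (by exact_mod_cast h1 : (((Nat.factorial M).factorization q : ℕ) : ℝ) ≤ ((M / (q - 1) : ℕ) : ℝ)).trans ?_
          refine Nat.cast_div_le.trans (le_of_eq ?_)
          rw [Nat.cast_sub hq.2.one_lt.le]
          norm_num
        refine h2.trans ?_
        have h3 : (1 : ℝ) / (q - 1) ≤ 1 / q + 2 * ((q : ℝ) ^ 2)⁻¹ := by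
          have h4 : (1 : ℝ) / q + 2 * ((q : ℝ) ^ 2)⁻¹ = (q + 2) / q ^ 2 := by field_simp
          rw [h4, div_le_div_iff₀ (by linarith) (by positivity)]
          nlinarith
        calc (M : ℝ) / (q - 1) = M * (1 / (q - 1)) := by ring
          _ ≤ M * (1 / q + 2 * ((q : ℝ) ^ 2)⁻¹) := mul_le_mul_of_nonneg_left h3 hM
          _ = _ := by ring
    _ = M * ∑ q ∈ (Icc 1 M).filter Nat.Prime, (1 : ℝ) / q +
          2 * M * ∑ q ∈ (Icc 1 M).filter Nat.Prime, ((q : ℝ) ^ 2)⁻¹ := by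
        rw [sum_add_distrib, mul_sum, mul_sum]
    _ ≤ M * ∑ q ∈ (Icc 1 M).filter Nat.Prime, (1 : ℝ) / q + 2 * M * 1 := by
        gcongr
    _ = _ := by ring

lemma top_half (N : ℕ) : ∑ q ∈ (Icc 1 N).filter Nat.Prime, (1 : ℝ) / q ≤ LL (PN N) + 1 := by
  unfold LL PN
  have h1 : (Icc 1 N).filter Nat.Prime ⊆ (Icc 1 (N / 2)).filter Nat.Prime ∪ Ioc (N / 2) N := by
    intro q hq
    rw [mem_filter, mem_Icc] at hq
    rw [mem_union, mem_filter, mem_Icc, mem_Ioc]
    by_cases h : q ≤ N / 2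
    · left; exact ⟨⟨hq.1.1, h⟩, hq.2⟩
    · right; exact ⟨by omega, hq.1.2⟩
  refine (sum_le_sum_of_subset_of_nonneg h1 fun _ _ _ => by positivity).trans ?_
  have h0 := sum_union_inter (s₁ := (Icc 1 (N / 2)).filter Nat.Prime) (s₂ := Ioc (N / 2) N)
    (f := fun q : ℕ => (1 : ℝ) / q)
  have h0' : 0 ≤ ∑ q ∈ (Icc 1 (N / 2)).filter Nat.Prime ∩ Ioc (N / 2) N, (1 : ℝ) / (q : ℝ) :=
    sum_nonneg fun _ _ => by positivity
  have h2 : ∑ q ∈ Ioc (N / 2) N, (1 : ℝ) / q ≤ 1 := by
    calc ∑ q ∈ Ioc (N / 2) N, (1 : ℝ) / q ≤ ∑ _q ∈ Ioc (N / 2) N, (2 : ℝ) / (N + 1) := by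
          apply sum_le_sum
          intro q hq
          rw [mem_Ioc] at hq
          have h3 : N + 1 ≤ 2 * q := by omega
          have h4 : (N : ℝ) + 1 ≤ 2 * q := by exact_mod_cast h3
          have h5 : (0 : ℝ) < q := by
            have : 0 < q := by omega
            exact_mod_cast this
          rw [div_le_div_iff₀ h5 (by positivity)]
          linarith
      _ = ((N - N / 2 : ℕ) : ℝ) * (2 / (N + 1)) := by
          rw [sum_const, Nat.card_Ioc, nsmul_eq_mul]
      _ ≤ ((N : ℝ) + 1) / 2 * (2 / (N + 1)) := by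
          apply mul_le_mul_of_nonneg_right _ (by positivity)
          have h6 : 2 * (N - N / 2) ≤ N + 1 := by omega
          have h7 : (2 : ℝ) * ((N - N / 2 : ℕ) : ℝ) ≤ N + 1 := by exact_mod_cast h6
          linarith
      _ = 1 := by field_simp
  linarith

lemma Ioc_zero (N : ℕ) : Ioc 0 N = Icc 1 N := by
  ext m; simp only [mem_Ioc, mem_Icc]; omega

/-- the mean of `Ω - ω_P` is bounded -/
lemma om_diff (N : ℕ) : ∑ m ∈ Icc 1 N, ((cardFactors m : ℝ) - ff (PN N) m) ≤ 4 * N := by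
  rw [sum_sub_distrib]
  have h1 : ∑ m ∈ Icc 1 N, (cardFactors m : ℝ) = (cardFactors (Nat.factorial N) : ℝ) := by
    rw [← om_factorial]; push_cast; rfl
  have h2 := om_le N
  have h3 := top_half N
  have h4 := sum_ff (PN N) N
  rw [Ioc_zero] at h4
  have h5 : (2 : ℝ) * ((PN N).card : ℝ) ≤ N := by exact_mod_cast PN_card N
  have hN : (0 : ℝ) ≤ N := Nat.cast_nonneg N
  have h6 := mul_le_mul_of_nonneg_left h3 hN
  rw [h1]
  nlinarith

lemma ff_le (N m : ℕ) (hm : m ≠ 0) : ff (PN N) m ≤ cardFactors m := by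
  unfold ff
  rw [sum_boole]
  have h1 : (PN N).filter (fun q => q ∣ m) ⊆ m.primeFactors := by
    intro q hq
    rw [mem_filter] at hq
    rw [Nat.mem_primeFactors]
    exact ⟨PN_prime hq.1, hq.2, hm⟩
  have h2 : m.primeFactors.card ≤ cardFactors m := by
    rw [ArithmeticFunction.cardFactors_apply]
    exact List.toFinset_card_le _
  exact_mod_cast (card_le_card h1).trans h2

/-- **Hardy and Ramanujan.** -/
theorem typ (ε η : ℝ) (hε : 0 < ε) (hη : 0 < η) : ∃ N₀ : ℕ, ∀ N : ℕ, N₀ ≤ N →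
    (((Icc 1 N).filter fun m => (1 + ε) * Real.log (Real.log N) < (cardFactors m : ℝ)).card : ℝ) ≤
      η * N := by
  obtain ⟨C, hC⟩ := mertens_inv
  set C1 : ℝ := |C| with hC1
  have hC10 : 0 ≤ C1 := abs_nonneg _
  set T : ℝ := 8 / η with hT
  have hT0 : 0 < T := by positivity
  set B : ℝ := 2 * ((1 + ε) * C1 + T) / ε + 16 / (ε ^ 2 * η) + C1 + 1 with hB
  have hll : Tendsto (fun M : ℕ => Real.log (Real.log (M : ℝ))) atTop atTop :=
    Real.tendsto_log_atTop.comp (Real.tendsto_log_atTop.comp tendsto_natCast_atTop_atTop)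
  obtain ⟨M₀, hM₀⟩ := eventually_atTop.1 (hll.eventually_ge_atTop B)
  refine ⟨2 * M₀ + 6, fun N hN => ?_⟩
  have hM : M₀ ≤ N / 2 := by omega
  have hM3 : 3 ≤ N / 2 := by omega
  have hB1 := hM₀ _ hM
  have hm := abs_le.1 (hC (N / 2) hM3)
  have hCle : C ≤ C1 := le_abs_self C
  set L : ℝ := LL (PN N) with hL
  have hLlo : Real.log (Real.log ((N / 2 : ℕ) : ℝ)) - C1 ≤ L := by
    have := hm.1
    rw [hL]
    unfold LL PN
    linarith
  have hLup : L ≤ Real.log (Real.log N) + C1 := by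
    have h1 := hm.2
    have h3 : (3 : ℝ) ≤ ((N / 2 : ℕ) : ℝ) := by exact_mod_cast hM3
    have h4 : ((N / 2 : ℕ) : ℝ) ≤ N := by exact_mod_cast Nat.div_le_self N 2
    have h2 : Real.log (Real.log ((N / 2 : ℕ) : ℝ)) ≤ Real.log (Real.log N) :=
      Real.log_le_log (Real.log_pos (by linarith)) (Real.log_le_log (by linarith) h4)
    rw [hL]
    unfold LL PN
    linarith
  have hL1 : 2 * ((1 + ε) * C1 + T) / ε + 16 / (ε ^ 2 * η) + 1 ≤ L := by
    have : B - C1 = 2 * ((1 + ε) * C1 + T) / ε + 16 / (ε ^ 2 * η) + 1 := by rw [hB]; ring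
    linarith
  have hq1 : 0 ≤ 2 * ((1 + ε) * C1 + T) / ε := by positivity
  have hq2 : 0 ≤ 16 / (ε ^ 2 * η) := by positivity
  have hL0 : 0 < L := by linarith
  have hN0 : (0 : ℝ) ≤ N := Nat.cast_nonneg N
  -- the two exceptional sets
  set S1 := (Icc 1 N).filter (fun m => T ≤ (cardFactors m : ℝ) - ff (PN N) m) with hS1
  set S2 := (Icc 1 N).filter (fun m => ε / 2 * L ≤ |ff (PN N) m - L|) with hS2
  have hsub : ((Icc 1 N).filter fun m => (1 + ε) * Real.log (Real.log N) < (cardFactors m : ℝ)) ⊆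
      S1 ∪ S2 := by
    intro m hm'
    rw [mem_filter] at hm'
    rw [mem_union]
    by_cases h : T ≤ (cardFactors m : ℝ) - ff (PN N) m
    · left; rw [hS1, mem_filter]; exact ⟨hm'.1, h⟩
    · right
      push Not at h
      rw [hS2, mem_filter]
      refine ⟨hm'.1, ?_⟩
      have h1 := hm'.2
      have h2 : (1 + ε) * (L - C1) ≤ (1 + ε) * Real.log (Real.log N) :=
        mul_le_mul_of_nonneg_left (by linarith) (by linarith)
      have h3 : (1 + ε) * C1 + T ≤ ε / 2 * L := by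
        have : 2 * ((1 + ε) * C1 + T) / ε ≤ L := by linarith
        rw [div_le_iff₀ hε] at this
        linarith
      refine le_trans ?_ (le_abs_self _)
      nlinarith
  have hc1 : (S1.card : ℝ) ≤ η / 2 * N := by
    have h1 : (S1.card : ℝ) * T ≤ 4 * N := by
      refine le_trans ?_ (om_diff N)
      calc (S1.card : ℝ) * T = ∑ _m ∈ S1, T := by rw [sum_const, nsmul_eq_mul]
        _ ≤ ∑ m ∈ S1, ((cardFactors m : ℝ) - ff (PN N) m) :=
            sum_le_sum fun m hm => (mem_filter.1 hm).2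
        _ ≤ _ := by
            apply sum_le_sum_of_subset_of_nonneg (filter_subset _ _)
            intro m hm _
            have := ff_le N m (by have := (mem_Icc.1 hm).1; omega)
            linarith
    rw [hT, mul_div_assoc', div_le_iff₀ hη] at h1
    linarith
  have hc2 : (S2.card : ℝ) ≤ η / 2 * N := by
    have h1 := cheb (PN N) (fun q hq => PN_prime hq) N (PN_card N) (ε / 2) (by linarith) hL0 S2
      (by rw [Ioc_zero]; exact filter_subset _ _) (fun m hm => (mem_filter.1 hm).2)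
    have h2 : 16 / (ε ^ 2 * η) ≤ L := by linarith
    rw [div_le_iff₀ (by positivity)] at h2
    have h3 : (S2.card : ℝ) * ((ε / 2) ^ 2 * L) ≤ 2 * N := h1
    have h4 : 4 / η ≤ (ε / 2) ^ 2 * L := by
      rw [div_le_iff₀ hη]
      nlinarith
    have h5 : (S2.card : ℝ) * (4 / η) ≤ 2 * N :=
      (mul_le_mul_of_nonneg_left h4 (Nat.cast_nonneg _)).trans h3
    rw [mul_div_assoc', div_le_iff₀ hη] at h5
    linarith
  have h1 : (((Icc 1 N).filter fun m => (1 + ε) * Real.log (Real.log N) <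
      (cardFactors m : ℝ)).card : ℝ) ≤ S1.card + S2.card := by
    exact_mod_cast (card_le_card hsub).trans (card_union_le _ _)
  linarith

end Pool.Agent.Run7.h545.MG
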